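import Mathlib

/-! The averaging operator `P a (z) = ∑ 2 ^ (-e) a (z + e)` on a cyclic group does not shrink slowly
varying vectors: log-convexity of the norms of the iterates. -/

set_option autoImplicit false

namespace Pool.Agent.Y965.SI

open Finset

variable {ι : Type*} [Fintype ι] {n : ℕ} [NeZero n]

/-- inner product -/
noncomputable def ip (a b : ZMod n → ι → ℝ) : ℝ := ∑ z, ∑ i, a z i * b z i

/-- shift -/
def Sh (e : ZMod n) (a : ZMod n → ι → ℝ) : ZMod n → ι → ℝ := fun z => a (z + e)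

/-- truncated geometric average -/
noncomputable def PP (cap : ℕ) (a : ZMod n → ι → ℝ) : ZMod n → ι → ℝ :=
  fun z i => ∑ e ∈ Icc 1 cap, (1 / 2 : ℝ) ^ e * a (z + (e : ZMod n)) i

/-- the adjoint -/
noncomputable def QQ (cap : ℕ) (a : ZMod n → ι → ℝ) : ZMod n → ι → ℝ :=
  fun z i => ∑ e ∈ Icc 1 cap, (1 / 2 : ℝ) ^ e * a (z - (e : ZMod n)) i

theorem ip_comm (a b : ZMod n → ι → ℝ) : ip a b = ip b a := by
  unfold ip
  exact sum_congr rfl fun z _ => sum_congr rfl fun i _ => mul_comm _ _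

theorem ip_self_nonneg (a : ZMod n → ι → ℝ) : 0 ≤ ip a a :=
  sum_nonneg fun _ _ => sum_nonneg fun _ _ => mul_self_nonneg _

theorem ip_cs (a b : ZMod n → ι → ℝ) : ip a b ^ 2 ≤ ip a a * ip b b := by
  unfold ip
  have h := Finset.sum_mul_sq_le_sq_mul_sq (Finset.univ : Finset (ZMod n × ι))
    (fun x => a x.1 x.2) (fun x => b x.1 x.2)
  simp only [Fintype.sum_prod_type] at h
  simpa only [sq] using h

theorem ip_PP (cap : ℕ) (a b : ZMod n → ι → ℝ) : ip (PP cap a) b = ip a (QQ cap b) := by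
  unfold ip PP QQ
  have h1 : ∀ z : ZMod n, ∑ i, (∑ e ∈ Icc 1 cap, (1 / 2 : ℝ) ^ e * a (z + (e : ZMod n)) i) * b z i
      = ∑ e ∈ Icc 1 cap, ∑ i, (1 / 2 : ℝ) ^ e * (a (z + (e : ZMod n)) i * b z i) := by
    intro z
    rw [sum_comm]
    apply sum_congr rfl
    intro i _
    rw [sum_mul]
    exact sum_congr rfl fun e _ => by ring
  have h2 : ∀ z : ZMod n, ∑ i, a z i * (∑ e ∈ Icc 1 cap, (1 / 2 : ℝ) ^ e * b (z - (e : ZMod n)) i)
      = ∑ e ∈ Icc 1 cap, ∑ i, (1 / 2 : ℝ) ^ e * (a z i * b (z - (e : ZMod n)) i) := by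
    intro z
    rw [sum_comm]
    apply sum_congr rfl
    intro i _
    rw [mul_sum]
    exact sum_congr rfl fun e _ => by ring
  rw [sum_congr rfl fun z _ => h1 z, sum_congr rfl fun z _ => h2 z, sum_comm, sum_comm (s := (univ : Finset (ZMod n)))]
  apply sum_congr rfl
  intro e _
  apply Fintype.sum_equiv (Equiv.addRight (e : ZMod n))
  intro z
  apply sum_congr rfl
  intro i _
  simp [Equiv.coe_addRight]

omit [Fintype ι] [NeZero n] in
theorem PQ_comm (cap : ℕ) (a : ZMod n → ι → ℝ) : PP cap (QQ cap a) = QQ cap (PP cap a) := by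
  funext z i
  unfold PP QQ
  simp only [mul_sum]
  rw [sum_comm]
  apply sum_congr rfl
  intro e _
  apply sum_congr rfl
  intro e' _
  have : z + (e' : ZMod n) - (e : ZMod n) = z - (e : ZMod n) + (e' : ZMod n) := by ring
  rw [this]
  ring

/-- log-convexity -/
theorem logconv (cap : ℕ) (a : ZMod n → ι → ℝ) :
    ip (PP cap a) (PP cap a) ^ 2 ≤ ip a a * ip (PP cap (PP cap a)) (PP cap (PP cap a)) := by
  have h1 : ip (PP cap a) (PP cap a) = ip a (QQ cap (PP cap a)) := ip_PP cap a _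
  have h2 : ip (QQ cap (PP cap a)) (QQ cap (PP cap a)) = ip (PP cap (PP cap a)) (PP cap (PP cap a)) := by
    rw [← ip_PP, PQ_comm, ip_comm, ← ip_PP]
  have h3 := ip_cs a (QQ cap (PP cap a))
  rw [h1, ← h2]
  exact h3


/-- shift invariance of the sums -/
theorem sum_shift (F : ZMod n → ℝ) (e : ZMod n) : ∑ z, F (z + e) = ∑ z, F z :=
  Fintype.sum_equiv (Equiv.addRight e) _ _ fun z => by simp [Equiv.coe_addRight]

/-- the difference -/
def Df (a : ZMod n → ι → ℝ) : ZMod n → ι → ℝ := fun z i => a z i - a (z + 1) i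

theorem ip_R (c : ZMod n → ι → ℝ) :
    ip (fun z i => 2 * c (z - 1) i - c z i) (fun z i => 2 * c (z - 1) i - c z i) = ip c c + 2 * ip (Df c) (Df c) := by
  unfold ip Df
  rw [← sum_shift (fun z => ∑ i, (2 * c (z - 1) i - c z i) * (2 * c (z - 1) i - c z i)) 1]
  have h1 := sum_shift (fun z => ∑ i, c z i * c z i) 1
  rw [mul_sum, ← sum_add_distrib]
  have e1 : ∀ z : ZMod n, ∑ i, (2 * c (z + 1 - 1) i - c (z + 1) i) * (2 * c (z + 1 - 1) i - c (z + 1) i)
      = (∑ i, c z i * c z i + 2 * ∑ i, (c z i - c (z + 1) i) * (c z i - c (z + 1) i))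
        + (∑ i, c z i * c z i - ∑ i, c (z + 1) i * c (z + 1) i) := by
    intro z
    rw [add_sub_cancel_right, mul_sum, ← sum_add_distrib, ← sum_sub_distrib, ← sum_add_distrib]
    exact sum_congr rfl fun i _ => by ring
  rw [sum_congr rfl fun z _ => e1 z, sum_add_distrib, sum_sub_distrib, h1]
  ring

omit [Fintype ι] [NeZero n] in
theorem R_PP (cap : ℕ) (a : ZMod n → ι → ℝ) (z : ZMod n) (i : ι) :
    2 * PP cap a (z - 1) i - PP cap a z i = a z i - (1 / 2 : ℝ) ^ cap * a (z + (cap : ZMod n)) i := by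
  unfold PP
  induction cap with
  | zero => simp
  | succ cap ih =>
    rw [sum_Icc_succ_top (by omega), sum_Icc_succ_top (by omega)]
    have e : z - 1 + ((cap + 1 : ℕ) : ZMod n) = z + (cap : ZMod n) := by push_cast; ring
    rw [e]
    have e2 : 2 * (∑ k ∈ Icc 1 cap, (1 / 2 : ℝ) ^ k * a (z - 1 + (k : ZMod n)) i + (1 / 2) ^ (cap + 1) * a (z + (cap : ZMod n)) i)
        - (∑ k ∈ Icc 1 cap, (1 / 2 : ℝ) ^ k * a (z + (k : ZMod n)) i + (1 / 2) ^ (cap + 1) * a (z + ((cap + 1 : ℕ) : ZMod n)) i)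
        = (2 * (∑ k ∈ Icc 1 cap, (1 / 2 : ℝ) ^ k * a (z - 1 + (k : ZMod n)) i) - ∑ k ∈ Icc 1 cap, (1 / 2 : ℝ) ^ k * a (z + (k : ZMod n)) i)
          + (1 / 2) ^ cap * a (z + (cap : ZMod n)) i - (1 / 2) ^ (cap + 1) * a (z + ((cap + 1 : ℕ) : ZMod n)) i := by ring
    rw [e2, ih]
    ring

theorem ip_sub_shift (a : ZMod n → ι → ℝ) (e : ZMod n) {η : ℝ} (h0 : 0 ≤ η) :
    (1 - η) ^ 2 * ip a a ≤ ip (fun z i => a z i - η * a (z + e) i) (fun z i => a z i - η * a (z + e) i) := by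
  unfold ip
  have h1 := sum_shift (fun z => ∑ i, a z i * a z i) e
  have e1 : ∀ z : ZMod n, ∑ i, (a z i - η * a (z + e) i) * (a z i - η * a (z + e) i)
      = ((1 - η) * ∑ i, a z i * a z i + (η ^ 2 - η) * ∑ i, a (z + e) i * a (z + e) i)
        + η * ∑ i, (a z i - a (z + e) i) ^ 2 := by
    intro z
    rw [mul_sum, mul_sum, mul_sum, ← sum_add_distrib, ← sum_add_distrib]
    exact sum_congr rfl fun i _ => by ring
  rw [sum_congr rfl fun z _ => e1 z, sum_add_distrib, sum_add_distrib, ← mul_sum, ← mul_sum, h1]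
  have h2 : 0 ≤ ∑ z : ZMod n, η * ∑ i, (a z i - a (z + e) i) ^ 2 :=
    sum_nonneg fun _ _ => mul_nonneg h0 (sum_nonneg fun _ _ => sq_nonneg _)
  have e2 : (1 - η) ^ 2 * ∑ z : ZMod n, ∑ i, a z i * a z i
      = (1 - η) * ∑ z : ZMod n, ∑ i, a z i * a z i + (η ^ 2 - η) * ∑ z : ZMod n, ∑ i, a z i * a z i := by ring
  linarith

theorem sum_half_le (cap : ℕ) : ∑ e ∈ Icc 1 cap, (1 / 2 : ℝ) ^ e ≤ 1 := by
  have h : ∑ e ∈ Icc 1 cap, (1 / 2 : ℝ) ^ e = 1 - (1 / 2) ^ cap := by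
    induction cap with
    | zero => simp
    | succ A ih => rw [sum_Icc_succ_top (by omega), ih]; ring
  rw [h]
  have : (0 : ℝ) < (1 / 2) ^ cap := by positivity
  linarith

/-- the averaging operators are contractions -/
theorem avg_contr {w : ℕ → ℝ} (s : Finset ℕ) (hw : ∀ e ∈ s, 0 ≤ w e) (hw1 : ∑ e ∈ s, w e ≤ 1) (a : ZMod n → ι → ℝ) :
    ip (fun z i => ∑ e ∈ s, w e * a (z + (e : ZMod n)) i) (fun z i => ∑ e ∈ s, w e * a (z + (e : ZMod n)) i) ≤ ip a a := by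
  unfold ip
  have h1 : ∀ (z : ZMod n) (i : ι), (∑ e ∈ s, w e * a (z + (e : ZMod n)) i) * (∑ e ∈ s, w e * a (z + (e : ZMod n)) i)
      ≤ ∑ e ∈ s, w e * (a (z + (e : ZMod n)) i * a (z + (e : ZMod n)) i) := by
    intro z i
    have h2 := Finset.sum_mul_sq_le_sq_mul_sq s (fun e => √ (w e)) (fun e => √ (w e) * a (z + (e : ZMod n)) i)
    have h3 : ∑ e ∈ s, √ (w e) * (√ (w e) * a (z + (e : ZMod n)) i) = ∑ e ∈ s, w e * a (z + (e : ZMod n)) i := by
      apply sum_congr rfl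
      intro e he
      rw [← mul_assoc, Real.mul_self_sqrt (hw e he)]
    have h4 : ∑ e ∈ s, √ (w e) ^ 2 = ∑ e ∈ s, w e := sum_congr rfl fun e he => Real.sq_sqrt (hw e he)
    have h5 : ∑ e ∈ s, (√ (w e) * a (z + (e : ZMod n)) i) ^ 2 = ∑ e ∈ s, w e * (a (z + (e : ZMod n)) i * a (z + (e : ZMod n)) i) := by
      apply sum_congr rfl
      intro e he
      rw [mul_pow, Real.sq_sqrt (hw e he)]; ring
    rw [h3, h4, h5] at h2
    have h6 : 0 ≤ ∑ e ∈ s, w e * (a (z + (e : ZMod n)) i * a (z + (e : ZMod n)) i) :=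
      sum_nonneg fun e he => mul_nonneg (hw e he) (mul_self_nonneg _)
    nlinarith
  calc ∑ z : ZMod n, ∑ i, (∑ e ∈ s, w e * a (z + (e : ZMod n)) i) * (∑ e ∈ s, w e * a (z + (e : ZMod n)) i)
      ≤ ∑ z : ZMod n, ∑ i, ∑ e ∈ s, w e * (a (z + (e : ZMod n)) i * a (z + (e : ZMod n)) i) :=
        sum_le_sum fun z _ => sum_le_sum fun i _ => h1 z i
    _ = ∑ e ∈ s, w e * ∑ z : ZMod n, ∑ i, a z i * a z i := by
        have h7 : ∀ z : ZMod n, ∑ i, ∑ e ∈ s, w e * (a (z + (e : ZMod n)) i * a (z + (e : ZMod n)) i)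
            = ∑ e ∈ s, w e * ∑ i, a (z + (e : ZMod n)) i * a (z + (e : ZMod n)) i := by
          intro z
          rw [sum_comm]
          exact sum_congr rfl fun e _ => (mul_sum _ _ _).symm
        rw [sum_congr rfl fun z _ => h7 z, sum_comm]
        apply sum_congr rfl
        intro e _
        rw [← mul_sum, sum_shift (fun z => ∑ i, a z i * a z i) (e : ZMod n)]
    _ = (∑ e ∈ s, w e) * ∑ z : ZMod n, ∑ i, a z i * a z i := by rw [sum_mul]
    _ ≤ 1 * ∑ z : ZMod n, ∑ i, a z i * a z i :=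
        mul_le_mul_of_nonneg_right hw1 (sum_nonneg fun _ _ => sum_nonneg fun _ _ => mul_self_nonneg _)
    _ = _ := one_mul _

theorem PP_contr (cap : ℕ) (a : ZMod n → ι → ℝ) : ip (PP cap a) (PP cap a) ≤ ip a a :=
  avg_contr (Icc 1 cap) (fun e _ => by positivity) (sum_half_le cap) a

omit [Fintype ι] [NeZero n] in
theorem Df_PP (cap : ℕ) (a : ZMod n → ι → ℝ) : Df (PP cap a) = PP cap (Df a) := by
  funext z i
  unfold Df PP
  rw [← sum_sub_distrib]
  apply sum_congr rfl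
  intro e _
  have : z + 1 + (e : ZMod n) = z + (e : ZMod n) + 1 := by ring
  rw [this]; ring

/-- one step -/
theorem one_step (cap : ℕ) (a : ZMod n → ι → ℝ) :
    (1 - (1 / 2 : ℝ) ^ cap) ^ 2 * ip a a ≤ ip (PP cap a) (PP cap a) + 2 * ip (Df a) (Df a) := by
  have h1 := ip_sub_shift a (cap : ZMod n) (η := (1 / 2 : ℝ) ^ cap) (by positivity)
  have h2 : (fun z i => a z i - (1 / 2 : ℝ) ^ cap * a (z + (cap : ZMod n)) i)
      = fun z i => 2 * PP cap a (z - 1) i - PP cap a z i := by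
    funext z i
    rw [R_PP]
  rw [h2, ip_R, Df_PP] at h1
  have h3 := PP_contr cap (Df a)
  linarith

theorem iter_lower (cap : ℕ) (a : ZMod n → ι → ℝ) {ρ : ℝ} (hρ : 0 < ρ) (h0 : 0 < ip a a)
    (h1 : ρ * ip a a ≤ ip (PP cap a) (PP cap a)) : ∀ K : ℕ,
    ρ ^ K * ip a a ≤ ip ((PP cap)^[K] a) ((PP cap)^[K] a) := by
  have key : ∀ K : ℕ, 0 < ip ((PP cap)^[K] a) ((PP cap)^[K] a) ∧
      ρ * ip ((PP cap)^[K] a) ((PP cap)^[K] a) ≤ ip ((PP cap)^[K + 1] a) ((PP cap)^[K + 1] a) := by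
    intro K
    induction K with
    | zero => exact ⟨h0, h1⟩
    | succ K ih =>
      obtain ⟨i1, i2⟩ := ih
      have i3 : 0 < ip ((PP cap)^[K + 1] a) ((PP cap)^[K + 1] a) := lt_of_lt_of_le (mul_pos hρ i1) i2
      refine ⟨i3, ?_⟩
      have h2 := logconv cap ((PP cap)^[K] a)
      rw [← Function.iterate_succ_apply' (PP cap) K a, ← Function.iterate_succ_apply' (PP cap) (K + 1) a] at h2
      set x := ip ((PP cap)^[K] a) ((PP cap)^[K] a)
      set y := ip ((PP cap)^[K + 1] a) ((PP cap)^[K + 1] a)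
      set z := ip ((PP cap)^[K + 1 + 1] a) ((PP cap)^[K + 1 + 1] a)
      have h3 : x * (ρ * y) ≤ x * z := by
        calc x * (ρ * y) = (ρ * x) * y := by ring
          _ ≤ y * y := mul_le_mul_of_nonneg_right i2 i3.le
          _ = y ^ 2 := by ring
          _ ≤ x * z := h2
      exact le_of_mul_le_mul_left h3 i1
  intro K
  induction K with
  | zero => simp
  | succ K ih =>
    calc ρ ^ (K + 1) * ip a a = ρ * (ρ ^ K * ip a a) := by ring
      _ ≤ ρ * ip ((PP cap)^[K] a) ((PP cap)^[K] a) := mul_le_mul_of_nonneg_left ih hρ.le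
      _ ≤ _ := (key K).2

/-- the average over `M` consecutive levels -/
noncomputable def Pi (M : ℕ) (a : ZMod n → ι → ℝ) : ZMod n → ι → ℝ :=
  fun z i => ∑ e ∈ range M, (1 / (M : ℝ)) * a (z + (e : ZMod n)) i

theorem Pi_contr {M : ℕ} (hM : 1 ≤ M) (a : ZMod n → ι → ℝ) : ip (Pi M a) (Pi M a) ≤ ip a a := by
  apply avg_contr (range M) (fun e _ => by positivity) _ a
  rw [sum_const, card_range, nsmul_eq_mul, mul_one_div, div_self]
  have : (1 : ℝ) ≤ M := by exact_mod_cast hM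
  linarith

omit [Fintype ι] [NeZero n] in
theorem Pi_PP (M cap : ℕ) (a : ZMod n → ι → ℝ) : Pi M (PP cap a) = PP cap (Pi M a) := by
  funext z i
  unfold Pi PP
  simp only [mul_sum]
  rw [sum_comm]
  apply sum_congr rfl
  intro e _
  apply sum_congr rfl
  intro e' _
  have : z + (e' : ZMod n) + (e : ZMod n) = z + (e : ZMod n) + (e' : ZMod n) := by ring
  rw [this]
  ring

omit [Fintype ι] [NeZero n] in
theorem Pi_iter (M cap K : ℕ) : ∀ a : ZMod n → ι → ℝ, Pi M ((PP cap)^[K] a) = (PP cap)^[K] (Pi M a) := by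
  induction K with
  | zero => intro a; rfl
  | succ K ih => intro a; rw [Function.iterate_succ_apply, Function.iterate_succ_apply, ih, Pi_PP]

omit [Fintype ι] [NeZero n] in
theorem Df_Pi (M : ℕ) (a : ZMod n → ι → ℝ) (z : ZMod n) (i : ι) :
    Df (Pi M a) z i = (1 / (M : ℝ)) * (a z i - a (z + (M : ZMod n)) i) := by
  unfold Df Pi
  rw [← mul_sum, ← mul_sum, ← mul_sub, ← sum_sub_distrib]
  congr 1
  have e : ∀ e ∈ range M, a (z + (e : ZMod n)) i - a (z + 1 + (e : ZMod n)) i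
      = (fun j : ℕ => a (z + (j : ZMod n)) i) e - (fun j : ℕ => a (z + (j : ZMod n)) i) (e + 1) := by
    intro e _
    have : z + 1 + (e : ZMod n) = z + ((e + 1 : ℕ) : ZMod n) := by push_cast; ring
    simp only [this]
  rw [sum_congr rfl e, sum_range_sub']
  simp

theorem Df_Pi_le {M : ℕ} (hM : 1 ≤ M) (a : ZMod n → ι → ℝ) :
    ip (Df (Pi M a)) (Df (Pi M a)) ≤ 4 / (M : ℝ) ^ 2 * ip a a := by
  have hM0 : (0 : ℝ) < M := by exact_mod_cast hM
  unfold ip
  have h1 := sum_shift (fun z => ∑ i, a z i * a z i) (M : ZMod n)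
  have e1 : ∀ z : ZMod n, ∑ i, Df (Pi M a) z i * Df (Pi M a) z i
      ≤ 2 / (M : ℝ) ^ 2 * ∑ i, a z i * a z i + 2 / (M : ℝ) ^ 2 * ∑ i, a (z + (M : ZMod n)) i * a (z + (M : ZMod n)) i := by
    intro z
    rw [mul_sum, mul_sum, ← sum_add_distrib]
    apply sum_le_sum
    intro i _
    rw [Df_Pi]
    have e2 : (1 / (M : ℝ)) * (a z i - a (z + (M : ZMod n)) i) * ((1 / (M : ℝ)) * (a z i - a (z + (M : ZMod n)) i))
        = 1 / (M : ℝ) ^ 2 * (a z i - a (z + (M : ZMod n)) i) ^ 2 := by field_simp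
    rw [e2]
    have h2 : (a z i - a (z + (M : ZMod n)) i) ^ 2 ≤ 2 * (a z i * a z i) + 2 * (a (z + (M : ZMod n)) i * a (z + (M : ZMod n)) i) := by
      nlinarith [sq_nonneg (a z i + a (z + (M : ZMod n)) i)]
    have h3 := mul_le_mul_of_nonneg_left h2 (show 0 ≤ 1 / (M : ℝ) ^ 2 by positivity)
    refine h3.trans (le_of_eq ?_)
    ring
  refine (sum_le_sum fun z _ => e1 z).trans (le_of_eq ?_)
  rw [sum_add_distrib, ← mul_sum, ← mul_sum, h1]
  ring

/-- THE SPECTRAL LEMMA. -/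
theorem spectral (cap : ℕ) {M : ℕ} (hM : 1 ≤ M) (K : ℕ) (a : ZMod n → ι → ℝ) {B e ρ : ℝ} (hB : 0 < B) (he : 0 < e)
    (h1 : ip a a ≤ B) (h2 : e * B ≤ ip (Pi M a) (Pi M a)) (hρ : 0 < ρ)
    (hρ1 : ρ ≤ (1 - (1 / 2 : ℝ) ^ cap) ^ 2 - 8 / ((M : ℝ) ^ 2 * e)) :
    ρ ^ K * (e * B) ≤ ip ((PP cap)^[K] a) ((PP cap)^[K] a) := by
  have hM0 : (0 : ℝ) < M := by exact_mod_cast hM
  have hpos : 0 < ip (Pi M a) (Pi M a) := lt_of_lt_of_le (mul_pos he hB) h2
  have h3 := one_step cap (Pi M a)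
  have h4 := Df_Pi_le hM a
  have h5 : ρ * ip (Pi M a) (Pi M a) ≤ ip (PP cap (Pi M a)) (PP cap (Pi M a)) := by
    have h6 : 8 / (M : ℝ) ^ 2 * B ≤ 8 / ((M : ℝ) ^ 2 * e) * ip (Pi M a) (Pi M a) := by
      have e1 : 8 / (M : ℝ) ^ 2 * B = 8 / ((M : ℝ) ^ 2 * e) * (e * B) := by field_simp
      rw [e1]
      exact mul_le_mul_of_nonneg_left h2 (by positivity)
    have h7 : 4 / (M : ℝ) ^ 2 * ip a a ≤ 4 / (M : ℝ) ^ 2 * B := mul_le_mul_of_nonneg_left h1 (by positivity)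
    have h8 := mul_le_mul_of_nonneg_right hρ1 hpos.le
    have e2 : 8 / (M : ℝ) ^ 2 * B = 2 * (4 / (M : ℝ) ^ 2 * B) := by ring
    rw [sub_mul] at h8
    linarith
  have h6 := iter_lower cap (Pi M a) hρ hpos h5 K
  rw [← Pi_iter] at h6
  have h7 := Pi_contr hM ((PP cap)^[K] a)
  have h8 := mul_le_mul_of_nonneg_left h2 (pow_nonneg hρ.le K)
  linarith

end Pool.Agent.Y965.SI
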