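import Pool.Agent.Y965.SI.St3
import Pool.Agent.Y965.SI.Spec

/-! The geometric walk on the levels: Chebyshev, iteration of the stages, the cyclic version. -/

set_option autoImplicit false

namespace Pool.Agent.Y965.SI

open Pool.Agent.H320R2.PD Finset

/-- one step of the walk on functions of the level -/
noncomputable def Pn (cap : ℕ) (φ : ℕ → ℝ) : ℕ → ℝ := fun m => ∑ e ∈ Icc 1 cap, (1 / 2 : ℝ) ^ e * φ (m + e)

theorem Pn_mono (cap : ℕ) {φ ψ : ℕ → ℝ} (h : ∀ m, φ m ≤ ψ m) (m : ℕ) : Pn cap φ m ≤ Pn cap ψ m := by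
  unfold Pn
  exact sum_le_sum fun e _ => mul_le_mul_of_nonneg_left (h _) (by positivity)

theorem Pn_iter_mono (cap K : ℕ) : ∀ {φ ψ : ℕ → ℝ}, (∀ m, φ m ≤ ψ m) → ∀ m, (Pn cap)^[K] φ m ≤ (Pn cap)^[K] ψ m := by
  induction K with
  | zero => intro φ ψ h m; exact h m
  | succ K ih =>
    intro φ ψ h m
    rw [Function.iterate_succ_apply, Function.iterate_succ_apply]
    exact ih (fun m => Pn_mono cap h m) m

theorem Pn_sub (cap : ℕ) (φ ψ : ℕ → ℝ) : Pn cap (fun m => φ m - ψ m) = fun m => Pn cap φ m - Pn cap ψ m := by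
  funext m
  unfold Pn
  rw [← sum_sub_distrib]
  exact sum_congr rfl fun e _ => by ring

theorem Pn_iter_sub (cap K : ℕ) : ∀ (φ ψ : ℕ → ℝ) (m : ℕ),
    (Pn cap)^[K] (fun m => φ m - ψ m) m = (Pn cap)^[K] φ m - (Pn cap)^[K] ψ m := by
  induction K with
  | zero => intro φ ψ m; rfl
  | succ K ih =>
    intro φ ψ m
    rw [Function.iterate_succ_apply, Function.iterate_succ_apply, Function.iterate_succ_apply, Pn_sub]
    exact ih _ _ m

theorem Pn_neg (cap : ℕ) (φ : ℕ → ℝ) : Pn cap (fun m => -φ m) = fun m => -Pn cap φ m := by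
  funext m
  unfold Pn
  rw [← sum_neg_distrib]
  exact sum_congr rfl fun e _ => by ring

theorem Pn_iter_neg (cap K : ℕ) : ∀ (φ : ℕ → ℝ) (m : ℕ),
    (Pn cap)^[K] (fun m => -φ m) m = -(Pn cap)^[K] φ m := by
  induction K with
  | zero => intro φ m; rfl
  | succ K ih =>
    intro φ m
    rw [Function.iterate_succ_apply, Function.iterate_succ_apply, Pn_neg]
    exact ih _ m

theorem Pn_iter_abs (cap K : ℕ) {φ ψ : ℕ → ℝ} (h : ∀ m, |φ m| ≤ ψ m) (m : ℕ) :
    |(Pn cap)^[K] φ m| ≤ (Pn cap)^[K] ψ m := by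
  rw [abs_le]
  constructor
  · rw [← Pn_iter_neg]
    exact Pn_iter_mono cap K (fun m => (abs_le.1 (h m)).1) m
  · exact Pn_iter_mono cap K (fun m => (abs_le.1 (h m)).2) m

theorem Pn_words (cap : ℕ) : ∀ (k : ℕ) (φ : ℕ → ℝ) (m : ℕ),
    (Pn cap)^[k] φ m = ∑ w ∈ FW cap k, wwt w * φ (m + w.sum) := by
  intro k
  induction k with
  | zero => intro φ m; simp [FW, wwt]
  | succ k ih =>
    intro φ m
    rw [Function.iterate_succ_apply', sum_FW_succ]
    show ∑ e ∈ Icc 1 cap, (1 / 2 : ℝ) ^ e * (Pn cap)^[k] φ (m + e) = _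
    apply sum_congr rfl
    intro e _
    have h1 := ih φ (m + e)
    rw [h1, mul_sum]
    apply sum_congr rfl
    intro v _
    rw [wwt_eq, wwt_eq, List.sum_cons, pow_add, add_assoc]
    ring

/-- second moment, one step -/
theorem quad_step (cap : ℕ) (x c : ℝ) (hc : 0 ≤ c) :
    ∑ e ∈ Icc 1 cap, (1 / 2 : ℝ) ^ e * ((x + e) ^ 2 + c) ≤ (x + 2) ^ 2 + 2 + c := by
  have h : ∑ e ∈ Icc 1 cap, (1 / 2 : ℝ) ^ e * ((x + e) ^ 2 + c)
      = ((x + 2) ^ 2 + 2 + c) - (1 / 2) ^ cap * ((x + cap + 2) ^ 2 + 2 + c) := by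
    induction cap with
    | zero => simp
    | succ A ih =>
      rw [sum_Icc_succ_top (by omega), ih]
      push_cast
      ring
  rw [h]
  have : 0 ≤ (1 / 2 : ℝ) ^ cap * ((x + cap + 2) ^ 2 + 2 + c) := by positivity
  linarith

theorem quad_iter (cap : ℕ) (A μ : ℝ) (hA : 0 ≤ A) : ∀ (K : ℕ) (c : ℝ), 0 ≤ c → ∀ m : ℕ,
    (Pn cap)^[K] (fun m => A * ((m : ℝ) - μ) ^ 2 + c) m ≤ A * (((m : ℝ) + 2 * K - μ) ^ 2 + 2 * K) + c := by
  intro K
  induction K with
  | zero => intro c _ m; simp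
  | succ K ih =>
    intro c hc m
    rw [Function.iterate_succ_apply']
    have h1 : Pn cap ((Pn cap)^[K] (fun m => A * ((m : ℝ) - μ) ^ 2 + c)) m
        ≤ Pn cap (fun m => A * (((m : ℝ) + 2 * K - μ) ^ 2 + 2 * K) + c) m := Pn_mono cap (fun m => ih c hc m) m
    refine h1.trans ?_
    unfold Pn
    have h2 := quad_step cap ((m : ℝ) + 2 * K - μ) (2 * K) (by positivity)
    have h3 : ∑ e ∈ Icc 1 cap, (1 / 2 : ℝ) ^ e * (A * ((((m + e : ℕ) : ℝ) + 2 * K - μ) ^ 2 + 2 * K) + c)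
        = A * ∑ e ∈ Icc 1 cap, (1 / 2 : ℝ) ^ e * (((m : ℝ) + 2 * K - μ + e) ^ 2 + 2 * K)
          + c * ∑ e ∈ Icc 1 cap, (1 / 2 : ℝ) ^ e := by
      rw [mul_sum, mul_sum, ← sum_add_distrib]
      apply sum_congr rfl
      intro e _
      push_cast
      ring
    rw [h3]
    have h4 := mul_le_mul_of_nonneg_left h2 hA
    have h5 := mul_le_mul_of_nonneg_left (sum_half_le cap) hc
    push_cast
    have h6 : A * (((m : ℝ) + 2 * K - μ + 2) ^ 2 + 2 + 2 * K) = A * (((m : ℝ) + 2 * (K + 1) - μ) ^ 2 + 2 * (K + 1)) := by ring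
    linarith

/-- iteration of the stages -/
theorem stages {cap k n J : ℕ} {D ε : ℝ} (hD : 0 < D) (hε : 0 ≤ ε) (φ : ℕ → ℕ → ℝ) (hφ : ∀ i m, |φ i m| ≤ 1)
    (hst : ∀ i < J, ∀ m : ℕ, (m : ℝ) ≤ n + 2 * (i * k) + D → |φ i m - (Pn cap)^[k] (φ (i + 1)) m| ≤ ε) {l : ℕ}
    (hl : l ≤ n) : ∀ i ≤ J, |φ 0 l - (Pn cap)^[i * k] (φ i) l| ≤ i * (ε + 4 * (J * k) / D ^ 2) := by
  intro i
  induction i with
  | zero => intro _; simp
  | succ i ih =>
    intro hi
    have h1 := ih (by omega)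
    have hln : (l : ℝ) ≤ n := by exact_mod_cast hl
    have hP1 : ∀ m, |(Pn cap)^[k] (φ (i + 1)) m| ≤ 1 := by
      intro m
      have h2 := Pn_iter_abs cap k (φ := φ (i + 1)) (ψ := fun m => 0 * ((m : ℝ) - 0) ^ 2 + 1) (fun m => by simpa using hφ (i + 1) m) m
      have h3 := quad_iter cap 0 0 le_rfl k 1 zero_le_one m
      linarith
    have h2 : ∀ m : ℕ, |φ i m - (Pn cap)^[k] (φ (i + 1)) m| ≤ 2 / D ^ 2 * ((m : ℝ) - (l + 2 * (i * k))) ^ 2 + ε := by
      intro m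
      rcases le_or_gt (m : ℝ) (n + 2 * (i * k) + D) with h | h
      · have := hst i (by omega) m h
        have h3 : 0 ≤ 2 / D ^ 2 * ((m : ℝ) - (l + 2 * (i * k))) ^ 2 := by positivity
        linarith
      · have h3 : D ≤ (m : ℝ) - (l + 2 * (i * k)) := by linarith
        have h4 : D ^ 2 ≤ ((m : ℝ) - (l + 2 * (i * k))) ^ 2 := pow_le_pow_left₀ hD.le h3 2
        have h5 : 2 ≤ 2 / D ^ 2 * ((m : ℝ) - (l + 2 * (i * k))) ^ 2 := by
          calc (2 : ℝ) = 2 / D ^ 2 * D ^ 2 := by field_simp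
            _ ≤ _ := mul_le_mul_of_nonneg_left h4 (by positivity)
        have h6 := abs_sub (φ i m) ((Pn cap)^[k] (φ (i + 1)) m)
        have h7 := hφ i m
        have h8 := hP1 m
        linarith
    have h3 := Pn_iter_abs cap (i * k) h2 l
    rw [Pn_iter_sub] at h3
    have h4 := quad_iter cap (2 / D ^ 2) (l + 2 * (i * k)) (by positivity) (i * k) ε hε l
    have h5 : (Pn cap)^[i * k] ((Pn cap)^[k] (φ (i + 1))) l = (Pn cap)^[(i + 1) * k] (φ (i + 1)) l := by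
      rw [← Function.iterate_add_apply, show i * k + k = (i + 1) * k by ring]
    rw [h5] at h3
    have h6 : (2 : ℝ) / D ^ 2 * (((l : ℝ) + 2 * ((i * k : ℕ) : ℝ) - (l + 2 * (i * k))) ^ 2 + 2 * ((i * k : ℕ) : ℝ))
        ≤ 4 * (J * k) / D ^ 2 := by
      push_cast
      have e : (l : ℝ) + 2 * (i * k) - (l + 2 * (i * k)) = 0 := by ring
      rw [e]
      have h7 : (i : ℝ) * k ≤ J * k := by
        apply mul_le_mul_of_nonneg_right _ (Nat.cast_nonneg k)
        have : i ≤ J := by omega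
        exact_mod_cast this
      have e2 : (2 : ℝ) / D ^ 2 * (0 ^ 2 + 2 * (i * k)) = 4 * (i * k) / D ^ 2 := by ring
      rw [e2]
      apply div_le_div_of_nonneg_right _ (by positivity)
      linarith
    have h7 := abs_sub_le (φ 0 l) ((Pn cap)^[i * k] (φ i) l) ((Pn cap)^[(i + 1) * k] (φ (i + 1)) l)
    push_cast
    linarith

section cyc
variable {ι : Type*} [Fintype ι] {n : ℕ} [NeZero n]

omit [Fintype ι] [NeZero n] in
theorem PP_cast (cap K : ℕ) (i : ι) : ∀ (a : ZMod n → ι → ℝ) (m : ℕ),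
    (PP cap)^[K] a (m : ZMod n) i = (Pn cap)^[K] (fun m : ℕ => a (m : ZMod n) i) m := by
  induction K with
  | zero => intro a m; rfl
  | succ K ih =>
    intro a m
    rw [Function.iterate_succ_apply, Function.iterate_succ_apply, ih]
    have e : (fun m : ℕ => PP cap a (m : ZMod n) i) = Pn cap (fun m : ℕ => a (m : ZMod n) i) := by
      funext m
      unfold PP Pn
      apply sum_congr rfl
      intro e _
      push_cast
      rfl
    rw [e]

/-- the periodic extension of the levels `[c, c + n)` -/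
def per (c : ℕ) (φ : ι → ℕ → ℝ) : ZMod n → ι → ℝ := fun z i => φ i (c + (z - (c : ZMod n)).val)

omit [Fintype ι] [NeZero n] in
theorem per_eq (c : ℕ) (φ : ι → ℕ → ℝ) {m : ℕ} (h1 : c ≤ m) (h2 : m < c + n) (i : ι) :
    per c φ (m : ZMod n) i = φ i m := by
  unfold per
  congr 1
  obtain ⟨u, rfl⟩ := Nat.exists_eq_add_of_le h1
  have e : ((c + u : ℕ) : ZMod n) - (c : ZMod n) = (u : ZMod n) := by push_cast; ring
  rw [e, ZMod.val_natCast_of_lt (by omega)]

omit [Fintype ι] [NeZero n] in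
/-- comparison of the walk and the cyclic walk -/
theorem wrap (cap K : ℕ) (φ : ι → ℕ → ℝ) (hφ : ∀ i m, |φ i m| ≤ 1) {D : ℝ} (hD : 0 < D) {l : ℕ} (hl1 : D ≤ l)
    (hl2 : (l : ℝ) + D ≤ n) (i : ι) :
    |(PP cap)^[K] (per (2 * K) φ) (l : ZMod n) i - (Pn cap)^[K] (φ i) l| ≤ 4 * K / D ^ 2 := by
  rw [PP_cast, ← Pn_iter_sub]
  have h2 : ∀ m : ℕ, |per (2 * K) φ (m : ZMod n) i - φ i m| ≤ 2 / D ^ 2 * ((m : ℝ) - (l + 2 * K)) ^ 2 + 0 := by
    intro m
    by_cases h : 2 * K ≤ m ∧ m < 2 * K + n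
    · rw [per_eq _ _ h.1 h.2, sub_self, abs_zero]
      positivity
    · have h4 : D ^ 2 ≤ ((m : ℝ) - (l + 2 * K)) ^ 2 := by
        rcases not_and_or.1 h with h' | h'
        · have h5 : m < 2 * K := by omega
          have h6 : (m : ℝ) < 2 * K := by exact_mod_cast h5
          have h7 : D ≤ -((m : ℝ) - (l + 2 * K)) := by linarith
          calc D ^ 2 ≤ (-((m : ℝ) - (l + 2 * K))) ^ 2 := pow_le_pow_left₀ hD.le h7 2
            _ = _ := by ring
        · have h5 : 2 * K + n ≤ m := by omega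
          have h6 : (2 * K + n : ℝ) ≤ m := by exact_mod_cast h5
          exact pow_le_pow_left₀ hD.le (by linarith) 2
      have h5 : 2 ≤ 2 / D ^ 2 * ((m : ℝ) - (l + 2 * K)) ^ 2 := by
        calc (2 : ℝ) = 2 / D ^ 2 * D ^ 2 := by field_simp
          _ ≤ _ := mul_le_mul_of_nonneg_left h4 (by positivity)
      have h6 := abs_sub (per (2 * K) φ (m : ZMod n) i) (φ i m)
      have h7 := hφ i m
      have h8 : |per (2 * K) φ (m : ZMod n) i| ≤ 1 := hφ _ _
      linarith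
  refine (Pn_iter_abs cap K h2 l).trans ?_
  have h4 := quad_iter cap (2 / D ^ 2) (l + 2 * K) (by positivity) K 0 le_rfl l
  refine h4.trans (le_of_eq ?_)
  ring

end cyc

end Pool.Agent.Y965.SI
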