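import Pool.Agent.Y965.SI.Bin

/-! The combinatorial core: stages, near invariance and energy at the bottom give `L¹` mass at the top. -/

set_option autoImplicit false

namespace Pool.Agent.Y965.SI

open Finset

theorem sum_zmod {n : ℕ} [NeZero n] (c : ℕ) (F : ZMod n → ℝ) :
    ∑ z, F z = ∑ ρ ∈ range n, F ((c + ρ : ℕ) : ZMod n) := by
  rw [← sum_shift F (c : ZMod n)]
  have h1 : ∑ ρ ∈ range n, F ((c + ρ : ℕ) : ZMod n) = ∑ ρ ∈ range n, (fun z : ZMod n => F (z + (c : ZMod n))) (ρ : ZMod n) := by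
    apply sum_congr rfl
    intro ρ _
    simp only
    congr 1
    push_cast
    ring
  rw [h1]
  symm
  apply sum_bij' (fun (ρ : ℕ) _ => (ρ : ZMod n)) (fun (z : ZMod n) _ => z.val)
  · intro ρ _; exact mem_univ _
  · intro z _
    rw [mem_range]; exact ZMod.val_lt z
  · intro ρ hρ
    rw [mem_range] at hρ
    exact ZMod.val_natCast_of_lt hρ
  · intro z _
    exact ZMod.natCast_zmod_val z
  · intro ρ _; rfl

theorem card_edge {n : ℕ} {D : ℝ} (hD : 0 < D) :
    (((range n).filter fun l : ℕ => ¬ (D ≤ (l : ℝ) ∧ (l : ℝ) + D ≤ n)).card : ℝ) ≤ 2 * D + 2 := by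
  classical
  have hsub : ((range n).filter fun l : ℕ => ¬ (D ≤ (l : ℝ) ∧ (l : ℝ) + D ≤ n)) ⊆
      range ⌈D⌉₊ ∪ (Ico (n - ⌊D⌋₊) n) := by
    intro l hl
    rw [mem_filter, mem_range] at hl
    rw [mem_union, mem_range, mem_Ico]
    rcases not_and_or.1 hl.2 with h | h
    · left
      rw [Nat.lt_ceil]; linarith
    · right
      push Not at h
      have h1 : ((n - l : ℕ) : ℝ) < D := by
        rw [Nat.cast_sub hl.1.le]; linarith
      have h2 : n - l ≤ ⌊D⌋₊ := Nat.le_floor h1.le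
      omega
  have h1 : ((range n).filter fun l : ℕ => ¬ (D ≤ (l : ℝ) ∧ (l : ℝ) + D ≤ n)).card ≤ ⌈D⌉₊ + ⌊D⌋₊ := by
    refine (card_le_card hsub).trans ((card_union_le _ _).trans ?_)
    rw [card_range, Nat.card_Ico]
    omega
  have h2 : (⌈D⌉₊ : ℝ) < D + 1 := Nat.ceil_lt_add_one hD.le
  have h3 : (⌊D⌋₊ : ℝ) ≤ D := Nat.floor_le hD.le
  have h4 : (((range n).filter fun l : ℕ => ¬ (D ≤ (l : ℝ) ∧ (l : ℝ) + D ≤ n)).card : ℝ) ≤ ⌈D⌉₊ + ⌊D⌋₊ := by
    exact_mod_cast h1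
  linarith

theorem core {I J k cap n M : ℕ} (hn : 1 ≤ n) (hI : 1 ≤ I) (hM : 1 ≤ M) (hMn : 2 * M ≤ n) {D D' ε ε2 e1 ρs : ℝ}
    (hD : 0 < D) (hD' : 0 < D') (hε : 0 ≤ ε) (he1 : 0 < e1) (hε2 : ε2 ≤ e1 / 4)
    (φ : ℕ → Fin I → ℕ → ℝ) (hφ : ∀ j i m, |φ j i m| ≤ 1)
    (h1 : ∀ i, ∀ j < J, ∀ m : ℕ, (m : ℝ) ≤ n + 2 * (j * k) + D → |φ j i m - (Pn cap)^[k] (φ (j + 1) i) m| ≤ ε)
    (h2 : ∀ ρ < n, e1 * I ≤ ∑ i, φ J i (2 * (J * k) + ρ) ^ 2)
    (h3 : ∀ i, ∀ ρ B : ℕ, B < M → ρ + B < n → |φ J i (2 * (J * k) + ρ + B) - φ J i (2 * (J * k) + ρ)| ≤ ε2)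
    (hρ0 : 0 < ρs) (hρs : ρs ≤ (1 - (1 / 2 : ℝ) ^ cap) ^ 2 - 8 / ((M : ℝ) ^ 2 * (e1 / 4))) :
    ρs ^ (J * k) * (e1 / 4 * (n * I)) ≤ ∑ l ∈ range n, ∑ i, |φ 0 i l|
      + n * I * (J * (ε + 4 * (J * k) / D ^ 2) + 4 * (J * k) / D' ^ 2) + (2 * D' + 2) * I := by
  classical
  have : NeZero n := ⟨by omega⟩
  set K := J * k with hK
  have hnR : (1 : ℝ) ≤ n := by exact_mod_cast hn
  have hIR : (1 : ℝ) ≤ I := by exact_mod_cast hI
  set a : ZMod n → Fin I → ℝ := per (2 * K) (φ J) with ha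
  have ha1 : ∀ z i, |a z i| ≤ 1 := fun z i => hφ _ _ _
  have haρ : ∀ ρ < n, ∀ i, a ((2 * K + ρ : ℕ) : ZMod n) i = φ J i (2 * K + ρ) := fun ρ hρ i =>
    per_eq (2 * K) (φ J) (by omega) (by omega) i
  -- upper bound of the energy
  have hB : ip a a ≤ n * I := by
    unfold ip
    calc ∑ z, ∑ i, a z i * a z i ≤ ∑ z : ZMod n, ∑ i : Fin I, (1 : ℝ) := by
          apply sum_le_sum; intro z _
          apply sum_le_sum; intro i _
          have h := ha1 z i
          rw [← abs_mul_abs_self]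
          nlinarith [abs_nonneg (a z i)]
      _ = n * I := by
          rw [sum_const, sum_const, card_univ, card_univ, ZMod.card, Fintype.card_fin]
          simp
  -- near invariance
  have hPi : ∀ ρ : ℕ, ρ + M ≤ n → ∀ i, |Pi M a ((2 * K + ρ : ℕ) : ZMod n) i - a ((2 * K + ρ : ℕ) : ZMod n) i| ≤ ε2 := by
    intro ρ hρ i
    have hM0 : (0 : ℝ) < M := by exact_mod_cast hM
    have e0 : Pi M a ((2 * K + ρ : ℕ) : ZMod n) i - a ((2 * K + ρ : ℕ) : ZMod n) i
        = ∑ e ∈ range M, (1 / (M : ℝ)) * (φ J i (2 * K + ρ + e) - φ J i (2 * K + ρ)) := by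
      have h4 : a ((2 * K + ρ : ℕ) : ZMod n) i = ∑ e ∈ range M, (1 / (M : ℝ)) * φ J i (2 * K + ρ) := by
        rw [haρ ρ (by omega) i, sum_const, card_range, nsmul_eq_mul]
        field_simp
      rw [h4]
      unfold Pi
      rw [← sum_sub_distrib]
      apply sum_congr rfl
      intro e he
      rw [mem_range] at he
      have h5 : ((2 * K + ρ : ℕ) : ZMod n) + (e : ZMod n) = ((2 * K + (ρ + e) : ℕ) : ZMod n) := by
        push_cast; ring
      rw [h5, haρ (ρ + e) (by omega) i, ← add_assoc]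
      ring
    rw [e0]
    refine (abs_sum_le_sum_abs _ _).trans ?_
    calc ∑ e ∈ range M, |(1 / (M : ℝ)) * (φ J i (2 * K + ρ + e) - φ J i (2 * K + ρ))|
        ≤ ∑ e ∈ range M, (1 / (M : ℝ)) * ε2 := by
          apply sum_le_sum
          intro e he
          rw [mem_range] at he
          rw [abs_mul, abs_of_pos (show (0 : ℝ) < 1 / M by positivity)]
          exact mul_le_mul_of_nonneg_left (h3 i ρ e he (by omega)) (by positivity)
      _ = ε2 := by
          rw [sum_const, card_range, nsmul_eq_mul]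
          field_simp
  have hE : e1 / 4 * (n * I) ≤ ip (Pi M a) (Pi M a) := by
    unfold ip
    rw [sum_zmod (2 * K)]
    have h4 : ∑ ρ ∈ range (n - M), (e1 / 2 * I) ≤ ∑ ρ ∈ range n, ∑ i, Pi M a ((2 * K + ρ : ℕ) : ZMod n) i * Pi M a ((2 * K + ρ : ℕ) : ZMod n) i := by
      have h5 : ∑ ρ ∈ range (n - M), (e1 / 2 * I) ≤ ∑ ρ ∈ range (n - M), ∑ i, Pi M a ((2 * K + ρ : ℕ) : ZMod n) i * Pi M a ((2 * K + ρ : ℕ) : ZMod n) i := by
        apply sum_le_sum
        intro ρ hρ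
        rw [mem_range] at hρ
        have h6 := h2 ρ (by omega)
        have h7 : ∑ i, (φ J i (2 * K + ρ) ^ 2 - 2 * ε2) ≤ ∑ i, Pi M a ((2 * K + ρ : ℕ) : ZMod n) i * Pi M a ((2 * K + ρ : ℕ) : ZMod n) i := by
          apply sum_le_sum
          intro i _
          have h8 := hPi ρ (by omega) i
          rw [haρ ρ (by omega) i] at h8
          have h9 := hφ J i (2 * K + ρ)
          set x := φ J i (2 * K + ρ)
          set y := Pi M a ((2 * K + ρ : ℕ) : ZMod n) i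
          have h10 : y * y - x ^ 2 = 2 * x * (y - x) + (y - x) ^ 2 := by ring
          have h11 : -(2 * ε2) ≤ 2 * x * (y - x) := by
            have h12 : |2 * x * (y - x)| ≤ 2 * ε2 := by
              rw [abs_mul, abs_mul, abs_two]
              nlinarith [abs_nonneg x, abs_nonneg (y - x)]
            linarith [(abs_le.1 h12).1]
          nlinarith [sq_nonneg (y - x)]
        rw [sum_sub_distrib, sum_const, card_univ, Fintype.card_fin, nsmul_eq_mul] at h7
        nlinarith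
      refine h5.trans ?_
      apply sum_le_sum_of_subset_of_nonneg
      · intro ρ hρ
        rw [mem_range] at hρ ⊢; omega
      · intro ρ _ _
        exact sum_nonneg fun i _ => mul_self_nonneg _
    refine le_trans ?_ h4
    rw [sum_const, card_range, nsmul_eq_mul, Nat.cast_sub (by omega)]
    have h5 : (2 : ℝ) * M ≤ n := by exact_mod_cast hMn
    have h6 : (n : ℝ) / 2 ≤ n - M := by linarith
    have h7 := mul_le_mul_of_nonneg_right h6 (show 0 ≤ e1 / 2 * I by positivity)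
    linarith
  have hspec := spectral cap hM K a (show (0 : ℝ) < n * I by positivity) (show 0 < e1 / 4 by positivity) hB hE hρ0 hρs
  refine hspec.trans ?_
  -- upper bound
  have hPP1 : ∀ (l : ℕ) (i : Fin I), |(PP cap)^[K] a (l : ZMod n) i| ≤ 1 := by
    intro l i
    rw [PP_cast]
    have h4 := Pn_iter_abs cap K (φ := fun m : ℕ => a (m : ZMod n) i) (ψ := fun m => 0 * ((m : ℝ) - 0) ^ 2 + 1)
      (fun m => by simpa using ha1 _ _) l
    have h5 := quad_iter cap 0 0 le_rfl K 1 zero_le_one l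
    linarith
  set E : ℝ := J * (ε + 4 * (J * k) / D ^ 2) + 4 * (J * k) / D' ^ 2 with hEdef
  have hE0 : 0 ≤ E := by positivity
  have hpt : ∀ l ∈ range n, ∀ i : Fin I, (PP cap)^[K] a (l : ZMod n) i * (PP cap)^[K] a (l : ZMod n) i
      ≤ |φ 0 i l| + E + (if D' ≤ (l : ℝ) ∧ (l : ℝ) + D' ≤ n then 0 else 1) := by
    intro l hl i
    rw [mem_range] at hl
    have h4 := hPP1 l i
    have h5 : (PP cap)^[K] a (l : ZMod n) i * (PP cap)^[K] a (l : ZMod n) i ≤ |(PP cap)^[K] a (l : ZMod n) i| := by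
      rw [← abs_mul_abs_self]
      nlinarith [abs_nonneg ((PP cap)^[K] a (l : ZMod n) i)]
    refine h5.trans ?_
    split_ifs with hc
    · have h6 := wrap cap K (φ J) (hφ J) hD' hc.1 hc.2 i
      have h7 := stages hD hε (fun j => φ j i) (fun j m => hφ j i m) (fun j hj m hm => h1 i j hj m hm) hl.le J le_rfl
      have e1 : (4 : ℝ) * (K : ℕ) / D' ^ 2 = 4 * (J * k) / D' ^ 2 := by rw [hK]; push_cast; ring
      rw [e1] at h6
      rw [← hK] at h7
      have h8 := abs_sub_abs_le_abs_sub ((PP cap)^[K] a (l : ZMod n) i) (φ 0 i l)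
      have h9 := abs_sub_le ((PP cap)^[K] a (l : ZMod n) i) ((Pn cap)^[K] (φ J i) l) (φ 0 i l)
      have h10 : |(Pn cap)^[K] (φ J i) l - φ 0 i l| = |φ 0 i l - (Pn cap)^[K] (φ J i) l| := abs_sub_comm _ _
      linarith
    · have := abs_nonneg (φ 0 i l)
      linarith
  have hip : ip ((PP cap)^[K] a) ((PP cap)^[K] a)
      = ∑ l ∈ range n, ∑ i, (PP cap)^[K] a (l : ZMod n) i * (PP cap)^[K] a (l : ZMod n) i := by
    unfold ip
    rw [sum_zmod 0]
    simp only [zero_add]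
  rw [hip]
  refine (sum_le_sum fun l hl => sum_le_sum fun i _ => hpt l hl i).trans ?_
  have e2 : ∀ l ∈ range n, ∑ i : Fin I, (|φ 0 i l| + E + (if D' ≤ (l : ℝ) ∧ (l : ℝ) + D' ≤ n then (0 : ℝ) else 1))
      = ∑ i : Fin I, |φ 0 i l| + I * E + I * (if D' ≤ (l : ℝ) ∧ (l : ℝ) + D' ≤ n then (0 : ℝ) else 1) := by
    intro l _
    rw [sum_add_distrib, sum_add_distrib, sum_const, sum_const, card_univ, Fintype.card_fin, nsmul_eq_mul, nsmul_eq_mul]
  rw [sum_congr rfl e2, sum_add_distrib, sum_add_distrib, sum_const, card_range, nsmul_eq_mul, ← mul_sum]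
  have h5 : ∑ l ∈ range n, (if D' ≤ (l : ℝ) ∧ (l : ℝ) + D' ≤ n then (0 : ℝ) else 1) ≤ 2 * D' + 2 := by
    refine le_trans (le_of_eq ?_) (card_edge (n := n) hD')
    rw [card_filter]
    push_cast
    apply sum_congr rfl
    intro l _
    split_ifs <;> rfl
  have h6 := mul_le_mul_of_nonneg_left h5 (show (0 : ℝ) ≤ I by positivity)
  have e3 : (n : ℝ) * (I * E) = n * I * E := by ring
  linarith

end Pool.Agent.Y965.SI
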