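import Pool.Agent.Y965.SI.Win
import Pool.Agent.W41.Dens

/-! The energy of `1_S - δ` on the odd integers, and the irregularity of invariant sets in short intervals. -/

set_option autoImplicit false

namespace Pool.Agent.Y965.SI

open Pool.Agent.H320R2.PD Pool.Agent.H499R2.ND Pool.Agent.H499R2.CO Pool.Agent.W41 Finset Filter Topology

open Classical in
/-- the indicator of `S` on the side `s` -/
noncomputable def ind (s : ℤ) (S : Set ℤ) (x : ℤ) : ℝ := if s * x ∈ S then 1 else 0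

theorem ind_01 (s : ℤ) (S : Set ℤ) (x : ℤ) : 0 ≤ ind s S x ∧ ind s S x ≤ 1 := by
  classical
  unfold ind; split_ifs <;> norm_num

theorem ind_compl (s : ℤ) (S : Set ℤ) (x : ℤ) : ind s Sᶜ x = 1 - ind s S x := by
  classical
  unfold ind
  by_cases h : s * x ∈ S
  · rw [if_pos h, if_neg (fun h' => h' h)]; ring
  · rw [if_neg h, if_pos (show s * x ∈ Sᶜ from h)]; ring

theorem ind_sq (s : ℤ) (S : Set ℤ) (x : ℤ) : ind s S x ^ 2 = ind s S x := by
  classical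
  unfold ind; split_ifs <;> norm_num

theorem Td_side {s : ℤ} (hs : s = 1 ∨ s = -1) (x : ℤ) : Td 1 (s * x) = s * Tz s x := by
  unfold Td Tz
  rcases hs with rfl | rfl <;> split_ifs <;> omega

theorem ind_inv {s : ℤ} (hs : s = 1 ∨ s = -1) {S : Set ℤ} (hS : Inv 1 S) (x : ℤ) : ind s S (Tz s x) = ind s S x := by
  classical
  unfold ind
  have h := hS (s * x)
  rw [Td_side hs] at h
  by_cases h1 : s * x ∈ S
  · rw [if_pos h1, if_pos (h.1 h1)]
  · rw [if_neg h1, if_neg (fun h2 => h1 (h.2 h2))]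

theorem AS_ind (s : ℤ) (S : Set ℤ) (N : ℕ) : AS (ind s S) 1 ((N : ℝ) + 1) = cF s S N := by
  classical
  unfold AS cF
  have e1 : ⌈(1 : ℝ)⌉ = 1 := Int.ceil_one
  have e2 : ⌈((N : ℝ) + 1)⌉ = (N : ℤ) + 1 := by
    have : ((N : ℝ) + 1) = (((N : ℤ) + 1 : ℤ) : ℝ) := by push_cast; ring
    rw [this, Int.ceil_intCast]
  rw [e1, e2, card_filter]
  push_cast
  unfold ind
  refine sum_bij' (fun x _ => x.toNat) (fun m _ => (m : ℤ)) ?_ ?_ ?_ ?_ ?_
  · intro x hx; rw [mem_Ico] at hx; rw [mem_Icc]; omega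
  · intro m hm; rw [mem_Icc] at hm; rw [mem_Ico]; omega
  · intro x hx; rw [mem_Ico] at hx; omega
  · intro m _; simp
  · intro x hx
    rw [mem_Ico] at hx
    have : ((x.toNat : ℕ) : ℤ) = x := by omega
    rw [this]

/-- real upper limit -/
theorem AS_ind_real {s : ℤ} {S : Set ℤ} {D ε : ℝ} (hD0 : 0 ≤ D) (hD1 : D ≤ 1) (hε : 0 ≤ ε) {N0 : ℕ}
    (hu : ∀ N : ℕ, N0 ≤ N → |(cF s S N : ℝ) - D * N| ≤ ε * N) {Y : ℝ} (hY : (N0 : ℝ) + 2 ≤ Y) :
    |AS (ind s S) 1 Y - D * Y| ≤ ε * Y + 1 := by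
  have hN0 : (0 : ℝ) ≤ N0 := Nat.cast_nonneg _
  obtain ⟨M, hM⟩ : ∃ M : ℕ, ⌈Y⌉ = (M : ℤ) + 1 := by
    have h1 : (1 : ℤ) < ⌈Y⌉ := by
      rw [Int.lt_ceil]; push_cast; linarith
    exact ⟨(⌈Y⌉ - 1).toNat, by omega⟩
  have e : AS (ind s S) 1 Y = cF s S M := by
    rw [← AS_ind]
    unfold AS
    have e2 : ⌈((M : ℝ) + 1)⌉ = (M : ℤ) + 1 := by
      have : ((M : ℝ) + 1) = (((M : ℤ) + 1 : ℤ) : ℝ) := by push_cast; ring
      rw [this, Int.ceil_intCast]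
    rw [hM, e2]
  have h1 : Y ≤ M + 1 := by
    have := Int.le_ceil Y
    rw [hM] at this
    push_cast at this
    exact this
  have h2 : (M : ℝ) < Y := by
    have := Int.ceil_lt_add_one Y
    rw [hM] at this
    push_cast at this
    linarith
  have h3 : N0 ≤ M := by
    have : (N0 : ℝ) ≤ M := by linarith
    exact_mod_cast this
  have h4 := hu M h3
  rw [e]
  have h5 : |D * M - D * Y| ≤ 1 := by
    rw [← mul_sub, abs_mul, abs_of_nonneg hD0]
    have : |(M : ℝ) - Y| ≤ 1 := by rw [abs_le]; constructor <;> linarith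
    calc D * |(M : ℝ) - Y| ≤ 1 * 1 := mul_le_mul hD1 this (abs_nonneg _) (by norm_num)
      _ = 1 := by norm_num
  have h6 := abs_sub_le (cF s S M : ℝ) (D * M) (D * Y)
  have h7 : ε * M ≤ ε * Y := mul_le_mul_of_nonneg_left h2.le hε
  linarith

theorem ind_two {s : ℤ} (hs : s = 1 ∨ s = -1) {S : Set ℤ} (hS : Inv 1 S) (y : ℤ) : ind s S (2 * y) = ind s S y := by
  rw [← ind_inv hs hS (2 * y)]
  congr 1
  unfold Tz
  rw [if_pos (by omega)]
  omega

/-- odd members of `S` in `[Y, 2Y)` -/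
theorem OS_ind {s : ℤ} (hs : s = 1 ∨ s = -1) {S : Set ℤ} (hS : Inv 1 S) {D ε : ℝ} (hD0 : 0 ≤ D) (hD1 : D ≤ 1)
    (hε : 0 ≤ ε) {N0 : ℕ} (hu : ∀ N : ℕ, N0 ≤ N → |(cF s S N : ℝ) - D * N| ≤ ε * N) {Y : ℝ}
    (hY : 2 * ((N0 : ℝ) + 2) ≤ Y) : D * Y / 2 - (9 / 2 * ε * Y + 4) ≤ OS (ind s S) Y (2 * Y) := by
  have hN0 : (0 : ℝ) ≤ N0 := Nat.cast_nonneg _
  rw [OS_AS (ind_two hs hS)]
  have e : 2 * Y / 2 = Y := by ring
  rw [e]
  have h1 := AS_ind_real hD0 hD1 hε hu (Y := Y / 2) (by linarith)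
  have h2 := AS_ind_real hD0 hD1 hε hu (Y := Y) (by linarith)
  have h3 := AS_ind_real hD0 hD1 hε hu (Y := 2 * Y) (by linarith)
  have h4 := AS_add (ind s S) (a := 1) (b := Y / 2) (c := Y) (by linarith) (by linarith)
  have h5 := AS_add (ind s S) (a := 1) (b := Y) (c := 2 * Y) (by linarith) (by linarith)
  rw [abs_le] at h1 h2 h3
  linarith [h1.1, h1.2, h2.1, h2.2, h3.1, h3.2]

/-- the energy -/
theorem energy_ind {s : ℤ} (hs : s = 1 ∨ s = -1) {δ₁ : ℝ} (hδ₁ : 0 < δ₁) :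
    ∃ Y0 : ℝ, ∀ S : Set ℤ, Inv 1 S → ∀ D : ℝ, HD s S D → δ₁ ≤ D → D ≤ 1 - δ₁ → ∀ δ Y : ℝ, Y0 ≤ Y →
      δ₁ / 4 * Y / 2 ≤ OS (fun x => (ind s S x - δ) ^ 2) Y (2 * Y) := by
  obtain ⟨N0, hN0⟩ := unif hs (show 0 < δ₁ / 36 by positivity)
  refine ⟨max (2 * ((N0 : ℝ) + 2)) (32 / δ₁), ?_⟩
  intro S hS D hD hD1 hD2 δ Y hY
  have hY1 : 2 * ((N0 : ℝ) + 2) ≤ Y := (le_max_left _ _).trans hY
  have hY2 : 32 / δ₁ ≤ Y := (le_max_right _ _).trans hY
  rw [div_le_iff₀ hδ₁] at hY2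
  obtain ⟨D', -, -, hD'⟩ := dens_side (d := 1) odd_one (by norm_num) hs hS.compl
  have hDD := HD_compl hD hD'
  have h1 := OS_ind hs hS (by linarith) (by linarith) (by positivity) (hN0 S hS D hD) hY1
  have h2 := OS_ind hs hS.compl (by linarith) (by linarith) (by positivity) (hN0 Sᶜ hS.compl D' hD') hY1
  have hYp : 0 ≤ Y := by
    have : (0 : ℝ) ≤ N0 := Nat.cast_nonneg _
    linarith
  have h3 : δ₁ * Y ≤ D * Y := mul_le_mul_of_nonneg_right hD1 hYp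
  have h4 : δ₁ * Y ≤ D' * Y := mul_le_mul_of_nonneg_right (by linarith) hYp
  have h5 : δ₁ * Y / 4 ≤ OS (ind s S) Y (2 * Y) := by linarith
  have h6 : δ₁ * Y / 4 ≤ OS (ind s Sᶜ) Y (2 * Y) := by linarith
  have e : OS (fun x => (ind s S x - δ) ^ 2) Y (2 * Y)
      = (1 - δ) ^ 2 * OS (ind s S) Y (2 * Y) + δ ^ 2 * OS (ind s Sᶜ) Y (2 * Y) := by
    unfold OS Pool.Agent.W41.FU.WS
    rw [mul_sum, mul_sum, ← sum_add_distrib]
    apply sum_congr rfl
    intro x _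
    rw [ind_compl]
    have := ind_sq s S x
    linear_combination this
  rw [e]
  have h7 := mul_le_mul_of_nonneg_left h5 (sq_nonneg (1 - δ))
  have h8 := mul_le_mul_of_nonneg_left h6 (sq_nonneg δ)
  have h9 : 1 / 2 * (δ₁ * Y / 4) ≤ ((1 - δ) ^ 2 + δ ^ 2) * (δ₁ * Y / 4) := by
    apply mul_le_mul_of_nonneg_right _ (by positivity)
    nlinarith [sq_nonneg (1 - 2 * δ)]
  linarith

/-- the window sum is closer to the clamped value -/
theorem clamp {t δ H : ℝ} (hH : 0 ≤ H) (ht0 : 0 ≤ t) (ht1 : t ≤ H) :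
    |t - max 0 (min δ 1) * H| ≤ |t - δ * H| := by
  rcases le_total δ 0 with h | h
  · rw [min_eq_left (by linarith), max_eq_left h, zero_mul, sub_zero, abs_of_nonneg ht0]
    have : δ * H ≤ 0 := mul_nonpos_of_nonpos_of_nonneg h hH
    rw [abs_of_nonneg (by linarith)]
    linarith
  · rcases le_total δ 1 with h1 | h1
    · rw [min_eq_left h1, max_eq_right h]
    · rw [min_eq_right h1, max_eq_right (by norm_num), one_mul, abs_of_nonpos (by linarith)]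
      have : 1 * H ≤ δ * H := mul_le_mul_of_nonneg_right h1 hH
      rw [abs_of_nonpos (by linarith)]
      linarith

/-- irregularity in short intervals, one side -/
theorem short {s : ℤ} (hs : s = 1 ∨ s = -1) {θ δ₁ : ℝ} (hθ0 : 0 < θ) (hθ1 : θ < 1) (hδ₁ : 0 < δ₁) :
    ∃ c : ℝ, 0 < c ∧ ∃ N₀ : ℕ, ∀ S : Set ℤ, Inv 1 S → ∀ D : ℝ, HD s S D → δ₁ ≤ D → D ≤ 1 - δ₁ →
      ∀ N : ℕ, N₀ ≤ N → ∀ H : ℕ, 1 ≤ H → (H : ℝ) ≤ (N : ℝ) ^ θ → ∀ δ : ℝ,
      c * Real.log N ≤ ∑ x ∈ (Ico (1 : ℤ) N).filter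
        (fun x : ℤ => c * H ≤ |∑ h ∈ Icc 1 H, ind s S (x + h) - δ * H|), 1 / (x : ℝ) := by
  rcases le_or_gt δ₁ (1 / 2) with hsmall | hlarge
  swap
  · refine ⟨1, one_pos, 0, fun S _ D _ h1 h2 => ?_⟩
    exfalso; linarith
  have hs1 : Odd s := by rcases hs with rfl | rfl <;> decide
  have hs3 : IsCoprime s 3 := by
    rcases hs with rfl | rfl
    · exact isCoprime_one_left
    · exact isCoprime_one_left.neg_left
  have hss : s * s = 1 := by rcases hs with rfl | rfl <;> norm_num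
  obtain ⟨c, hc, hev⟩ := mainW hs1 hs3 hss hθ0 hθ1 (show 0 < δ₁ / 4 by positivity) (by linarith)
  obtain ⟨Y0, hY0⟩ := energy_ind hs hδ₁
  have hlog : Tendsto (fun N : ℕ => (1 - θ) / 8 * Real.log N) atTop atTop :=
    (Real.tendsto_log_atTop.comp tendsto_natCast_atTop_atTop).const_mul_atTop (by linarith)
  obtain ⟨N₀, hN₀⟩ := (hev.and (hlog.eventually_ge_atTop (Real.log (max Y0 1)))).exists_forall_of_atTop
  refine ⟨c, hc, N₀, ?_⟩
  intro S hS D hD hD1 hD2 N hN H hH hHN δ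
  obtain ⟨h1, h2⟩ := hN₀ N hN
  set δ' : ℝ := max 0 (min δ 1) with hδ'
  have hδ'0 : 0 ≤ δ' := le_max_left _ _
  have hδ'1 : δ' ≤ 1 := max_le (by norm_num) (min_le_right _ _)
  have hf : InvF s (fun x => ind s S x - δ') := by
    refine ⟨fun x => ?_, fun x => ?_⟩
    · have := ind_01 s S x
      rw [abs_le]; constructor <;> linarith [this.1, this.2]
    · simp only
      rw [ind_inv hs hS]
  have h3 := h1 _ hf (by
    intro Y hYp hY1 _
    apply hY0 S hS D hD hD1 hD2 δ' Y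
    have h4 : Real.log (max Y0 1) ≤ Real.log Y := h2.trans hY1
    have h5 := (Real.log_le_log_iff (lt_of_lt_of_le one_pos (le_max_right Y0 1)) hYp).1 h4
    exact (le_max_left _ _).trans h5) H hH hHN
  refine h3.trans ?_
  apply sum_le_sum_of_subset_of_nonneg
  · intro x hx
    rw [mem_filter] at hx ⊢
    refine ⟨hx.1, hx.2.trans ?_⟩
    have e : ∑ h ∈ Icc 1 H, (ind s S (x + h) - δ') = ∑ h ∈ Icc 1 H, ind s S (x + h) - δ' * H := by
      rw [sum_sub_distrib, sum_const, Nat.card_Icc, nsmul_eq_mul, Nat.add_sub_cancel, mul_comm]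
    rw [e]
    apply clamp (Nat.cast_nonneg H)
    · exact sum_nonneg fun h _ => (ind_01 s S _).1
    · refine (sum_le_sum fun (h : ℕ) _ => (ind_01 s S (x + h)).2).trans ?_
      rw [sum_const, Nat.card_Icc]; simp
  · intro x hx _
    rw [mem_filter, mem_Ico] at hx
    have : (0 : ℝ) < x := by
      have : 0 < x := by omega
      exact_mod_cast this
    positivity

end Pool.Agent.Y965.SI
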