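import Pool.Agent.Y965.SI.Near

/-! The averages over short cells of an invariant function carry almost all of its energy. -/

set_option autoImplicit false

namespace Pool.Agent.Y965.SI

open Pool.Agent.H320R2.PD Pool.Agent.H499R2.ND Pool.Agent.H499R2.CO Pool.Agent.W41.FU Finset

theorem mem_odd {a b : ℝ} {x : ℤ} : x ∈ cls Set.univ a b 0 1 0 ↔ (a ≤ x ∧ (x : ℝ) < b) ∧ Odd x := by
  rw [mem_cls]
  simp

theorem odd_card_ge (a b : ℝ) : (b - a) / 2 - 1 ≤ ((cls Set.univ a b 0 1 0).card : ℝ) := by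
  have heq : cls Set.univ a b 0 1 0 = ap a b 2 1 := by
    ext x
    rw [mem_odd, mem_ap]
    have : Odd x ↔ (2 : ℤ) ∣ x - 1 := by
      constructor
      · rintro ⟨t, rfl⟩; exact ⟨t, by ring⟩
      · rintro ⟨t, ht⟩; exact ⟨t, by linarith⟩
    rw [this]
  rw [heq]
  have := le_ap_card a b (q := 2) (by norm_num) 1
  push_cast at this
  exact this

theorem OS_add (g : ℤ → ℝ) {a b c : ℝ} (h1 : a ≤ b) (h2 : b ≤ c) : OS g a b + OS g b c = OS g a c := by
  classical
  unfold OS WS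
  have hd : Disjoint (cls Set.univ a b 0 1 0) (cls Set.univ b c 0 1 0) := by
    rw [Finset.disjoint_left]
    intro x hx hy
    rw [mem_odd] at hx hy
    linarith [hx.1.2, hy.1.1]
  rw [← sum_union hd]
  apply sum_congr _ (fun _ _ => rfl)
  ext x
  rw [mem_union, mem_odd, mem_odd, mem_odd]
  constructor
  · rintro (⟨⟨h3, h4⟩, h5⟩ | ⟨⟨h3, h4⟩, h5⟩)
    · exact ⟨⟨h3, by linarith⟩, h5⟩
    · exact ⟨⟨by linarith, h4⟩, h5⟩
  · rintro ⟨⟨h3, h4⟩, h5⟩
    rcases lt_or_ge (x : ℝ) b with h6 | h6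
    · exact Or.inl ⟨⟨h3, h6⟩, h5⟩
    · exact Or.inr ⟨⟨h6, h4⟩, h5⟩

theorem OS_cells (g : ℤ → ℝ) (u : ℕ → ℝ) (hu : Monotone u) (m : ℕ) :
    ∑ i ∈ range m, OS g (u i) (u (i + 1)) = OS g (u 0) (u m) := by
  induction m with
  | zero =>
    simp only [range_zero, sum_empty]
    unfold OS WS
    have : cls Set.univ (u 0) (u 0) 0 1 0 = ∅ := by
      ext x
      rw [mem_odd]
      simp only [notMem_empty, iff_false]
      rintro ⟨⟨h1, h2⟩, -⟩
      linarith
    rw [this, sum_empty]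
  | succ m ih => rw [sum_range_succ, ih, OS_add g (hu (Nat.zero_le m)) (hu (Nat.le_succ m))]

/-- variation inside a cell -/
theorem cell_var {f : ℤ → ℝ} (hf : ∀ x, |f x| ≤ 1) {a b : ℝ} {N : ℕ} (hN : b - a ≤ 2 * N) :
    OS (fun x => f x ^ 2) a b * ((cls Set.univ a b 0 1 0).card : ℝ) - OS f a b ^ 2
      ≤ ∑ h ∈ Icc (-(N : ℤ)) N, OS (fun x => |f (x + 2 * h) - f x|) a b := by
  classical
  unfold OS WS
  set C := cls Set.univ a b 0 1 0 with hC
  have e1 : (∑ x ∈ C, f x ^ 2) * (C.card : ℝ) - (∑ x ∈ C, f x) ^ 2 = ∑ x ∈ C, ∑ y ∈ C, f x * (f x - f y) := by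
    have h1 : ∀ x ∈ C, ∑ y ∈ C, f x * (f x - f y) = f x ^ 2 * (C.card : ℝ) - f x * ∑ y ∈ C, f y := by
      intro x _
      rw [← mul_sum, sum_sub_distrib, sum_const, nsmul_eq_mul]
      ring
    rw [sum_congr rfl h1, sum_sub_distrib, ← sum_mul, ← sum_mul]
    ring
  rw [e1, sum_comm (s := Icc (-(N : ℤ)) N)]
  apply sum_le_sum
  intro x hx
  rw [hC, mem_odd] at hx
  calc ∑ y ∈ C, f x * (f x - f y) ≤ ∑ y ∈ C, |f y - f x| := by
        apply sum_le_sum
        intro y _
        have h1 := le_abs_self (f x * (f x - f y))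
        rw [abs_mul, abs_sub_comm] at h1
        exact h1.trans (mul_le_of_le_one_left (abs_nonneg _) (hf x))
    _ = ∑ h ∈ C.image (fun y => (y - x) / 2), |f (x + 2 * h) - f x| := by
        rw [sum_image]
        · apply sum_congr rfl
          intro y hy
          rw [hC, mem_odd] at hy
          have h1 : x + 2 * ((y - x) / 2) = y := by
            obtain ⟨s, hs⟩ := hx.2
            obtain ⟨t, ht⟩ := hy.2
            omega
          rw [h1]
        · intro y hy z hz hyz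
          rw [mem_coe, hC, mem_odd] at hy hz
          obtain ⟨s, hs⟩ := hx.2
          obtain ⟨t, ht⟩ := hy.2
          obtain ⟨r, hr⟩ := hz.2
          simp only at hyz
          omega
    _ ≤ ∑ h ∈ Icc (-(N : ℤ)) N, |f (x + 2 * h) - f x| := by
        apply sum_le_sum_of_subset_of_nonneg
        · intro h hh
          rw [mem_image] at hh
          obtain ⟨y, hy, rfl⟩ := hh
          rw [hC, mem_odd] at hy
          have h1 : (y : ℝ) - x < 2 * N := by linarith [hy.1.2, hx.1.1]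
          have h2 : (x : ℝ) - y < 2 * N := by linarith [hx.1.2, hy.1.1]
          have h3 : y - x < 2 * N := by exact_mod_cast h1
          have h4 : x - y < 2 * N := by exact_mod_cast h2
          rw [mem_Icc]
          constructor <;> omega
        · intro h _ _; exact abs_nonneg _

/-- the energy lemma -/
theorem energy {d : ℤ} (hd : Odd d) (hdd : d * d = 1) {ε : ℝ} (hε : 0 < ε) (hε1 : ε ≤ 1) :
    ∃ θ : ℝ, 0 < θ ∧ θ ≤ 1 ∧ ∃ L0 : ℝ, 10 ≤ L0 ∧ ∀ f : ℤ → ℝ, InvF d f → ∀ (Y : ℝ) (I : ℕ), 0 < Y → 1 ≤ I →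
      L0 ≤ Real.log (Y / I) → Real.log (Y / I) ≤ θ * Real.log Y →
      2 / Y * OS (fun x => f x ^ 2) Y (2 * Y) - ε
        ≤ 1 / (I : ℝ) * ∑ i ∈ range I, av f (Y * (I + i) / I) (Y * (I + (i + 1)) / I) ^ 2 := by
  have hd2 : d % 2 = 1 := Int.odd_iff.1 hd
  obtain ⟨θ, hθ, hθ1, kq, hkq⟩ := q_gen (show 0 < ε / 20 by positivity) (by linarith)
  refine ⟨θ / 4, by positivity, by linarith, max (max 10 (2 * kq)) (40 / ε), ?_, ?_⟩
  · exact (le_max_left _ _).trans (le_max_left _ _)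
  intro f hf Y I hY hI hL hLY
  have hL1 : 10 ≤ Real.log (Y / I) := ((le_max_left _ _).trans (le_max_left _ _)).trans hL
  have hL2 : 2 * (kq : ℝ) ≤ Real.log (Y / I) := ((le_max_right _ _).trans (le_max_left _ _)).trans hL
  have hL3 : 40 / ε ≤ Real.log (Y / I) := (le_max_right _ _).trans hL
  have hIR : (1 : ℝ) ≤ I := by exact_mod_cast hI
  have hI0 : (0 : ℝ) < I := by linarith
  set ℓ : ℝ := Y / I with hℓdef
  have hℓ : 0 < ℓ := by positivity
  set L := Real.log ℓ with hLdef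
  set Λ := Real.log Y with hΛ
  have hΛL : L ≤ Λ := by
    rw [hLdef, hΛ]
    apply Real.log_le_log hℓ
    rw [hℓdef, div_le_iff₀ hI0]
    exact le_mul_of_one_le_right hY.le hIR
  have hΛ10 : 10 ≤ Λ := hL1.trans hΛL
  obtain ⟨h1, h2, h3⟩ := kk_prop hY hΛ10
  set k := kk Y with hk
  set N : ℕ := ⌈ℓ / 2⌉₊ with hN
  have hN1 : ℓ / 2 ≤ N := Nat.le_ceil _
  have hN2 : (N : ℝ) < ℓ / 2 + 1 := Nat.ceil_lt_add_one (by positivity)
  -- coalescence
  have hQ : ∀ h : ℤ, h ∈ Icc (-(N : ℤ)) N → q step (0, 0) k (0, d * (2 * h)) ≤ ε / 20 := by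
    intro h hh
    rw [mem_Icc] at hh
    apply hkq k _ 0
    · have : (0 : ℝ) ≤ θ * k := by positivity
      simpa using this
    · push_cast
      rw [abs_mul, abs_d hdd, one_mul]
      have h4 : |(2 : ℝ) * h| ≤ 2 * N := by
        have h5 : (-(N : ℝ)) ≤ h := by exact_mod_cast hh.1
        have h6 : (h : ℝ) ≤ N := by exact_mod_cast hh.2
        rw [abs_le]; constructor <;> linarith
      have h5 : (2 : ℝ) * N ≤ 2 * ℓ := by
        have h6 : 2 ≤ ℓ := by
          have := Real.add_one_le_exp L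
          rw [hLdef, Real.exp_log hℓ] at this
          linarith
        linarith
      refine h4.trans (h5.trans ?_)
      -- 2 ℓ ≤ 2 ^ (θ k)
      have hl2 := Real.log_two_gt_d9
      have hl2' := Real.log_two_lt_d9
      have e1 : (2 : ℝ) ^ (θ * k) = Real.exp (Real.log 2 * (θ * k)) := by
        rw [Real.rpow_def_of_pos (by norm_num)]
      have e2 : 2 * ℓ = Real.exp (Real.log 2 + L) := by
        rw [Real.exp_add, Real.exp_log (by norm_num), hLdef, Real.exp_log hℓ]
      rw [e1, e2]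
      apply Real.exp_le_exp.2
      have h7 : θ * (Λ / 2) ≤ θ * k := mul_le_mul_of_nonneg_left h2 hθ.le
      have h8 : 2 * L ≤ θ * k := by linarith
      have h9 : 0.69 * (2 * L) ≤ Real.log 2 * (θ * k) := by
        apply mul_le_mul (by linarith) h8 (by linarith) (by linarith)
      linarith
    · have h5 : (kq : ℝ) ≤ k := by linarith
      exact_mod_cast h5
  -- cells
  set u : ℕ → ℝ := fun i => Y * (I + i) / I with hu
  have humono : Monotone u := by
    intro i j hij
    have : (i : ℝ) ≤ j := by exact_mod_cast hij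
    rw [hu]
    simp only
    apply div_le_div_of_nonneg_right _ hI0.le
    apply mul_le_mul_of_nonneg_left _ hY.le
    linarith
  have hustep : ∀ i : ℕ, u (i + 1) - u i = ℓ := by
    intro i
    rw [hu, hℓdef]
    simp only
    push_cast
    field_simp
    ring
  have hu0 : u 0 = Y := by
    rw [hu]; simp only; push_cast; field_simp; ring
  have huI : u I = 2 * Y := by
    rw [hu]; simp only; field_simp; ring
  set t : ℝ := ℓ / 2 with ht
  have ht0 : 0 < t := by positivity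
  have htε : 20 ≤ ε * t := by
    rw [div_le_iff₀ hε] at hL3
    have h5 : L + 1 ≤ ℓ := by
      have := Real.add_one_le_exp L
      rw [hLdef, Real.exp_log hℓ] at this
      linarith
    have h6 := mul_le_mul_of_nonneg_right h5 hε.le
    rw [ht]
    linarith only [h6, hL3, hε]
  have ht10 : 10 ≤ t := by
    have h6 : ε * t ≤ 1 * t := mul_le_mul_of_nonneg_right (by assumption) ht0.le
    linarith only [h6, htε]
  -- per cell
  have hcell : ∀ i ∈ range I, (t - 1) * OS (fun x => f x ^ 2) (u i) (u (i + 1))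
      - ∑ h ∈ Icc (-(N : ℤ)) N, OS (fun x => |f (x + 2 * h) - f x|) (u i) (u (i + 1))
      ≤ (t + 1) ^ 2 * av f (u i) (u (i + 1)) ^ 2 := by
    intro i _
    have h4 := cell_var hf.1 (a := u i) (b := u (i + 1)) (N := N) (by rw [hustep]; linarith)
    have h5 := odd_card_ge (u i) (u (i + 1))
    rw [hustep] at h5
    have h6 : 0 ≤ OS (fun x => f x ^ 2) (u i) (u (i + 1)) := by
      unfold OS WS
      exact sum_nonneg fun x _ => sq_nonneg _
    have h7 : (t - 1) * OS (fun x => f x ^ 2) (u i) (u (i + 1))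
        ≤ OS (fun x => f x ^ 2) (u i) (u (i + 1)) * ((cls Set.univ (u i) (u (i + 1)) 0 1 0).card : ℝ) := by
      rw [mul_comm]
      exact mul_le_mul_of_nonneg_left h5 h6
    have h8 : (t + 1) ^ 2 * av f (u i) (u (i + 1)) ^ 2 = OS f (u i) (u (i + 1)) ^ 2 := by
      have hden : ℓ / 2 + 1 = t + 1 := by rw [ht]
      unfold av
      rw [hustep, hden, div_pow, mul_div_cancel₀]
      positivity
    linarith
  have hsum := sum_le_sum hcell
  rw [sum_sub_distrib, ← mul_sum, ← mul_sum, OS_cells _ u humono, hu0, huI, sum_comm] at hsum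
  have hvar : ∑ h ∈ Icc (-(N : ℤ)) N, ∑ i ∈ range I, OS (fun x => |f (x + 2 * h) - f x|) (u i) (u (i + 1))
      ≤ (2 * t + 3) * (2 * (ε / 20) * (Y + Y / 100)) := by
    have h4 : ∀ h ∈ Icc (-(N : ℤ)) N, ∑ i ∈ range I, OS (fun x => |f (x + 2 * h) - f x|) (u i) (u (i + 1))
        ≤ 2 * (ε / 20) * (Y + Y / 100) := by
      intro h hh
      rw [OS_cells _ u humono, hu0, huI]
      have h5 := surv_sum hd2 (g := fun x => f (x + 2 * h)) (h := f) (fun x => hf.1 _) hf.1 (a := Y) (b := 2 * Y)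
        (by linarith) k (0, d * (2 * h)) (by
          intro x hx
          have h6 := hf.coal hd2 hx
          rw [← h6]
          congr 1
          have : d * (d * (2 * h)) = (d * d) * (2 * h) := by ring
          rw [this, hdd]; ring) (hQ h hh)
      have e : OS (fun x => |f (x + 2 * h) - f x|) Y (2 * Y) = ∑ x ∈ cls Set.univ Y (2 * Y) 0 1 0, |f (x + 2 * h) - f x| := rfl
      rw [e]
      refine h5.trans ?_
      apply mul_le_mul_of_nonneg_left _ (by positivity)
      linarith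
    refine (sum_le_sum h4).trans ?_
    rw [sum_const, nsmul_eq_mul]
    apply mul_le_mul_of_nonneg_right _ (by positivity)
    rw [Int.card_Icc]
    have h5 : ((N : ℤ) + 1 - -(N : ℤ)).toNat = 2 * N + 1 := by omega
    rw [h5]
    push_cast
    linarith
  have hS2 : OS (fun x => f x ^ 2) Y (2 * Y) ≤ Y / 2 + 1 := by
    have h4 := OS_abs (f := fun x => f x ^ 2) (fun x => by
      rw [abs_pow]; exact pow_le_one₀ (abs_nonneg _) (hf.1 x)) (a := Y) (b := 2 * Y) (by linarith)
    have h5 := le_abs_self (OS (fun x => f x ^ 2) Y (2 * Y))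
    linarith
  have hS20 : 0 ≤ OS (fun x => f x ^ 2) Y (2 * Y) := by
    unfold OS WS
    exact sum_nonneg fun x _ => sq_nonneg _
  have hY10 : 10 ≤ Y := by
    have h4 := Real.add_one_le_exp Λ
    rw [hΛ, Real.exp_log hY] at h4
    linarith
  set S2 := OS (fun x => f x ^ 2) Y (2 * Y) with hS2def
  have hcast : ∀ i : ℕ, Y * ((I : ℝ) + ((i : ℝ) + 1)) / I = u (i + 1) := by
    intro i; rw [hu]; simp only; push_cast; ring
  have hgoal : ∑ i ∈ range I, av f (Y * (I + i) / I) (Y * (I + (i + 1)) / I) ^ 2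
      = ∑ i ∈ range I, av f (u i) (u (i + 1)) ^ 2 := by
    apply sum_congr rfl
    intro i _
    rw [hcast]
  rw [hgoal]
  set Sv := ∑ i ∈ range I, av f (u i) (u (i + 1)) ^ 2 with hSv
  have hIt : 1 / (I : ℝ) = 2 * t / Y := by
    rw [ht, hℓdef]; field_simp
  rw [hIt]
  -- (t+1)^2 * (2t/Y * Sv) ≥ 2t/Y * ((t-1) S2 - ...)
  have hA : 2 * t / Y * ((t - 1) * S2 - (2 * t + 3) * (2 * (ε / 20) * (Y + Y / 100))) ≤ (t + 1) ^ 2 * (2 * t / Y * Sv) := by
    have h4 : (t - 1) * S2 - (2 * t + 3) * (2 * (ε / 20) * (Y + Y / 100)) ≤ (t + 1) ^ 2 * Sv := by linarith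
    have h5 := mul_le_mul_of_nonneg_left h4 (show 0 ≤ 2 * t / Y by positivity)
    linarith
  have hB : (t + 1) ^ 2 * (2 / Y * S2 - ε) ≤ 2 * t / Y * ((t - 1) * S2 - (2 * t + 3) * (2 * (ε / 20) * (Y + Y / 100))) := by
    have e1 : 2 * t / Y * ((t - 1) * S2 - (2 * t + 3) * (2 * (ε / 20) * (Y + Y / 100)))
        = (t + 1) ^ 2 * (2 / Y * S2) - (3 * t + 1) * (2 / Y * S2) - 2 * t * (2 * t + 3) * (ε / 10 * (101 / 100)) := by
      field_simp
      ring
    rw [e1]
    have h4 : 2 / Y * S2 ≤ 2 := by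
      rw [div_mul_eq_mul_div, div_le_iff₀ hY]
      linarith
    have h5 : 0 ≤ 2 / Y * S2 := by positivity
    have h6 : (3 * t + 1) * (2 / Y * S2) ≤ (3 * t + 1) * 2 := mul_le_mul_of_nonneg_left h4 (by positivity)
    have h7 : 2 * t * (2 * t + 3) * (ε / 10 * (101 / 100)) ≤ 4 * (t + 1) ^ 2 * (ε / 10 * (101 / 100)) := by
      apply mul_le_mul_of_nonneg_right _ (by positivity)
      have e3 : 4 * (t + 1) ^ 2 - 2 * t * (2 * t + 3) = 2 * t + 4 := by ring
      linarith only [e3, ht0]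
    have h8 : 20 * (t + 1) ≤ ε * (t + 1) ^ 2 := by
      have h9 : ε * (t + 1) ^ 2 = (ε * t) * (t + 1) + ε * (t + 1) := by ring
      have h10 : 20 * (t + 1) ≤ (ε * t) * (t + 1) := mul_le_mul_of_nonneg_right htε (by positivity)
      have h11 : 0 ≤ ε * (t + 1) := by positivity
      linarith
    have h12 : 4 * (t + 1) ^ 2 * (ε / 10 * (101 / 100)) = 101 / 250 * (ε * (t + 1) ^ 2) := by ring
    have h13 : (t + 1) ^ 2 * (2 / Y * S2 - ε) = (t + 1) ^ 2 * (2 / Y * S2) - ε * (t + 1) ^ 2 := by ring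
    rw [h12] at h7
    rw [h13]
    linarith
  have hC := hB.trans hA
  exact le_of_mul_le_mul_left hC (by positivity)

end Pool.Agent.Y965.SI
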