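import Pool.Agent.Y965.SI.Main

/-! From the odd integers of cells to windows of all integers, logarithmic density. -/

set_option autoImplicit false

namespace Pool.Agent.Y965.SI

open Pool.Agent.H320R2.PD Pool.Agent.H499R2.ND Pool.Agent.H499R2.CO Finset Filter Topology

/-- the sum of `f` over all integers of `[a, b)` -/
noncomputable def AS (f : ℤ → ℝ) (a b : ℝ) : ℝ := ∑ x ∈ Ico ⌈a⌉ ⌈b⌉, f x

theorem AS_add (g : ℤ → ℝ) {a b c : ℝ} (h1 : a ≤ b) (h2 : b ≤ c) : AS g a b + AS g b c = AS g a c := by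
  classical
  unfold AS
  have hd : Disjoint (Ico ⌈a⌉ ⌈b⌉) (Ico ⌈b⌉ ⌈c⌉) := by
    rw [Finset.disjoint_left]
    intro x hx hy
    rw [mem_Ico] at hx hy
    omega
  rw [← sum_union hd]
  apply sum_congr _ (fun _ _ => rfl)
  have e1 := Int.ceil_mono h1
  have e2 := Int.ceil_mono h2
  ext x
  rw [mem_union, mem_Ico, mem_Ico, mem_Ico]
  omega

theorem AS_cells (g : ℤ → ℝ) (u : ℕ → ℝ) (hu : Monotone u) (m : ℕ) :
    ∑ i ∈ range m, AS g (u i) (u (i + 1)) = AS g (u 0) (u m) := by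
  induction m with
  | zero => unfold AS; simp
  | succ m ih => rw [sum_range_succ, ih, AS_add g (hu (Nat.zero_le m)) (hu (Nat.le_succ m))]

theorem AS_mono {g h : ℤ → ℝ} {a b : ℝ} (hgh : ∀ x : ℤ, a ≤ x → (x : ℝ) < b → g x ≤ h x) : AS g a b ≤ AS h a b := by
  unfold AS
  apply sum_le_sum
  intro x hx
  rw [mem_win] at hx
  exact hgh x hx.1 hx.2

theorem AS_const_mul (c : ℝ) (g : ℤ → ℝ) (a b : ℝ) : AS (fun x => c * g x) a b = c * AS g a b := by
  unfold AS; rw [mul_sum]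

theorem AS_card {a b : ℝ} (hab : a ≤ b) : AS (fun _ => 1) a b ≤ (b - a) + 1 := by
  unfold AS
  rw [sum_const, nsmul_eq_mul, mul_one, Int.card_Ico]
  have h1 := Int.ceil_mono hab
  have h2 : (((⌈b⌉ - ⌈a⌉).toNat : ℕ) : ℝ) = (⌈b⌉ : ℝ) - ⌈a⌉ := by
    have : (((⌈b⌉ - ⌈a⌉).toNat : ℕ) : ℤ) = ⌈b⌉ - ⌈a⌉ := Int.toNat_of_nonneg (by omega)
    have h3 : ((((⌈b⌉ - ⌈a⌉).toNat : ℕ) : ℤ) : ℝ) = ((⌈b⌉ - ⌈a⌉ : ℤ) : ℝ) := by rw [this]
    push_cast at h3
    exact h3
  rw [h2]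
  have h3 := Int.ceil_lt_add_one b
  have h4 := Int.le_ceil a
  linarith

theorem f_two {d : ℤ} {f : ℤ → ℝ} (hf : InvF d f) (y : ℤ) : f (2 * y) = f y := by
  rw [← hf.2 (2 * y)]
  congr 1
  unfold Tz
  rw [if_pos (by omega)]
  omega

theorem OS_AS {f : ℤ → ℝ} (hf : ∀ y, f (2 * y) = f y) (a b : ℝ) : OS f a b = AS f a b - AS f (a / 2) (b / 2) := by
  classical
  have h1 : AS f a b = ∑ x ∈ (Ico ⌈a⌉ ⌈b⌉).filter (fun x => Odd x), f x + ∑ x ∈ (Ico ⌈a⌉ ⌈b⌉).filter (fun x => ¬ Odd x), f x := by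
    unfold AS
    rw [sum_filter_add_sum_filter_not]
  have h2 : OS f a b = ∑ x ∈ (Ico ⌈a⌉ ⌈b⌉).filter (fun x => Odd x), f x := by
    unfold OS Pool.Agent.W41.FU.WS
    apply sum_congr _ (fun _ _ => rfl)
    ext x
    rw [mem_odd, mem_filter, mem_win]
  have h3 : ∑ x ∈ (Ico ⌈a⌉ ⌈b⌉).filter (fun x => ¬ Odd x), f x = AS f (a / 2) (b / 2) := by
    unfold AS
    refine sum_bij' (fun x _ => x / 2) (fun y _ => 2 * y) ?_ ?_ ?_ ?_ ?_
    · intro x hx
      rw [mem_filter, mem_win, Int.not_odd_iff_even] at hx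
      obtain ⟨⟨h4, h5⟩, t, ht⟩ := hx
      have e : x / 2 = t := by omega
      have e2 : (x : ℝ) = t + t := by exact_mod_cast ht
      rw [e, mem_win]
      constructor <;> linarith
    · intro y hy
      rw [mem_win] at hy
      rw [mem_filter, mem_win, Int.not_odd_iff_even]
      push_cast
      exact ⟨⟨by linarith, by linarith⟩, ⟨y, by ring⟩⟩
    · intro x hx
      rw [mem_filter, Int.not_odd_iff_even] at hx
      obtain ⟨-, t, ht⟩ := hx
      omega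
    · intro y _
      omega
    · intro x hx
      rw [mem_filter, Int.not_odd_iff_even] at hx
      obtain ⟨-, t, ht⟩ := hx
      have e : x / 2 = t := by omega
      rw [e, ← hf t]
      congr 1
      omega
  rw [h1, h2, h3]; ring

/-- shift of a window -/
theorem AS_shift {f : ℤ → ℝ} (hf : ∀ x, |f x| ≤ 1) {a b : ℝ} (hab : a ≤ b) (h : ℕ) :
    |∑ x ∈ Ico ⌈a⌉ ⌈b⌉, f (x + h) - AS f a b| ≤ 2 * h := by
  induction h with
  | zero => unfold AS; simp
  | succ h ih =>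
    have e : ∑ x ∈ Ico ⌈a⌉ ⌈b⌉, f (x + ((h + 1 : ℕ) : ℤ)) - ∑ x ∈ Ico ⌈a⌉ ⌈b⌉, f (x + h)
        = f (⌈b⌉ + h) - f (⌈a⌉ + h) := by
      have h1 : ⌈a⌉ ≤ ⌈b⌉ := Int.ceil_mono hab
      have h2 : ∑ x ∈ Ico ⌈a⌉ ⌈b⌉, f (x + ((h + 1 : ℕ) : ℤ)) = ∑ x ∈ Ico (⌈a⌉ + 1) (⌈b⌉ + 1), f (x + h) := by
        refine sum_bij' (fun x _ => x + 1) (fun x _ => x - 1) ?_ ?_ ?_ ?_ ?_
        · intro x hx; rw [mem_Ico] at hx ⊢; omega
        · intro x hx; rw [mem_Ico] at hx ⊢; omega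
        · intro x _; ring
        · intro x _; ring
        · intro x _; congr 1; push_cast; ring
      rw [h2]
      have h3 : insert ⌈a⌉ (Ico (⌈a⌉ + 1) (⌈b⌉ + 1)) = insert ⌈b⌉ (Ico ⌈a⌉ ⌈b⌉) := by
        ext x
        rw [mem_insert, mem_insert, mem_Ico, mem_Ico]
        omega
      have h4 : ∑ x ∈ insert ⌈a⌉ (Ico (⌈a⌉ + 1) (⌈b⌉ + 1)), f (x + h) = ∑ x ∈ insert ⌈b⌉ (Ico ⌈a⌉ ⌈b⌉), f (x + h) := by rw [h3]
      rw [sum_insert (by rw [mem_Ico]; omega), sum_insert (by rw [mem_Ico]; omega)] at h4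
      linarith
    have h1 := hf (⌈b⌉ + h)
    have h2 := hf (⌈a⌉ + h)
    have h3 := abs_sub (f (⌈b⌉ + h)) (f (⌈a⌉ + h))
    have h4 := abs_sub_le (∑ x ∈ Ico ⌈a⌉ ⌈b⌉, f (x + ((h + 1 : ℕ) : ℤ))) (∑ x ∈ Ico ⌈a⌉ ⌈b⌉, f (x + h)) (AS f a b)
    rw [e] at h4
    push_cast at *
    linarith

theorem AS_window {f : ℤ → ℝ} (hf : ∀ x, |f x| ≤ 1) {a b : ℝ} (hab : a ≤ b) {H : ℕ} (hH : 1 ≤ H) :
    |AS f a b| ≤ AS (fun x => |∑ h ∈ Icc 1 H, f (x + h)| / H) a b + 2 * H := by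
  have hH0 : (0 : ℝ) < H := by exact_mod_cast hH
  have h1 : |(H : ℝ) * AS f a b - ∑ x ∈ Ico ⌈a⌉ ⌈b⌉, ∑ h ∈ Icc 1 H, f (x + h)| ≤ 2 * H * H := by
    rw [sum_comm]
    have e : (H : ℝ) * AS f a b - ∑ h ∈ Icc 1 H, ∑ x ∈ Ico ⌈a⌉ ⌈b⌉, f (x + h)
        = ∑ h ∈ Icc 1 H, (AS f a b - ∑ x ∈ Ico ⌈a⌉ ⌈b⌉, f (x + h)) := by
      rw [sum_sub_distrib, sum_const, Nat.card_Icc, nsmul_eq_mul]; simp
    rw [e]
    refine (abs_sum_le_sum_abs _ _).trans ?_
    calc ∑ h ∈ Icc 1 H, |AS f a b - ∑ x ∈ Ico ⌈a⌉ ⌈b⌉, f (x + h)| ≤ ∑ h ∈ Icc 1 H, (2 * (H : ℝ)) := by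
          apply sum_le_sum
          intro h hh
          rw [mem_Icc] at hh
          rw [abs_sub_comm]
          refine (AS_shift hf hab h).trans ?_
          have : (h : ℝ) ≤ H := by exact_mod_cast hh.2
          linarith
      _ = 2 * H * H := by rw [sum_const, Nat.card_Icc, nsmul_eq_mul]; simp; ring
  have h2 : |∑ x ∈ Ico ⌈a⌉ ⌈b⌉, ∑ h ∈ Icc 1 H, f (x + h)| ≤ H * AS (fun x => |∑ h ∈ Icc 1 H, f (x + h)| / H) a b := by
    unfold AS
    rw [mul_sum]
    refine (abs_sum_le_sum_abs _ _).trans (le_of_eq ?_)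
    apply sum_congr rfl
    intro x _
    field_simp
  have h3 : |(H : ℝ) * AS f a b| ≤ H * AS (fun x => |∑ h ∈ Icc 1 H, f (x + h)| / H) a b + 2 * H * H := by
    have := abs_sub_abs_le_abs_sub ((H : ℝ) * AS f a b) (∑ x ∈ Ico ⌈a⌉ ⌈b⌉, ∑ h ∈ Icc 1 H, f (x + h))
    linarith
  rw [abs_mul, abs_of_pos hH0] at h3
  have h4 : (H : ℝ) * |AS f a b| ≤ H * (AS (fun x => |∑ h ∈ Icc 1 H, f (x + h)| / H) a b + 2 * H) := by linarith
  exact le_of_mul_le_mul_left h4 hH0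

/-- dyadic blocks -/
theorem AS_levels (g : ℤ → ℝ) {A : ℝ} (hA : 0 < A) (n : ℕ) :
    ∑ l ∈ range (n + 1), AS g (A / 2 ^ l) (2 * A / 2 ^ l) = AS g (A / 2 ^ n) (2 * A) := by
  induction n with
  | zero => simp
  | succ n ih =>
    rw [sum_range_succ, ih, add_comm]
    have e : 2 * A / 2 ^ (n + 1) = A / 2 ^ n := by rw [pow_succ]; field_simp
    rw [e]
    apply AS_add
    · rw [div_le_div_iff₀ (by positivity) (by positivity), pow_succ]
      have : 0 < A * 2 ^ n := by positivity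
      linarith
    · rw [div_le_iff₀ (by positivity)]
      have : (1 : ℝ) ≤ 2 ^ n := one_le_pow₀ (by norm_num)
      nlinarith

/-- the comparison: `L¹` mass of the averages over the odd integers of cells and windows of all integers -/
theorem cells_windows {d : ℤ} {f : ℤ → ℝ} (hf : InvF d f) {A : ℝ} (hA : 0 < A) {I n H : ℕ} (hI : 1 ≤ I) (hH : 1 ≤ H) :
    ∑ l ∈ range n, ∑ i ∈ range I, |av f (A * (I + i) / I / 2 ^ l) (A * (I + (i + 1)) / I / 2 ^ l)|
      ≤ 6 * I * AS (fun x => |∑ h ∈ Icc 1 H, f (x + h)| / H * (1 / (x : ℝ))) (A / 2 ^ n) (2 * A)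
        + 12 * H * I * I * 2 ^ n / A := by
  have hI0 : (0 : ℝ) < I := by exact_mod_cast hI
  have hH0 : (0 : ℝ) < H := by exact_mod_cast hH
  set u : ℕ → ℕ → ℝ := fun l i => A * (I + i) / I / 2 ^ l with hu
  have hu1 : ∀ l i : ℕ, A * (I + ((i : ℝ) + 1)) / I / 2 ^ l = u l (i + 1) := by
    intro l i; rw [hu]; simp only; push_cast; ring
  have humono : ∀ l, Monotone (u l) := by
    intro l i j hij
    have : (i : ℝ) ≤ j := by exact_mod_cast hij
    rw [hu]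
    simp only
    apply div_le_div_of_nonneg_right _ (by positivity)
    apply div_le_div_of_nonneg_right _ hI0.le
    apply mul_le_mul_of_nonneg_left _ hA.le
    linarith
  have hu0 : ∀ l, u l 0 = A / 2 ^ l := by
    intro l; rw [hu]; simp only; push_cast; field_simp; ring
  have huI : ∀ l, u l I = 2 * A / 2 ^ l := by
    intro l; rw [hu]; simp only; field_simp; ring
  have hstep : ∀ l i, u l (i + 1) - u l i = A / I / 2 ^ l := by
    intro l i
    rw [hu]; simp only; push_cast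
    field_simp
    ring
  have hhalf : ∀ l i, u l i / 2 = u (l + 1) i := by
    intro l i; rw [hu]; simp only; rw [pow_succ]; field_simp
  set S : ℕ → ℕ → ℝ := fun l i => |AS f (u l i) (u l (i + 1))| with hS
  set c : ℕ → ℝ := fun l => I * 2 ^ l / A with hc
  have hc0 : ∀ l, 0 ≤ c l := fun l => by rw [hc]; positivity
  -- one cell
  have h1 : ∀ l i, |av f (u l i) (u l (i + 1))| ≤ 2 * (c l * S l i) + c (l + 1) * S (l + 1) i := by
    intro l i
    unfold av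
    rw [OS_AS (f_two hf), hstep, hhalf, hhalf]
    set x := AS f (u l i) (u l (i + 1)) with hx
    set y := AS f (u (l + 1) i) (u (l + 1) (i + 1)) with hy
    have hden : 0 < A / I / 2 ^ l / 2 + 1 := by positivity
    rw [abs_div, abs_of_pos hden, div_le_iff₀ hden]
    have e1 : 2 * (c l * S l i) + c (l + 1) * S (l + 1) i = (|x| + |y|) * (2 * I * 2 ^ l / A) := by
      rw [hS, hc]; simp only; rw [pow_succ]; ring
    rw [e1]
    have e2 : (|x| + |y|) * (2 * I * 2 ^ l / A) * (A / I / 2 ^ l / 2 + 1)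
        = (|x| + |y|) + (|x| + |y|) * (2 * I * 2 ^ l / A) := by
      field_simp
    rw [e2]
    have h2 := abs_sub x y
    have h3 : 0 ≤ (|x| + |y|) * (2 * I * 2 ^ l / A) := by positivity
    linarith
  -- sum over the levels
  have h2 : ∑ l ∈ range n, ∑ i ∈ range I, |av f (A * (I + i) / I / 2 ^ l) (A * (I + (i + 1)) / I / 2 ^ l)|
      ≤ 3 * ∑ l ∈ range (n + 1), ∑ i ∈ range I, c l * S l i := by
    have h3 : ∀ l ∈ range n, ∑ i ∈ range I, |av f (A * (I + i) / I / 2 ^ l) (A * (I + (i + 1)) / I / 2 ^ l)|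
        ≤ 2 * ∑ i ∈ range I, c l * S l i + ∑ i ∈ range I, c (l + 1) * S (l + 1) i := by
      intro l _
      rw [mul_sum, ← sum_add_distrib]
      apply sum_le_sum
      intro i _
      rw [hu1]
      exact h1 l i
    refine (sum_le_sum h3).trans ?_
    rw [sum_add_distrib, ← mul_sum]
    have h4 : ∑ l ∈ range n, ∑ i ∈ range I, c l * S l i ≤ ∑ l ∈ range (n + 1), ∑ i ∈ range I, c l * S l i := by
      rw [sum_range_succ]
      have : 0 ≤ ∑ i ∈ range I, c n * S n i := sum_nonneg fun i _ => mul_nonneg (hc0 n) (abs_nonneg _)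
      linarith
    have h5 : ∑ l ∈ range n, ∑ i ∈ range I, c (l + 1) * S (l + 1) i ≤ ∑ l ∈ range (n + 1), ∑ i ∈ range I, c l * S l i := by
      rw [sum_range_succ' (fun l => ∑ i ∈ range I, c l * S l i)]
      have : 0 ≤ ∑ i ∈ range I, c 0 * S 0 i := sum_nonneg fun i _ => mul_nonneg (hc0 0) (abs_nonneg _)
      linarith
    linarith
  refine h2.trans ?_
  -- one level
  set G : ℤ → ℝ := fun x => |∑ h ∈ Icc 1 H, f (x + h)| / H with hG
  have hG0 : ∀ x, 0 ≤ G x := fun x => by rw [hG]; positivity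
  have h3 : ∀ l ∈ range (n + 1), ∑ i ∈ range I, c l * S l i
      ≤ 2 * I * AS (fun x => G x * (1 / (x : ℝ))) (A / 2 ^ l) (2 * A / 2 ^ l) + 2 * H * I * c l := by
    intro l hl
    rw [mem_range] at hl
    have h4 : ∑ i ∈ range I, c l * S l i ≤ ∑ i ∈ range I, c l * (AS G (u l i) (u l (i + 1)) + 2 * H) := by
      apply sum_le_sum
      intro i _
      apply mul_le_mul_of_nonneg_left _ (hc0 l)
      exact AS_window hf.1 ((humono l) (Nat.le_succ i)) hH
    refine h4.trans ?_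
    rw [← mul_sum, sum_add_distrib, AS_cells _ _ (humono l), hu0, huI, sum_const, card_range, nsmul_eq_mul, mul_add,
      ← AS_const_mul, ← AS_const_mul]
    have h5 : AS (fun x => c l * G x) (A / 2 ^ l) (2 * A / 2 ^ l)
        ≤ AS (fun x => 2 * I * (G x * (1 / (x : ℝ)))) (A / 2 ^ l) (2 * A / 2 ^ l) := by
      apply AS_mono
      intro x hx1 hx2
      have hx0 : (0 : ℝ) < x := lt_of_lt_of_le (by positivity) hx1
      have h6 : c l ≤ 2 * I * (1 / (x : ℝ)) := by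
        rw [hc]
        simp only
        rw [mul_one_div, div_le_div_iff₀ hA hx0]
        rw [lt_div_iff₀ (by positivity)] at hx2
        have : I * ((x : ℝ) * 2 ^ l) ≤ I * (2 * A) := mul_le_mul_of_nonneg_left hx2.le hI0.le
        linarith
      have := mul_le_mul_of_nonneg_right h6 (hG0 x)
      linarith
    have e : c l * ((I : ℝ) * (2 * H)) = 2 * H * I * c l := by ring
    linarith
  have h4 := sum_le_sum h3
  rw [sum_add_distrib, ← mul_sum, AS_levels _ hA, ← mul_sum] at h4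
  have h5 : ∑ l ∈ range (n + 1), c l ≤ 2 * (I * 2 ^ n / A) := by
    rw [hc]
    have e : ∀ m : ℕ, ∑ l ∈ range (m + 1), (I * 2 ^ l / A : ℝ) = 2 * (I * 2 ^ m / A) - I / A := by
      intro m
      induction m with
      | zero => simp; ring
      | succ m ih => rw [sum_range_succ, ih, pow_succ]; ring
    rw [e]
    have : 0 < (I : ℝ) / A := by positivity
    linarith
  have h6 := mul_le_mul_of_nonneg_left h5 (show 0 ≤ 2 * (H : ℝ) * I by positivity)
  have e7 : 12 * (H : ℝ) * I * I * 2 ^ n / A = 3 * (2 * H * I * (2 * (I * 2 ^ n / A))) := by ring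
  rw [e7]
  linarith

end Pool.Agent.Y965.SI
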