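import Pool.Agent.H499R2.NDErr

/-! Elementary inequalities between the parameters. -/

set_option autoImplicit false

namespace Pool.Agent.Y965.SI

open Pool.Agent.H320R2.PD Pool.Agent.H499R2.ND Finset Filter Topology

theorem exp_le_one_sub {x : ℝ} (h0 : 0 ≤ x) (h1 : x ≤ 1 / 2) : Real.exp (-(2 * x)) ≤ 1 - x := by
  have h2 := Real.add_one_le_exp (2 * x)
  rw [Real.exp_neg, inv_eq_one_div, div_le_iff₀ (Real.exp_pos _)]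
  have h3 : (1 - x) * (2 * x + 1) ≤ (1 - x) * Real.exp (2 * x) := mul_le_mul_of_nonneg_left h2 (by linarith)
  nlinarith

theorem log43 : 0.27 ≤ 2 * Real.log 2 - Real.log 3 ∧ 2 * Real.log 2 - Real.log 3 ≤ 0.3 := by
  have h1 := Real.log_two_gt_d9
  have h2 := Real.log_two_lt_d9
  have h3 := log3_le
  have h4 := log3_ge
  constructor <;> linarith

/-- the length parameters -/
theorem log_len {x : ℝ} (hx : 0 < x) (p m : ℕ) :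
    Real.log (x * 3 ^ p / 2 ^ m) = Real.log x + p * Real.log 3 - m * Real.log 2 := by
  rw [Real.log_div (by positivity) (by positivity), Real.log_mul (by positivity) (by positivity),
    Real.log_pow, Real.log_pow]


/-- choice of `k` and `J` -/
theorem params_kJ {τ θ' Λ ℒ γ : ℝ} (hγ1 : 0.27 ≤ γ) (hγ2 : γ ≤ 0.3) (hτ0 : 0 < τ) (hτ2 : τ ≤ θ' / 2) (hΛ0 : 0 < Λ)
    (hτΛ : 80 ≤ τ * Λ) (hb1 : θ' * Λ ≤ ℒ) (hb2 : ℒ ≤ 2 * Λ) {k J : ℕ} (hk : k = ⌊τ * Λ / 40⌋₊)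
    (hJ : J = ⌊(ℒ - τ * Λ) / (γ * k)⌋₊) :
    (k : ℝ) ≤ τ * Λ / 40 ∧ τ * Λ / 80 ≤ k ∧ τ * Λ ≤ ℒ - J * k * γ ∧ ℒ - J * k * γ ≤ 2 * (τ * Λ) ∧
      (J : ℝ) * k ≤ 8 * Λ ∧ (J : ℝ) ≤ 600 / τ := by
  have hγ0 : 0 < γ := by linarith
  have hk1 : (k : ℝ) ≤ τ * Λ / 40 := by rw [hk]; exact Nat.floor_le (by positivity)
  have hk2 : τ * Λ / 80 ≤ k := by
    have := Nat.lt_floor_add_one (τ * Λ / 40)
    rw [hk]; linarith
  have hkpos : (0 : ℝ) < k := by linarith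
  have hτΛ2 : τ * Λ ≤ θ' / 2 * Λ := mul_le_mul_of_nonneg_right hτ2 hΛ0.le
  have hnum0 : 0 ≤ ℒ - τ * Λ := by linarith
  have hJ1 : (J : ℝ) * (γ * k) ≤ ℒ - τ * Λ := by
    have := Nat.floor_le (a := (ℒ - τ * Λ) / (γ * k)) (by positivity)
    rwa [← hJ, le_div_iff₀ (by positivity)] at this
  have hJ2 : ℒ - τ * Λ < ((J : ℝ) + 1) * (γ * k) := by
    have := Nat.lt_floor_add_one ((ℒ - τ * Λ) / (γ * k))
    rwa [← hJ, div_lt_iff₀ (by positivity)] at this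
  have hJ0 : (0 : ℝ) ≤ J := Nat.cast_nonneg J
  have h27 : (J : ℝ) * k * 0.27 ≤ J * k * γ := mul_le_mul_of_nonneg_left hγ1 (by positivity)
  have hγk : γ * k ≤ 0.3 * k := mul_le_mul_of_nonneg_right hγ2 hkpos.le
  refine ⟨hk1, hk2, by linarith, by linarith, by linarith, ?_⟩
  rw [le_div_iff₀ hτ0]
  have h1 : (J : ℝ) * (τ * Λ / 80) ≤ J * k := mul_le_mul_of_nonneg_left hk2 hJ0
  have h4 : (J : ℝ) * τ * Λ ≤ 600 * Λ := by
    have e : (J : ℝ) * τ * Λ = 80 * (J * (τ * Λ / 80)) := by ring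
    rw [e]
    linarith
  exact le_of_mul_le_mul_right h4 hΛ0

/-- choice of `n` and `M` -/
theorem params_nM {τ θn ν Λ : ℝ} (hτ0 : 0 < τ) (hθn : 0 < θn) (hν : ν = τ / 8) (hΛ0 : 0 < Λ)
    (hνΛ : 2 ≤ ν * Λ) (hθτΛ : 8 ≤ θn * τ * Λ) (hl4 : 8 * θn * τ ≤ Λ * ν ^ 2) {n M : ℕ} (hn : n = ⌊ν * Λ⌋₊)
    (hM : M = ⌊√ (θn * τ * Λ / 2)⌋₊) :
    (n : ℝ) ≤ ν * Λ ∧ ν * Λ / 2 ≤ n ∧ 1 ≤ M ∧ θn * τ * Λ / 8 ≤ (M : ℝ) ^ 2 ∧ (M : ℝ) ^ 2 ≤ θn * τ * Λ / 2 ∧ 2 * M ≤ n := by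
  have hνpos : 0 < ν := by rw [hν]; positivity
  have hn1 : (n : ℝ) ≤ ν * Λ := by rw [hn]; exact Nat.floor_le (by positivity)
  have hn2 : ν * Λ / 2 ≤ n := by
    rw [hn]; linarith [Nat.lt_floor_add_one (ν * Λ)]
  set r : ℝ := √ (θn * τ * Λ / 2) with hr
  have hr2 : r ^ 2 = θn * τ * Λ / 2 := Real.sq_sqrt (by positivity)
  have hr0 : 0 ≤ r := Real.sqrt_nonneg _
  have hr2' : 2 ≤ r := by
    apply Real.le_sqrt_of_sq_le
    linarith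
  have hM1 : (M : ℝ) ≤ r := by rw [hM]; exact Nat.floor_le hr0
  have hM2 : r / 2 ≤ M := by rw [hM]; linarith [Nat.lt_floor_add_one r]
  have hMR : (1 : ℝ) ≤ M := by linarith
  refine ⟨hn1, hn2, by exact_mod_cast hMR, ?_, ?_, ?_⟩
  · have h1 : (r / 2) ^ 2 ≤ (M : ℝ) ^ 2 := pow_le_pow_left₀ (by positivity) hM2 2
    have h2 : (r / 2) ^ 2 = θn * τ * Λ / 8 := by rw [div_pow, hr2]; ring
    linarith
  · rw [← hr2]; exact pow_le_pow_left₀ (by positivity) hM1 2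
  · have h1 : r ≤ ν * Λ / 4 := by
      apply le_of_sq_le_sq _ (by positivity)
      rw [hr2]
      have h3 : 8 * θn * τ * Λ ≤ Λ * ν ^ 2 * Λ := mul_le_mul_of_nonneg_right hl4 hΛ0.le
      have e : (ν * Λ / 4) ^ 2 = Λ * ν ^ 2 * Λ / 16 := by ring
      rw [e]; linarith
    have h2 : (2 : ℝ) * M ≤ n := by linarith
    exact_mod_cast h2

/-- the spectral constant -/
theorem params_x {e0 θn τ Λ J0 : ℝ} (he0 : 0 < e0) (hθn : 0 < θn) (hτ0 : 0 < τ) {k J M : ℕ} (hk1 : 1 ≤ k)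
    (hJk : (J : ℝ) * k ≤ 8 * Λ) (hJ0 : (J : ℝ) ≤ J0) (hM1 : 1 ≤ M) (hM2 : θn * τ * Λ / 8 ≤ (M : ℝ) ^ 2)
    (hl9 : 2048 ≤ Λ * (θn * τ * e0)) {x : ℝ} (hx : x = 2 * (1 / 2 : ℝ) ^ (3 * k) + 8 / ((M : ℝ) ^ 2 * (e0 / 2 / 4))) :
    0 ≤ x ∧ x ≤ 1 / 2 ∧ 2 * x * (J * k) ≤ 2 * (2 * J0 + 4096 / (θn * τ * e0)) := by
  have hkpos : (0 : ℝ) < k := by exact_mod_cast hk1
  have hM0 : (0 : ℝ) < M := by exact_mod_cast hM1
  have hMpos : (0 : ℝ) < (M : ℝ) ^ 2 := by positivity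
  have hx1 : 2 * (1 / 2 : ℝ) ^ (3 * k) ≤ 1 / 4 := by
    have g1 : (1 / 2 : ℝ) ^ (3 * k) ≤ (1 / 2) ^ 3 := pow_le_pow_of_le_one (by norm_num) (by norm_num) (by omega)
    norm_num at g1 ⊢
    linarith
  have hx2 : 8 / ((M : ℝ) ^ 2 * (e0 / 2 / 4)) ≤ 1 / 4 := by
    rw [div_le_iff₀ (by positivity)]
    have g1 := mul_le_mul_of_nonneg_right hM2 he0.le
    linarith
  refine ⟨by rw [hx]; positivity, by rw [hx]; linarith, ?_⟩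
  have g1 : 2 * (1 / 2 : ℝ) ^ (3 * k) * (J * k) ≤ 2 * J0 := by
    have g2 : (1 / 2 : ℝ) ^ (3 * k) * k ≤ 1 := by
      have g3 : (k : ℝ) ≤ 2 ^ k := by exact_mod_cast Nat.lt_two_pow_self.le
      have g4 : (1 / 2 : ℝ) ^ (3 * k) ≤ (1 / 2) ^ k := pow_le_pow_of_le_one (by norm_num) (by norm_num) (by omega)
      calc (1 / 2 : ℝ) ^ (3 * k) * k ≤ (1 / 2) ^ k * 2 ^ k := mul_le_mul g4 g3 hkpos.le (by positivity)
        _ = 1 := by rw [← mul_pow]; norm_num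
    calc 2 * (1 / 2 : ℝ) ^ (3 * k) * (J * k) = 2 * J * ((1 / 2 : ℝ) ^ (3 * k) * k) := by ring
      _ ≤ 2 * J * 1 := mul_le_mul_of_nonneg_left g2 (by positivity)
      _ ≤ 2 * J0 := by linarith
  have g2 : 8 / ((M : ℝ) ^ 2 * (e0 / 2 / 4)) * (J * k) ≤ 4096 / (θn * τ * e0) := by
    rw [div_mul_eq_mul_div, div_le_div_iff₀ (by positivity) (by positivity)]
    have g3 : 8 * ((J : ℝ) * k) * (θn * τ * e0) ≤ 8 * (8 * Λ) * (θn * τ * e0) := by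
      apply mul_le_mul_of_nonneg_right _ (by positivity)
      linarith
    have g4 : 8 * (8 * Λ) * (θn * τ * e0) = 512 * e0 * (θn * τ * Λ / 8) := by ring
    have g5 : 512 * e0 * (θn * τ * Λ / 8) ≤ 512 * e0 * (M : ℝ) ^ 2 := mul_le_mul_of_nonneg_left hM2 (by positivity)
    have g6 : 4096 * ((M : ℝ) ^ 2 * (e0 / 2 / 4)) = 512 * e0 * (M : ℝ) ^ 2 := by ring
    linarith
  have e : 2 * x * ((J : ℝ) * k) = 2 * (2 * (1 / 2 : ℝ) ^ (3 * k) * (J * k) + 8 / ((M : ℝ) ^ 2 * (e0 / 2 / 4)) * (J * k)) := by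
    rw [hx]; ring
  rw [e]
  linarith

/-- the errors at the end -/
theorem params_err {c2 J0 ν Λ η : ℝ} (hc20 : 0 < c2) (hJ0 : 0 < J0) (hν : 0 < ν) (hΛ0 : 0 < Λ) (hη : η = c2 / 16) {J k n : ℕ}
    (hJJ0 : (J : ℝ) ≤ J0) (hJk : (J : ℝ) * k ≤ 8 * Λ) (hn2 : ν * Λ / 2 ≤ n) (hl10 : 1024 * J0 ≤ Λ * (ν ^ 2 * c2))
    (hl11 : 4096 ≤ Λ * (η ^ 2 * ν ^ 2 * c2)) (hl12 : 32 ≤ Λ * (ν * c2)) :
    (J : ℝ) * (c2 / (32 * J0) + 4 * (J * k) / (ν * Λ) ^ 2) + 4 * (J * k) / (η * n) ^ 2 ≤ 3 * c2 / 32 ∧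
      2 * (η * n) + 2 ≤ c2 / 4 * n := by
  have hη0 : 0 < η := by rw [hη]; positivity
  have hn0 : (0 : ℝ) < n := lt_of_lt_of_le (by positivity) hn2
  have hE1 : (J : ℝ) * (c2 / (32 * J0) + 4 * (J * k) / (ν * Λ) ^ 2) ≤ c2 / 16 := by
    have g1 : (J : ℝ) * (c2 / (32 * J0)) ≤ c2 / 32 := by
      calc (J : ℝ) * (c2 / (32 * J0)) ≤ J0 * (c2 / (32 * J0)) := mul_le_mul_of_nonneg_right hJJ0 (by positivity)
        _ = c2 / 32 := by field_simp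
    have g2 : (J : ℝ) * (4 * (J * k) / (ν * Λ) ^ 2) ≤ c2 / 32 := by
      have g3 : 4 * ((J : ℝ) * k) / (ν * Λ) ^ 2 ≤ 32 / (ν ^ 2 * Λ) := by
        rw [div_le_div_iff₀ (by positivity) (by positivity)]
        have g6 : 4 * ((J : ℝ) * k) * (ν ^ 2 * Λ) ≤ 4 * (8 * Λ) * (ν ^ 2 * Λ) := by
          apply mul_le_mul_of_nonneg_right _ (by positivity)
          linarith
        have e : 4 * (8 * Λ) * (ν ^ 2 * Λ) = 32 * (ν * Λ) ^ 2 := by ring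
        linarith
      have g4 : (J : ℝ) * (4 * (J * k) / (ν * Λ) ^ 2) ≤ J0 * (32 / (ν ^ 2 * Λ)) :=
        mul_le_mul hJJ0 g3 (by positivity) (by positivity)
      have g5 : J0 * (32 / (ν ^ 2 * Λ)) ≤ c2 / 32 := by
        rw [← mul_div_assoc, div_le_div_iff₀ (by positivity) (by norm_num)]
        linarith
      linarith
    rw [mul_add]; linarith
  have hE2 : 4 * ((J : ℝ) * k) / (η * n) ^ 2 ≤ c2 / 32 := by
    rw [div_le_div_iff₀ (by positivity) (by norm_num)]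
    have g1 : (ν * Λ / 2) ^ 2 ≤ (n : ℝ) ^ 2 := pow_le_pow_left₀ (by positivity) hn2 2
    have g2 : 4 * ((J : ℝ) * k) * 32 ≤ 1024 * Λ := by linarith
    have g3 : c2 * (η ^ 2 * (ν * Λ / 2) ^ 2) ≤ c2 * (η * n) ^ 2 := by
      apply mul_le_mul_of_nonneg_left _ hc20.le
      rw [mul_pow]
      exact mul_le_mul_of_nonneg_left g1 (by positivity)
    have g4 : 1024 * Λ ≤ c2 * (η ^ 2 * (ν * Λ / 2) ^ 2) := by
      have e : c2 * (η ^ 2 * (ν * Λ / 2) ^ 2) = (Λ * (η ^ 2 * ν ^ 2 * c2)) * Λ / 4 := by ring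
      rw [e]
      have := mul_le_mul_of_nonneg_right hl11 hΛ0.le
      linarith
    linarith
  have g1 : 2 ≤ c2 / 8 * n := by
    have := mul_le_mul_of_nonneg_left hn2 (show 0 ≤ c2 / 8 by positivity)
    linarith
  refine ⟨by linarith, ?_⟩
  rw [hη]; linarith

end Pool.Agent.Y965.SI
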