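import Pool.Agent.Y965.SI.Core
import Pool.Agent.Y965.SI.Energy
import Pool.Agent.Y965.SI.Par

/-! The `L¹` lower bound for the averages over short intervals at the top. -/

set_option autoImplicit false

namespace Pool.Agent.Y965.SI

open Pool.Agent.H320R2.PD Pool.Agent.H499R2.ND Finset Filter Topology

theorem main {d : ℤ} (hd : Odd d) (hd3 : IsCoprime d 3) (hdd : d * d = 1) {θ' e0 ν0 : ℝ} (hθ0 : 0 < θ')
    (hθ1 : θ' < 1) (he0 : 0 < e0) (he1 : e0 ≤ 1) (hν0 : 0 < ν0) :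
    ∃ ν c : ℝ, 0 < ν ∧ ν ≤ ν0 ∧ 0 < c ∧ ∀ᶠ A : ℝ in atTop, ∀ f : ℤ → ℝ, InvF d f →
      (∀ Y : ℝ, 0 < Y → (1 - θ') / 2 * Real.log A ≤ Real.log Y → Y ≤ A →
        e0 * Y / 2 ≤ OS (fun x => f x ^ 2) Y (2 * Y)) →
      ∀ I n : ℕ, I = ⌊A ^ (1 - θ')⌋₊ → n = ⌊ν * Real.log A⌋₊ →
      c * (n * I) ≤ ∑ l ∈ range n, ∑ i ∈ range I, |av f (A * (I + i) / I / 2 ^ l) (A * (I + (i + 1)) / I / 2 ^ l)| := by
  obtain ⟨θe, hθe, hθe1, Le, hLe, hen⟩ := energy hd hdd (show 0 < e0 / 2 by positivity) (by linarith)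
  obtain ⟨θn, hθn, Ln, hLn, hne⟩ := near hd hdd (show 0 < e0 / 8 by positivity) (by linarith)
  set τ : ℝ := min (min (θe * (1 - θ') / 8) (θ' / 2)) (min ν0 1) with hτ
  have hτ0 : 0 < τ := by
    rw [hτ]
    refine lt_min (lt_min ?_ (by positivity)) (lt_min hν0 one_pos)
    have : 0 < 1 - θ' := by linarith
    positivity
  have hτ1 : τ ≤ θe * (1 - θ') / 8 := (min_le_left _ _).trans (min_le_left _ _)
  have hτ2 : τ ≤ θ' / 2 := (min_le_left _ _).trans (min_le_right _ _)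
  have hτ3 : τ ≤ ν0 := (min_le_right _ _).trans (min_le_left _ _)
  have hτ4 : τ ≤ 1 := (min_le_right _ _).trans (min_le_right _ _)
  set J0 : ℝ := 600 / τ with hJ0
  have hJ0pos : 1 ≤ J0 := by
    rw [hJ0, le_div_iff₀ hτ0]; linarith
  set X0 : ℝ := 2 * (2 * J0 + 4096 / (θn * τ * e0)) with hX0
  set c2 : ℝ := Real.exp (-X0) * (e0 / 8) with hc2
  have hc20 : 0 < c2 := by positivity
  have hX00 : 0 ≤ X0 := by positivity
  have hc21 : c2 ≤ 1 := by
    have h1 : Real.exp (-X0) ≤ 1 := Real.exp_le_one_iff.2 (by linarith)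
    have h2 : Real.exp (-X0) * (e0 / 8) ≤ 1 * (e0 / 8) := mul_le_mul_of_nonneg_right h1 (by positivity)
    rw [hc2]; linarith
  obtain ⟨k0, hk01, hstage⟩ := stage hd hd3 hdd (show 0 < c2 / (32 * J0) by positivity) (by
    rw [div_le_one (by positivity)]; linarith)
  set ν : ℝ := τ / 8 with hν
  have hνpos : 0 < ν := by positivity
  set η : ℝ := c2 / 16 with hη
  have hη0 : 0 < η := by positivity
  refine ⟨ν, c2 / 2, hνpos, by linarith, by positivity, ?_⟩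
  have hlog : Tendsto Real.log atTop atTop := Real.tendsto_log_atTop
  have hlarge : ∀ x : ℝ, ∀ᶠ A : ℝ in atTop, x ≤ Real.log A := fun x => hlog.eventually (eventually_ge_atTop x)
  filter_upwards [eventually_ge_atTop 1, hlarge (40 * k0 / τ), hlarge (80 / τ), hlarge (2 / ν), hlarge (8 * θn * τ / ν ^ 2),
    hlarge (2 / (1 - θ')), hlarge (Le / (0.9 * τ)), hlarge (Ln / (0.9 * τ)), hlarge (8 / (θn * τ)),
    hlarge (2048 / (θn * τ * e0)), hlarge (1024 * J0 / (ν ^ 2 * c2)), hlarge (4096 / (η ^ 2 * ν ^ 2 * c2)),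
    hlarge (32 / (ν * c2)), hlarge 1] with A hA1 hl1 hl2 hl3 hl4 hl5 hl6 hl7 hl8 hl9 hl10 hl11 hl12 hl13
  intro f hf hE I n hI hn
  set Λ := Real.log A with hΛ
  have hA0 : 0 < A := by linarith
  have hexpA : Real.exp Λ = A := Real.exp_log hA0
  have hΛ0 : 0 < Λ := by linarith
  obtain ⟨hγ1, hγ2⟩ := log43
  set γ := 2 * Real.log 2 - Real.log 3 with hγ
  have hlg2 := Real.log_two_gt_d9
  have hlg2' := Real.log_two_lt_d9
  have hlg3 : 0 < Real.log 3 := Real.log_pos (by norm_num)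
  -- the number of cells
  have hApow : A ^ (1 - θ') = Real.exp ((1 - θ') * Λ) := by
    rw [Real.rpow_def_of_pos hA0, mul_comm]
  have hAp2 : 2 ≤ A ^ (1 - θ') := by
    rw [hApow]
    have h1 : 2 ≤ (1 - θ') * Λ := by
      rw [div_le_iff₀ (by linarith)] at hl5; linarith
    have h2 := Real.add_one_le_exp ((1 - θ') * Λ)
    linarith
  have hI1 : (I : ℝ) ≤ A ^ (1 - θ') := by rw [hI]; exact Nat.floor_le (by positivity)
  have hI2 : A ^ (1 - θ') / 2 ≤ I := by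
    rw [hI]; linarith [Nat.lt_floor_add_one (A ^ (1 - θ'))]
  have hI1R : (1 : ℝ) ≤ I := by linarith
  have hI0 : (0 : ℝ) < I := by linarith
  have hIN : 1 ≤ I := by exact_mod_cast hI1R
  have hlogI1 : Real.log I ≤ (1 - θ') * Λ := by
    have := Real.log_le_log hI0 hI1
    rwa [hApow, Real.log_exp] at this
  have hlogI2 : (1 - θ') * Λ - Real.log 2 ≤ Real.log I := by
    have h1 := Real.log_le_log (by positivity) hI2
    rwa [Real.log_div (by positivity) (by norm_num), hApow, Real.log_exp] at h1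
  set ℓ0 : ℝ := A / I with hℓ0
  have hℓ0pos : 0 < ℓ0 := by positivity
  have hlogℓ : Real.log ℓ0 = Λ - Real.log I := by
    rw [hℓ0, Real.log_div hA0.ne' hI0.ne']
  -- the parameters
  have hbase : θ' * Λ ≤ Real.log ℓ0 := by rw [hlogℓ]; linarith
  have hbase2 : Real.log ℓ0 ≤ 2 * Λ := by
    have := Real.log_nonneg hI1R
    rw [hlogℓ]; linarith
  have hτΛ : 80 ≤ τ * Λ := by
    rw [div_le_iff₀ hτ0] at hl2; linarith
  set k : ℕ := ⌊τ * Λ / 40⌋₊ with hk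
  set J : ℕ := ⌊(Real.log ℓ0 - τ * Λ) / (γ * k)⌋₊ with hJ
  obtain ⟨hk1, hk2, hu1, hu2, hJk, hJJ0⟩ := params_kJ hγ1 hγ2 hτ0 hτ2 hΛ0 hτΛ hbase hbase2 hk hJ
  rw [← hJ0] at hJJ0
  have hkk0 : k0 ≤ k := by
    apply Nat.le_floor
    rw [div_le_iff₀ hτ0] at hl1
    linarith
  have hk1N : 1 ≤ k := hk01.trans hkk0
  have hkpos : (0 : ℝ) < k := by exact_mod_cast hk1N
  have hγ0 : 0 < γ := by linarith
  set u : ℝ := Real.log ℓ0 - J * k * γ with hu
  have hνΛ : 2 ≤ ν * Λ := by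
    rw [div_le_iff₀ hνpos] at hl3; linarith
  have hθτΛ : 8 ≤ θn * τ * Λ := by
    rw [div_le_iff₀ (by positivity)] at hl8; linarith
  set M : ℕ := ⌊√ (θn * τ * Λ / 2)⌋₊ with hM
  obtain ⟨hn1, hn2, hMN, hMsq, hMsq2, hMn⟩ := params_nM hτ0 hθn hν hΛ0 hνΛ hθτΛ (by
    rw [div_le_iff₀ (by positivity)] at hl4; exact hl4) hn hM
  have hnR : (1 : ℝ) ≤ n := by linarith
  have hnN : 1 ≤ n := by exact_mod_cast hnR
  have hn0 : (0 : ℝ) < n := by linarith
  -- the levels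
  set φ : ℕ → Fin I → ℕ → ℝ := fun j i m =>
    av f (A * (I + (i : ℕ)) / I * 3 ^ (j * k) / 2 ^ m) (A * (I + ((i : ℕ) + 1)) / I * 3 ^ (j * k) / 2 ^ m) with hφ
  have hlen : ∀ (i p m : ℕ), A * (I + ((i : ℝ) + 1)) / I * 3 ^ p / 2 ^ m - A * (I + (i : ℝ)) / I * 3 ^ p / 2 ^ m
      = ℓ0 * 3 ^ p / 2 ^ m := by
    intro i p m
    rw [hℓ0]
    field_simp
    ring
  have hlen0 : ∀ (i p m : ℕ), A * (I + (i : ℝ)) / I * 3 ^ p / 2 ^ m < A * (I + ((i : ℝ) + 1)) / I * 3 ^ p / 2 ^ m := by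
    intro i p m
    have h1 := hlen i p m
    have h2 : 0 < ℓ0 * 3 ^ p / 2 ^ m := by positivity
    linarith
  have hφ1 : ∀ j i m, |φ j i m| ≤ 1 := fun j i m => av_abs hf.1 (hlen0 i (j * k) m).le
  have hn07 : (n : ℝ) * Real.log 2 ≤ 0.1 * (τ * Λ) := by
    have h1 : (n : ℝ) * Real.log 2 ≤ (ν * Λ) * 0.7 := by
      apply mul_le_mul hn1 (by linarith) (by linarith) (by positivity)
    rw [hν] at h1
    linarith
  have hD07 : (ν * Λ) * Real.log 2 ≤ 0.1 * (τ * Λ) := by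
    have h1 : (ν * Λ) * Real.log 2 ≤ (ν * Λ) * 0.7 := mul_le_mul_of_nonneg_left (by linarith) (by positivity)
    rw [hν] at h1 ⊢
    linarith
  have h1 : ∀ i, ∀ j < J, ∀ m : ℕ, (m : ℝ) ≤ n + 2 * (j * k) + ν * Λ →
      |φ j i m - (Pn (3 * k))^[k] (φ (j + 1) i) m| ≤ c2 / (32 * J0) := by
    intro i j hj m hm
    rw [Pn_words]
    have h2 := hstage k hkk0 f hf (A * (I + ((i : ℕ) : ℝ)) / I * 3 ^ (j * k) / 2 ^ m)
      (A * (I + (((i : ℕ) : ℝ) + 1)) / I * 3 ^ (j * k) / 2 ^ m) (hlen0 i (j * k) m).le (by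
        rw [hlen, log_len hℓ0pos]
        push_cast
        have h3 : (m : ℝ) * Real.log 2 ≤ (n + 2 * (j * k) + ν * Λ) * Real.log 2 :=
          mul_le_mul_of_nonneg_right hm (by linarith)
        have h4 : (j : ℝ) * k * γ ≤ J * k * γ := by
          apply mul_le_mul_of_nonneg_right _ hγ0.le
          apply mul_le_mul_of_nonneg_right _ hkpos.le
          exact_mod_cast hj.le
        have h5 : (j : ℝ) * k * γ = 2 * (j * k) * Real.log 2 - j * k * Real.log 3 := by rw [hγ]; ring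
        have h6 : (n + 2 * (j * k) + ν * Λ) * Real.log 2 = n * Real.log 2 + 2 * (j * k) * Real.log 2 + ν * Λ * Real.log 2 := by ring
        rw [h6] at h3
        linarith)
    refine le_trans (le_of_eq ?_) h2
    congr 2
    apply sum_congr rfl
    intro w _
    have e1 : ∀ x : ℝ, x * 3 ^ (j * k) / 2 ^ m * 3 ^ k / 2 ^ w.sum = x * 3 ^ ((j + 1) * k) / 2 ^ (m + w.sum) := by
      intro x
      rw [add_mul, one_mul, pow_add, pow_add]
      field_simp
    rw [e1, e1]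
  have h2 : ∀ ρ < n, e0 / 2 * I ≤ ∑ i, φ J i (2 * (J * k) + ρ) ^ 2 := by
    intro ρ hρ
    set Y : ℝ := A * 3 ^ (J * k) / 2 ^ (2 * (J * k) + ρ) with hY
    have hY0 : 0 < Y := by positivity
    have hYI : Y / I = ℓ0 * 3 ^ (J * k) / 2 ^ (2 * (J * k) + ρ) := by rw [hY, hℓ0]; field_simp
    have hρR : (ρ : ℝ) ≤ n := by exact_mod_cast hρ.le
    have hlogYI : Real.log (Y / I) = u - ρ * Real.log 2 := by
      rw [hYI, log_len hℓ0pos, hu, hγ]
      push_cast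
      ring
    have hρ07 : (ρ : ℝ) * Real.log 2 ≤ 0.1 * (τ * Λ) :=
      (mul_le_mul_of_nonneg_right hρR (by linarith)).trans hn07
    have hρ00 : 0 ≤ (ρ : ℝ) * Real.log 2 := by positivity
    have hlogY : Real.log Y = Real.log (Y / I) + Real.log I := by
      rw [Real.log_div hY0.ne' hI0.ne']; ring
    have h2le : 2 ≤ (1 - θ') * Λ := by
      rw [div_le_iff₀ (by linarith)] at hl5; linarith
    have hlogY2 : (1 - θ') / 2 * Λ ≤ Real.log Y := by
      rw [hlogY, hlogYI]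
      linarith
    have g1 := hen f hf Y I hY0 hIN (by
      rw [hlogYI]
      rw [div_le_iff₀ (by positivity)] at hl6
      linarith) (by
      rw [hlogYI]
      have g2 : θe * ((1 - θ') / 2 * Λ) ≤ θe * Real.log Y := mul_le_mul_of_nonneg_left hlogY2 hθe.le
      have g3 : τ * Λ ≤ θe * (1 - θ') / 8 * Λ := mul_le_mul_of_nonneg_right hτ1 hΛ0.le
      have g4 : θe * ((1 - θ') / 2 * Λ) = 4 * (θe * (1 - θ') / 8 * Λ) := by ring
      linarith)
    have g2 := hE Y hY0 hlogY2 (by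
      rw [hY, div_le_iff₀ (by positivity)]
      apply mul_le_mul_of_nonneg_left _ hA0.le
      calc (3 : ℝ) ^ (J * k) ≤ 4 ^ (J * k) := pow_le_pow_left₀ (by norm_num) (by norm_num) _
        _ = 2 ^ (2 * (J * k)) := by rw [pow_mul (2 : ℝ) 2 (J * k)]; norm_num
        _ ≤ 2 ^ (2 * (J * k) + ρ) := pow_le_pow_right₀ (by norm_num) (by omega))
    have g3 : e0 ≤ 2 / Y * OS (fun x => f x ^ 2) Y (2 * Y) := by
      have g4 := mul_le_mul_of_nonneg_left g2 (show 0 ≤ 2 / Y by positivity)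
      have e : 2 / Y * (e0 * Y / 2) = e0 := by field_simp
      linarith
    have g5 : e0 / 2 ≤ 1 / (I : ℝ) * ∑ i ∈ range I, av f (Y * (I + i) / I) (Y * (I + (i + 1)) / I) ^ 2 := by linarith
    have g6 : e0 / 2 * I ≤ ∑ i ∈ range I, av f (Y * (I + i) / I) (Y * (I + (i + 1)) / I) ^ 2 := by
      have g7 := mul_le_mul_of_nonneg_right g5 hI0.le
      have e : 1 / (I : ℝ) * (∑ i ∈ range I, av f (Y * (I + i) / I) (Y * (I + (i + 1)) / I) ^ 2) * I
          = ∑ i ∈ range I, av f (Y * (I + i) / I) (Y * (I + (i + 1)) / I) ^ 2 := by field_simp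
      linarith
    refine g6.trans (le_of_eq ?_)
    rw [← Fin.sum_univ_eq_sum_range (fun i => av f (Y * (I + i) / I) (Y * (I + (i + 1)) / I) ^ 2) I]
    apply sum_congr rfl
    intro i _
    rw [hφ]
    simp only
    have e1 : ∀ x : ℝ, Y * x / I = A * x / I * 3 ^ (J * k) / 2 ^ (2 * (J * k) + ρ) := by
      intro x
      rw [hY]; field_simp
    rw [e1, e1]
  have h3 : ∀ i, ∀ ρ B : ℕ, B < M → ρ + B < n → |φ J i (2 * (J * k) + ρ + B) - φ J i (2 * (J * k) + ρ)| ≤ e0 / 8 := by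
    intro i ρ B hB hρB
    have hρBR : ((ρ : ℝ) + B) ≤ n := by exact_mod_cast hρB.le
    have hl : Real.log (A * (I + (((i : ℕ) : ℝ) + 1)) / I * 3 ^ (J * k) / 2 ^ (2 * (J * k) + ρ + B)
        - A * (I + ((i : ℕ) : ℝ)) / I * 3 ^ (J * k) / 2 ^ (2 * (J * k) + ρ + B)) = u - (ρ + B) * Real.log 2 := by
      rw [hlen, log_len hℓ0pos, hu, hγ]
      push_cast
      ring
    have hρ07 : ((ρ : ℝ) + B) * Real.log 2 ≤ 0.1 * (τ * Λ) :=
      (mul_le_mul_of_nonneg_right hρBR (by linarith)).trans hn07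
    have g1 := hne f hf (A * (I + ((i : ℕ) : ℝ)) / I * 3 ^ (J * k) / 2 ^ (2 * (J * k) + ρ + B))
      (A * (I + (((i : ℕ) : ℝ) + 1)) / I * 3 ^ (J * k) / 2 ^ (2 * (J * k) + ρ + B)) (hlen0 i (J * k) _) (by
        rw [hl]
        rw [div_le_iff₀ (by positivity)] at hl7
        linarith) B (by
        rw [hl]
        have g2 : (B : ℝ) ^ 2 ≤ (M : ℝ) ^ 2 := pow_le_pow_left₀ (by positivity) (by exact_mod_cast hB.le) 2
        have g3 : τ * Λ / 2 ≤ u - (ρ + B) * Real.log 2 := by linarith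
        have g4 := mul_le_mul_of_nonneg_left g3 hθn.le
        have e : θn * (τ * Λ / 2) = θn * τ * Λ / 2 := by ring
        linarith)
    rw [abs_sub_comm]
    refine le_trans (le_of_eq ?_) g1
    rw [hφ]
    simp only
    have e1 : ∀ x : ℝ, 2 ^ B * (x * 3 ^ (J * k) / 2 ^ (2 * (J * k) + ρ + B)) = x * 3 ^ (J * k) / 2 ^ (2 * (J * k) + ρ) := by
      intro x
      rw [pow_add _ (2 * (J * k) + ρ) B]
      field_simp
    rw [e1, e1]
  -- the spectral constant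
  set x : ℝ := 2 * (1 / 2 : ℝ) ^ (3 * k) + 8 / ((M : ℝ) ^ 2 * (e0 / 2 / 4)) with hx
  obtain ⟨hx0, hxh, hxK⟩ := params_x he0 hθn hτ0 hk1N hJk hJJ0 hMN hMsq (by
    rw [div_le_iff₀ (by positivity)] at hl9; exact hl9) hx
  rw [← hX0] at hxK
  have hρK : Real.exp (-X0) ≤ (1 - x) ^ (J * k) := by
    have g1 : Real.exp (-(2 * x)) ^ (J * k) ≤ (1 - x) ^ (J * k) :=
      pow_le_pow_left₀ (Real.exp_pos _).le (exp_le_one_sub hx0 hxh) _
    rw [← Real.exp_nat_mul] at g1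
    refine le_trans (Real.exp_le_exp.2 ?_) g1
    push_cast
    linarith
  have hmain := core (cap := 3 * k) (ε2 := e0 / 8) (e1 := e0 / 2) (D := ν * Λ) (D' := η * n) (ρs := 1 - x) hnN hIN hMN hMn
    (by positivity) (by positivity) (show 0 ≤ c2 / (32 * J0) by positivity) (by positivity) (by linarith) φ hφ1 h1 h2 h3
    (by linarith) (by
      have g1 : (1 - (1 / 2 : ℝ) ^ (3 * k)) ^ 2 = 1 - 2 * (1 / 2) ^ (3 * k) + ((1 / 2 : ℝ) ^ (3 * k)) ^ 2 := by ring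
      have g2 : 0 ≤ ((1 / 2 : ℝ) ^ (3 * k)) ^ 2 := by positivity
      rw [g1, hx]
      linarith)
  -- conclusion
  have hLHS : c2 * (n * I) ≤ (1 - x) ^ (J * k) * (e0 / 2 / 4 * (n * I)) := by
    have g1 := mul_le_mul_of_nonneg_right hρK (show 0 ≤ e0 / 8 * (n * I) by positivity)
    have e1 : c2 * (n * I) = Real.exp (-X0) * (e0 / 8 * (n * I)) := by rw [hc2]; ring
    have e2 : (1 - x) ^ (J * k) * (e0 / 2 / 4 * (n * I)) = (1 - x) ^ (J * k) * (e0 / 8 * (n * I)) := by ring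
    rw [e1, e2]; exact g1
  obtain ⟨hE1, hE3'⟩ := params_err hc20 (by linarith : 0 < J0) hνpos hΛ0 hη hJJ0 hJk hn2 (by
    rw [div_le_iff₀ (by positivity)] at hl10; exact hl10) (by
    rw [div_le_iff₀ (by positivity)] at hl11; exact hl11) (by
    rw [div_le_iff₀ (by positivity)] at hl12; exact hl12)
  have hE3 : (2 * (η * n) + 2) * I ≤ c2 / 4 * (n * I) := by
    calc (2 * (η * n) + 2) * I ≤ (c2 / 4 * n) * I := mul_le_mul_of_nonneg_right hE3' hI0.le
      _ = _ := by ring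
  have hE4 : (n : ℝ) * I * (J * (c2 / (32 * J0) + 4 * (J * k) / (ν * Λ) ^ 2) + 4 * (J * k) / (η * n) ^ 2)
      ≤ n * I * (3 * c2 / 32) := mul_le_mul_of_nonneg_left hE1 (by positivity)
  have htop : ∑ l ∈ range n, ∑ i, |φ 0 i l|
      = ∑ l ∈ range n, ∑ i ∈ range I, |av f (A * (I + i) / I / 2 ^ l) (A * (I + (i + 1)) / I / 2 ^ l)| := by
    apply sum_congr rfl
    intro l _
    rw [← Fin.sum_univ_eq_sum_range (fun i => |av f (A * (I + i) / I / 2 ^ l) (A * (I + (i + 1)) / I / 2 ^ l)|) I]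
    apply sum_congr rfl
    intro i _
    rw [hφ]
    simp only [zero_mul, pow_zero, mul_one]
  rw [htop] at hmain
  have hpos : 0 ≤ c2 * (n * I) := by positivity
  have e5 : n * I * (3 * c2 / 32) = 3 / 32 * (c2 * (n * I)) := by ring
  have e6 : c2 / 4 * (n * I) = 1 / 4 * (c2 * (n * I)) := by ring
  have e7 : c2 / 2 * (n * I) = 1 / 2 * (c2 * (n * I)) := by ring
  rw [e5] at hE4
  rw [e6] at hE3
  rw [e7]
  linarith

end Pool.Agent.Y965.SI
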