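import Pool.Agent.Y965.SI.St3
import Pool.Agent.Y965.PS.Orb

/-! Near invariance of the averages under the multiplication of the interval by `2 ^ B`. -/

set_option autoImplicit false

namespace Pool.Agent.Y965.SI

open Pool.Agent.H320R2.PD Pool.Agent.H499R2.ND Pool.Agent.H499R2.CO Pool.Agent.W41.FU Finset

theorem abs_d {d : ℤ} (hdd : d * d = 1) : |(d : ℝ)| = 1 := by
  have h7 : (d : ℝ) * d = 1 := by exact_mod_cast hdd
  have h8 : |(d : ℝ)| * |(d : ℝ)| = 1 := by rw [← abs_mul, h7, abs_one]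
  nlinarith [abs_nonneg (d : ℝ)]

theorem d_cases {d : ℤ} (hdd : d * d = 1) : d = 1 ∨ d = -1 := by
  have := Int.isUnit_iff.1 (IsUnit.of_mul_eq_one d hdd)
  exact this

theorem Tz_size {d : ℤ} (hdd : d * d = 1) (y : ℤ) : |Tz d y| + 1 ≤ 2 * (|y| + 1) := by
  have h : Tz d y ≤ 2 * |y| + 1 ∧ -(2 * |y| + 1) ≤ Tz d y := by
    have h1 := le_abs_self y
    have h2 := neg_abs_le y
    rcases d_cases hdd with rfl | rfl <;> unfold Tz <;> split_ifs <;> constructor <;> omega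
  have := abs_le.2 ⟨h.2, h.1⟩
  linarith

theorem Tz_iter_size {d : ℤ} (hdd : d * d = 1) (B : ℕ) (y : ℤ) : |(Tz d)^[B] y| + 1 ≤ 2 ^ B * (|y| + 1) := by
  induction B with
  | zero => simp
  | succ B ih =>
    rw [Function.iterate_succ_apply']
    have h := Tz_size hdd ((Tz d)^[B] y)
    calc |Tz d ((Tz d)^[B] y)| + 1 ≤ 2 * (|(Tz d)^[B] y| + 1) := h
      _ ≤ 2 * (2 ^ B * (|y| + 1)) := by linarith
      _ = 2 ^ (B + 1) * (|y| + 1) := by ring

/-- splitting the odd integers of `[2 ^ B a, 2 ^ B b)` -/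
theorem OS_split (f : ℤ → ℝ) (a b : ℝ) (B : ℕ) :
    OS f (2 ^ B * a) (2 ^ B * b) = ∑ j ∈ range (2 ^ B), WS (fun x => f (2 ^ B * x + (2 * (j : ℤ) + 1 - 2 ^ B)))
      (a + -((2 * (j : ℝ) + 1 - 2 ^ B) / 2 ^ B)) (b + -((2 * (j : ℝ) + 1 - 2 ^ B) / 2 ^ B)) 0 1 0 := by
  classical
  have h2 : (0 : ℤ) < 2 ^ B := by positivity
  have h2R : (0 : ℝ) < 2 ^ B := by positivity
  set jj : ℤ → ℕ := fun x => ((x % (2 * 2 ^ B)) / 2).toNat with hjj
  have hjj' : ∀ x : ℤ, ((jj x : ℕ) : ℤ) = (x % (2 * 2 ^ B)) / 2 := by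
    intro x
    rw [hjj]
    apply Int.toNat_of_nonneg
    exact Int.ediv_nonneg (Int.emod_nonneg _ (by positivity)) (by norm_num)
  unfold OS
  unfold WS
  have hmaps : ∀ x ∈ cls Set.univ (2 ^ B * a) (2 ^ B * b) 0 1 0, jj x ∈ range (2 ^ B) := by
    intro x _
    rw [mem_range]
    have h3 := Int.emod_lt_of_pos x (show (0 : ℤ) < 2 * 2 ^ B by positivity)
    have h4 : ((jj x : ℕ) : ℤ) < 2 ^ B := by rw [hjj']; omega
    exact_mod_cast h4
  rw [← sum_fiberwise_of_maps_to hmaps]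
  apply sum_congr rfl
  intro j hj
  rw [mem_range] at hj
  have hjZ : (j : ℤ) < 2 ^ B := by exact_mod_cast hj
  have hj0 : (0 : ℤ) ≤ j := Int.natCast_nonneg _
  apply sum_bij' (fun x _ => (x - (2 * (j : ℤ) + 1 - 2 ^ B)) / 2 ^ B) (fun y _ => 2 ^ B * y + (2 * (j : ℤ) + 1 - 2 ^ B))
  · intro x hx
    rw [mem_filter, mem_cls] at hx
    obtain ⟨⟨⟨hx1, hx2⟩, hxo, -⟩, hxj⟩ := hx
    have h3 : (x % (2 * 2 ^ B)) / 2 = j := by rw [← hjj', hxj]
    have h4 := Int.emod_add_mul_ediv x (2 * 2 ^ B)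
    set q := x / (2 * 2 ^ B) with hq
    have h5 : x % (2 * 2 ^ B) = 2 * j + 1 := by
      have h6 : x % (2 * 2 ^ B) % 2 = 1 := by
        rw [Int.emod_emod_of_dvd _ (dvd_mul_right 2 _)]
        exact Int.odd_iff.1 hxo
      omega
    rw [h5] at h4
    have h6 : x - (2 * (j : ℤ) + 1 - 2 ^ B) = 2 ^ B * (2 * q + 1) := by linear_combination -h4
    rw [h6, Int.mul_ediv_cancel_left _ h2.ne', mem_cls]
    have h7 : (x : ℝ) - (2 * (j : ℝ) + 1 - 2 ^ B) = 2 ^ B * (2 * q + 1) := by exact_mod_cast h6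
    refine ⟨⟨?_, ?_⟩, ⟨q, rfl⟩, Set.mem_univ _, by simp⟩
    · push_cast
      have h8 : a + -((2 * (j : ℝ) + 1 - 2 ^ B) / 2 ^ B) = (2 ^ B * a - (2 * (j : ℝ) + 1 - 2 ^ B)) / 2 ^ B := by
        field_simp; ring
      rw [h8, div_le_iff₀ h2R]
      linarith
    · push_cast
      have h8 : b + -((2 * (j : ℝ) + 1 - 2 ^ B) / 2 ^ B) = (2 ^ B * b - (2 * (j : ℝ) + 1 - 2 ^ B)) / 2 ^ B := by
        field_simp; ring
      rw [h8, lt_div_iff₀ h2R]
      linarith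
  · intro y hy
    rw [mem_cls] at hy
    obtain ⟨⟨hy1, hy2⟩, ⟨q, hq⟩, -⟩ := hy
    rw [mem_filter, mem_cls]
    have h8 : a + -((2 * (j : ℝ) + 1 - 2 ^ B) / 2 ^ B) = (2 ^ B * a - (2 * (j : ℝ) + 1 - 2 ^ B)) / 2 ^ B := by
      field_simp; ring
    have h9 : b + -((2 * (j : ℝ) + 1 - 2 ^ B) / 2 ^ B) = (2 ^ B * b - (2 * (j : ℝ) + 1 - 2 ^ B)) / 2 ^ B := by
      field_simp; ring
    rw [h8, div_le_iff₀ h2R] at hy1
    rw [h9, lt_div_iff₀ h2R] at hy2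
    have e : 2 ^ B * y + (2 * (j : ℤ) + 1 - 2 ^ B) = 2 * j + 1 + (2 * 2 ^ B) * q := by rw [hq]; ring
    refine ⟨⟨⟨?_, ?_⟩, ?_, Set.mem_univ _, by simp⟩, ?_⟩
    · push_cast; linarith
    · push_cast; linarith
    · rw [e]
      exact ⟨j + 2 ^ B * q, by ring⟩
    · have h10 : ((jj (2 ^ B * y + (2 * (j : ℤ) + 1 - 2 ^ B)) : ℕ) : ℤ) = (j : ℤ) := by
        rw [hjj', e, Int.add_mul_emod_self_left, Int.emod_eq_of_lt (by omega) (by omega)]
        omega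
      exact_mod_cast h10
  · intro x hx
    rw [mem_filter, mem_cls] at hx
    obtain ⟨⟨⟨hx1, hx2⟩, hxo, -⟩, hxj⟩ := hx
    have h3 : (x % (2 * 2 ^ B)) / 2 = j := by rw [← hjj', hxj]
    have h4 := Int.emod_add_mul_ediv x (2 * 2 ^ B)
    set q := x / (2 * 2 ^ B) with hq
    have h5 : x % (2 * 2 ^ B) = 2 * j + 1 := by
      have h6 : x % (2 * 2 ^ B) % 2 = 1 := by
        rw [Int.emod_emod_of_dvd _ (dvd_mul_right 2 _)]
        exact Int.odd_iff.1 hxo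
      omega
    rw [h5] at h4
    have h6 : x - (2 * (j : ℤ) + 1 - 2 ^ B) = 2 ^ B * (2 * q + 1) := by linear_combination -h4
    rw [h6, Int.mul_ediv_cancel_left _ h2.ne']
    linarith
  · intro y _
    have : 2 ^ B * y + (2 * (j : ℤ) + 1 - 2 ^ B) - (2 * (j : ℤ) + 1 - 2 ^ B) = 2 ^ B * y := by ring
    rw [this, Int.mul_ediv_cancel_left _ h2.ne']
  · intro x hx
    rw [mem_filter, mem_cls] at hx
    obtain ⟨⟨⟨hx1, hx2⟩, hxo, -⟩, hxj⟩ := hx
    have h3 : (x % (2 * 2 ^ B)) / 2 = j := by rw [← hjj', hxj]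
    have h4 := Int.emod_add_mul_ediv x (2 * 2 ^ B)
    set q := x / (2 * 2 ^ B) with hq
    have h5 : x % (2 * 2 ^ B) = 2 * j + 1 := by
      have h6 : x % (2 * 2 ^ B) % 2 = 1 := by
        rw [Int.emod_emod_of_dvd _ (dvd_mul_right 2 _)]
        exact Int.odd_iff.1 hxo
      omega
    rw [h5] at h4
    have h6 : x - (2 * (j : ℤ) + 1 - 2 ^ B) = 2 ^ B * (2 * q + 1) := by linear_combination -h4
    rw [h6, Int.mul_ediv_cancel_left _ h2.ne']
    congr 1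
    linarith

/-- survivors among the odd integers of an interval -/
theorem surv_sum {d : ℤ} (hd : d % 2 = 1) {g h : ℤ → ℝ} (hg : ∀ x, |g x| ≤ 1) (hh : ∀ x, |h x| ≤ 1) {a b : ℝ}
    (hab : a ≤ b) (k : ℕ) (s : ℕ × ℤ) (hs : ∀ x, ¬ surv d k s x → g x = h x) {ε : ℝ}
    (hq : q step (0, 0) k s ≤ ε) :
    ∑ x ∈ cls Set.univ a b 0 1 0, |g x - h x| ≤ 2 * ε * ((b - a) + 2 ^ k) := by
  classical
  have hb : ∀ x ∈ cls Set.univ a b 0 1 0, |g x - h x| ≤ if surv d k s x then 2 else 0 := by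
    intro x _
    split_ifs with hx
    · have a1 := hg x
      have a2 := hh x
      have a3 := abs_sub (g x) (h x)
      linarith
    · rw [hs x hx, sub_self, abs_zero]
  refine (sum_le_sum hb).trans ?_
  rw [← sum_filter, sum_const, nsmul_eq_mul]
  have h5 := surv_card hd k s hab 0 isCoprime_one_left 0
  rw [pow_zero, div_one] at h5
  have h7 : 0 ≤ (b - a) + 2 ^ k := add_nonneg (by linarith) (by positivity)
  have h8 := mul_le_mul_of_nonneg_right hq h7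
  linarith

theorem near_raw {d : ℤ} (hd : d % 2 = 1) (hdd : d * d = 1) {f : ℤ → ℝ} (hf : InvF d f) {a b : ℝ} (hab : a ≤ b)
    (B k : ℕ) {ε : ℝ} (hQ : ∀ (i : ℕ) (r : ℤ), i ≤ B → |(r : ℝ)| ≤ 2 * 4 ^ B → q step (0, 0) k (i, r) ≤ ε) :
    |OS f (2 ^ B * a) (2 ^ B * b) - 2 ^ B * OS f a b| ≤ 2 ^ B * (3 + 2 * ε * ((b - a) + 2 ^ k)) := by
  have e0 : OS f (2 ^ B * a) (2 ^ B * b) - 2 ^ B * OS f a b
      = ∑ j ∈ range (2 ^ B), (WS (fun x => f (2 ^ B * x + (2 * (j : ℤ) + 1 - 2 ^ B)))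
      (a + -((2 * (j : ℝ) + 1 - 2 ^ B) / 2 ^ B)) (b + -((2 * (j : ℝ) + 1 - 2 ^ B) / 2 ^ B)) 0 1 0 - OS f a b) := by
    rw [OS_split, sum_sub_distrib, sum_const, card_range, nsmul_eq_mul]
    push_cast
    ring
  rw [e0]
  refine (abs_sum_le_sum_abs _ _).trans ?_
  have hone : ∀ j ∈ range (2 ^ B), |WS (fun x => f (2 ^ B * x + (2 * (j : ℤ) + 1 - 2 ^ B)))
      (a + -((2 * (j : ℝ) + 1 - 2 ^ B) / 2 ^ B)) (b + -((2 * (j : ℝ) + 1 - 2 ^ B) / 2 ^ B)) 0 1 0 - OS f a b|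
      ≤ 3 + 2 * ε * ((b - a) + 2 ^ k) := by
    intro j hj
    rw [mem_range] at hj
    have hjR : (j : ℝ) + 1 ≤ 2 ^ B := by exact_mod_cast hj
    have hj0 : (0 : ℝ) ≤ j := Nat.cast_nonneg j
    have h2R : (0 : ℝ) < 2 ^ B := by positivity
    set g : ℤ → ℝ := fun x => f (2 ^ B * x + (2 * (j : ℤ) + 1 - 2 ^ B)) with hg
    have hg1 : ∀ x, |g x| ≤ 1 := fun x => hf.1 _
    have hs : |-((2 * (j : ℝ) + 1 - 2 ^ B) / 2 ^ B)| ≤ 1 := by
      rw [abs_neg, abs_div, abs_of_pos h2R, div_le_one h2R, abs_le]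
      constructor <;> linarith
    have h1 := shiftW hg1 (a := a) (b := b) hs 0 isCoprime_one_left 0
    have e1 : (2 : ℝ) * (1 / (2 * 3 ^ 0) + 1) = 3 := by norm_num
    rw [e1] at h1
    have h2 : |WS g a b 0 1 0 - OS f a b| ≤ 2 * ε * ((b - a) + 2 ^ k) := by
      unfold OS WS
      rw [← sum_sub_distrib]
      refine (abs_sum_le_sum_abs _ _).trans ?_
      set r : ℤ := 2 * (j : ℤ) + 1 - 2 ^ B with hr
      apply surv_sum hd hg1 hf.1 hab k (Pool.Agent.Y965.PS.ac d B r, d * (Tz d)^[B] r)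
      · intro x hx
        have h3 := hf.coal hd hx
        have h4 : (Tz d)^[B] (r + 2 ^ B * x) = (Tz d)^[B] r + 3 ^ (Pool.Agent.Y965.PS.ac d B r) * x :=
          (Pool.Agent.Y965.PS.shift (d := d) r B x).1
        have h5 : g x = f ((Tz d)^[B] (r + 2 ^ B * x)) := by
          rw [hf.iter, hg]
          simp only
          congr 1
          ring
        rw [h5, h4, ← h3]
        congr 1
        have : d * (d * (Tz d)^[B] r) = (d * d) * (Tz d)^[B] r := by ring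
        rw [this, hdd]; ring
      · apply hQ
        · exact Pool.Agent.Y965.PS.ac_le (d := d) r B
        · push_cast
          rw [abs_mul, abs_d hdd, one_mul]
          have h3 := Tz_iter_size hdd B r
          have h4 : |r| ≤ 2 ^ B := by
            have hjZ : (j : ℤ) < 2 ^ B := by exact_mod_cast hj
            rw [hr, abs_le]; constructor <;> omega
          have h5 : (1 : ℤ) ≤ 2 ^ B := one_le_pow₀ (by norm_num)
          have h6 : |(Tz d)^[B] r| ≤ 2 * 4 ^ B := by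
            have e4 : (4 : ℤ) ^ B = 2 ^ B * 2 ^ B := by rw [← mul_pow]; norm_num
            rw [e4]
            nlinarith
          exact_mod_cast h6
    have h3 := abs_sub_le (WS g (a + -((2 * (j : ℝ) + 1 - 2 ^ B) / 2 ^ B)) (b + -((2 * (j : ℝ) + 1 - 2 ^ B) / 2 ^ B)) 0 1 0)
      (WS g a b 0 1 0) (OS f a b)
    linarith
  refine (sum_le_sum hone).trans ?_
  rw [sum_const, card_range, nsmul_eq_mul]
  push_cast
  exact le_rfl

/-- the number of steps used at the length `ℓ` -/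
noncomputable def kk (ℓ : ℝ) : ℕ := ⌊Real.log ℓ / (2 * Real.log 2)⌋₊

theorem kk_prop {ℓ : ℝ} (hℓ : 0 < ℓ) (hL : 10 ≤ Real.log ℓ) :
    (2 : ℝ) ^ kk ℓ ≤ Real.exp (Real.log ℓ / 2) ∧ Real.log ℓ / 2 ≤ kk ℓ ∧ (2 : ℝ) ^ kk ℓ ≤ ℓ / 100 := by
  have hl2 := Real.log_two_gt_d9
  have hl2' := Real.log_two_lt_d9
  set L := Real.log ℓ with hLdef
  have h1 : (kk ℓ : ℝ) * (2 * Real.log 2) ≤ L := by
    have := Nat.floor_le (a := L / (2 * Real.log 2)) (by positivity)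
    unfold kk
    rwa [← hLdef, le_div_iff₀ (by linarith)] at *
  have h2 : L / 2 ≤ kk ℓ := by
    have h3 := Nat.lt_floor_add_one (L / (2 * Real.log 2))
    have h4 : 0.7 * L ≤ L / (2 * Real.log 2) := by
      rw [le_div_iff₀ (by linarith)]
      nlinarith
    unfold kk
    rw [← hLdef]
    linarith
  have h3 : (2 : ℝ) ^ kk ℓ ≤ Real.exp (L / 2) := by
    have e : (2 : ℝ) ^ kk ℓ = Real.exp (kk ℓ * Real.log 2) := by
      rw [Real.exp_nat_mul, Real.exp_log (by norm_num)]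
    rw [e]
    apply Real.exp_le_exp.2
    linarith
  refine ⟨h3, h2, h3.trans ?_⟩
  have e1 : ℓ = Real.exp L := (Real.exp_log hℓ).symm
  have h4 : (100 : ℝ) ≤ Real.exp (L / 2) := by
    have h5 : Real.exp 5 ≤ Real.exp (L / 2) := Real.exp_le_exp.2 (by linarith)
    have h6 : (100 : ℝ) ≤ Real.exp 5 := by
      have h7 := Real.exp_one_gt_d9
      have h8 : Real.exp 5 = Real.exp 1 ^ 5 := by rw [← Real.exp_nat_mul]; norm_num
      rw [h8]
      have h9 : (2.7 : ℝ) ^ 5 ≤ Real.exp 1 ^ 5 := pow_le_pow_left₀ (by norm_num) (by linarith) 5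
      norm_num at h9 ⊢
      linarith
    linarith
  rw [e1, le_div_iff₀ (by norm_num)]
  have h5 : Real.exp L = Real.exp (L / 2) * Real.exp (L / 2) := by rw [← Real.exp_add]; congr 1; ring
  rw [h5]
  exact mul_le_mul_of_nonneg_left h4 (Real.exp_pos _).le

/-- NEAR INVARIANCE. -/
theorem near {d : ℤ} (hd : Odd d) (hdd : d * d = 1) {ε : ℝ} (hε : 0 < ε) (hε1 : ε ≤ 1) :
    ∃ θ : ℝ, 0 < θ ∧ ∃ L0 : ℝ, 10 ≤ L0 ∧ ∀ f : ℤ → ℝ, InvF d f → ∀ a b : ℝ, a < b → L0 ≤ Real.log (b - a) →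
      ∀ B : ℕ, (B : ℝ) ^ 2 ≤ θ * Real.log (b - a) → |av f (2 ^ B * a) (2 ^ B * b) - av f a b| ≤ ε := by
  have hd2 : d % 2 = 1 := Int.odd_iff.1 hd
  obtain ⟨θ, hθ, hθ1, kq, hkq⟩ := q_gen (show 0 < ε / 8 by positivity) (by linarith)
  refine ⟨θ / 2, by positivity, max (max 10 (2 * kq)) (max (72 / θ) (100 / ε)), ?_, ?_⟩
  · exact (le_max_left _ _).trans (le_max_left _ _)
  intro f hf a b hab hL B hB
  have hL1 : 10 ≤ Real.log (b - a) := ((le_max_left _ _).trans (le_max_left _ _)).trans hL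
  have hL2 : 2 * (kq : ℝ) ≤ Real.log (b - a) := ((le_max_right _ _).trans (le_max_left _ _)).trans hL
  have hL3 : 72 / θ ≤ Real.log (b - a) := ((le_max_left _ _).trans (le_max_right _ _)).trans hL
  have hL4 : 100 / ε ≤ Real.log (b - a) := ((le_max_right _ _).trans (le_max_right _ _)).trans hL
  set ℓ := b - a with hℓdef
  have hℓ : 0 < ℓ := by rw [hℓdef]; linarith
  set L := Real.log ℓ with hLdef
  obtain ⟨h1, h2, h3⟩ := kk_prop hℓ hL1
  set k := kk ℓ with hk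
  have hkR : L / 2 ≤ k := h2
  have hQ : ∀ (i : ℕ) (r : ℤ), i ≤ B → |(r : ℝ)| ≤ 2 * 4 ^ B → q step (0, 0) k (i, r) ≤ ε / 8 := by
    intro i r hi hr
    have hiR : (i : ℝ) ≤ B := by exact_mod_cast hi
    have hθk : θ / 2 * L ≤ θ * k := by
      have := mul_le_mul_of_nonneg_left hkR hθ.le
      linarith
    apply hkq k _ i r
    · calc (i : ℝ) ^ 2 ≤ (B : ℝ) ^ 2 := pow_le_pow_left₀ (Nat.cast_nonneg i) hiR 2
        _ ≤ θ / 2 * L := hB
        _ ≤ θ * k := hθk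
    · refine hr.trans ?_
      have e2 : (2 : ℝ) * 4 ^ B = 2 ^ (((1 + 2 * B : ℕ) : ℝ)) := by
        rw [Real.rpow_natCast, pow_add, pow_mul]; norm_num
      rw [e2]
      apply Real.rpow_le_rpow_of_exponent_le (by norm_num)
      push_cast
      -- 1 + 2 B ≤ θ k
      have h5 : 36 ≤ θ / 2 * L := by
        rw [div_le_iff₀ hθ] at hL3
        linarith
      have h6 : (1 + 2 * (B : ℝ)) ^ 2 ≤ (θ / 2 * L) ^ 2 := by
        have h7 : (1 + 2 * (B : ℝ)) ^ 2 ≤ 9 * (B : ℝ) ^ 2 + 9 := by nlinarith [sq_nonneg ((B : ℝ) - 1), Nat.cast_nonneg (α := ℝ) B]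
        nlinarith
      have h8 : 1 + 2 * (B : ℝ) ≤ θ / 2 * L := le_of_sq_le_sq h6 (by linarith)
      linarith
    · have h5 : (kq : ℝ) ≤ k := by linarith
      exact_mod_cast h5
  have hmain := near_raw hd2 hdd hf hab.le B k hQ
  have h2B : (0 : ℝ) < 2 ^ B := by positivity
  have h2B1 : (1 : ℝ) ≤ 2 ^ B := one_le_pow₀ (by norm_num)
  -- averages
  have g1 : |av f (2 ^ B * a) (2 ^ B * b) * (2 ^ B * ℓ / 2) - OS f (2 ^ B * a) (2 ^ B * b)| ≤ 1 := by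
    have hpos : 0 < (2 ^ B * b - 2 ^ B * a) / 2 + 1 := by
      have : 2 ^ B * b - 2 ^ B * a = 2 ^ B * ℓ := by rw [hℓdef]; ring
      rw [this]; positivity
    have e1 : OS f (2 ^ B * a) (2 ^ B * b) = av f (2 ^ B * a) (2 ^ B * b) * ((2 ^ B * b - 2 ^ B * a) / 2 + 1) := by
      unfold av
      rw [div_mul_cancel₀ _ hpos.ne']
    have e : av f (2 ^ B * a) (2 ^ B * b) * (2 ^ B * ℓ / 2) - OS f (2 ^ B * a) (2 ^ B * b) = - av f (2 ^ B * a) (2 ^ B * b) := by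
      rw [e1, hℓdef]; ring
    rw [e, abs_neg]
    exact av_abs hf.1 (mul_le_mul_of_nonneg_left hab.le h2B.le)
  have g2 : |av f a b * (ℓ / 2) - OS f a b| ≤ 1 := by
    have hpos : 0 < (b - a) / 2 + 1 := by linarith
    have e1 : OS f a b = av f a b * ((b - a) / 2 + 1) := by
      unfold av
      rw [div_mul_cancel₀ _ hpos.ne']
    have e : av f a b * (ℓ / 2) - OS f a b = - av f a b := by rw [e1, hℓdef]; ring
    rw [e, abs_neg]
    exact av_abs hf.1 hab.le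
  have g3 : |av f (2 ^ B * a) (2 ^ B * b) - av f a b| * (2 ^ B * ℓ / 2) ≤ 2 ^ B * (5 + 2 * (ε / 8) * (ℓ + 2 ^ k)) := by
    have e : |av f (2 ^ B * a) (2 ^ B * b) - av f a b| * (2 ^ B * ℓ / 2)
        = |(av f (2 ^ B * a) (2 ^ B * b) * (2 ^ B * ℓ / 2) - OS f (2 ^ B * a) (2 ^ B * b))
          + (OS f (2 ^ B * a) (2 ^ B * b) - 2 ^ B * OS f a b) - 2 ^ B * (av f a b * (ℓ / 2) - OS f a b)| := by
      rw [← abs_of_pos (show 0 < 2 ^ B * ℓ / 2 by positivity), ← abs_mul, abs_of_pos (show 0 < 2 ^ B * ℓ / 2 by positivity)]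
      congr 1
      ring
    rw [e]
    have h5 := abs_sub ((av f (2 ^ B * a) (2 ^ B * b) * (2 ^ B * ℓ / 2) - OS f (2 ^ B * a) (2 ^ B * b))
          + (OS f (2 ^ B * a) (2 ^ B * b) - 2 ^ B * OS f a b)) (2 ^ B * (av f a b * (ℓ / 2) - OS f a b))
    have h6 := abs_add_le (av f (2 ^ B * a) (2 ^ B * b) * (2 ^ B * ℓ / 2) - OS f (2 ^ B * a) (2 ^ B * b))
      (OS f (2 ^ B * a) (2 ^ B * b) - 2 ^ B * OS f a b)
    have h7 : |2 ^ B * (av f a b * (ℓ / 2) - OS f a b)| ≤ 2 ^ B := by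
      rw [abs_mul, abs_of_pos h2B]
      nlinarith [abs_nonneg (av f a b * (ℓ / 2) - OS f a b)]
    have e9 : (2 : ℝ) ^ B * (5 + 2 * (ε / 8) * (ℓ + 2 ^ k)) = 2 ^ B * (3 + 2 * (ε / 8) * ((b - a) + 2 ^ k)) + 2 ^ B + 2 ^ B := by
      rw [hℓdef]; ring
    rw [e9]
    linarith
  have g4 : |av f (2 ^ B * a) (2 ^ B * b) - av f a b| * (ℓ / 2) ≤ 5 + 2 * (ε / 8) * (ℓ + 2 ^ k) := by
    have e : |av f (2 ^ B * a) (2 ^ B * b) - av f a b| * (2 ^ B * ℓ / 2)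
        = 2 ^ B * (|av f (2 ^ B * a) (2 ^ B * b) - av f a b| * (ℓ / 2)) := by ring
    rw [e] at g3
    exact le_of_mul_le_mul_left g3 h2B
  have g5 : 100 ≤ ε * ℓ := by
    rw [div_le_iff₀ hε] at hL4
    have h5 : L ≤ ℓ := by
      have := Real.add_one_le_exp L
      rw [hLdef, Real.exp_log hℓ] at this
      linarith
    nlinarith
  have g6 : 5 + 2 * (ε / 8) * (ℓ + 2 ^ k) ≤ ε * (ℓ / 2) := by
    nlinarith
  have g7 : |av f (2 ^ B * a) (2 ^ B * b) - av f a b| * (ℓ / 2) ≤ ε * (ℓ / 2) := g4.trans g6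
  exact le_of_mul_le_mul_right g7 (by positivity)

end Pool.Agent.Y965.SI
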