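import Pool.Agent.H499R2.CO.Q5

/-! Coalescence from a general state `(i, r)` with `i ^ 2` and `log |r|` small compared with the time. -/

set_option autoImplicit false

namespace Pool.Agent.Y965.SI

open Finset Filter Topology Pool.Agent.H499R2.CO

/-- First moment of the level, general start. -/
theorem P_iter_lin1' {b c A : ℝ} (hb : 0 ≤ b) (hc : 0 ≤ c) (hA : 0 < A) (a : ℝ) (k i : ℕ)
    (hk : (i : ℝ) ^ 2 + k ≤ A ^ 2) (r : ℤ) :
    (P^[k] (fun s => a + b * (s.1 : ℝ) + c * pw s)) (i, r) ≤ a + b * A + c * (0.98 ^ k * w r + 37.5) := by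
  have h1 : ∀ s : ℕ × ℤ, a + b * (s.1 : ℝ) + c * pw s ≤
      (a + b * A / 2) + b / (2 * A) * (s.1 : ℝ) ^ 2 + c * pw s := by
    intro s
    have : (s.1 : ℝ) ≤ A / 2 + (s.1 : ℝ) ^ 2 / (2 * A) := by
      rw [div_add_div _ _ (by norm_num) (by positivity), le_div_iff₀ (by positivity)]
      nlinarith [sq_nonneg ((s.1 : ℝ) - A)]
    have h2 := mul_le_mul_of_nonneg_left this hb
    have h3 : b * (A / 2 + (s.1 : ℝ) ^ 2 / (2 * A)) = b * A / 2 + b / (2 * A) * (s.1 : ℝ) ^ 2 := by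
      field_simp
    linarith
  refine (P_iter_mono k h1 (i, r)).trans ((P_iter_lin (by positivity) k _ _ hc (i, r)).trans ?_)
  have h4 : b / (2 * A) * ((i : ℝ) ^ 2 + k) ≤ b * A / 2 := by
    have : b / (2 * A) * ((i : ℝ) ^ 2 + k) = b * ((i : ℝ) ^ 2 + k) / (2 * A) := by
      field_simp
    rw [this, div_le_div_iff₀ (by positivity) (by norm_num)]
    nlinarith [mul_le_mul_of_nonneg_left hk hb]
  have h5 : pw (i, r) ≤ w r := by
    unfold pw
    have h6 : (11 / 20 : ℝ) ^ i ≤ 1 := pow_le_one₀ (by norm_num) (by norm_num)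
    have h7 := w_nonneg r
    simp only
    nlinarith
  have h6 : (0 : ℝ) ≤ 0.98 ^ k := by positivity
  simp only at h4 ⊢
  have h7 : c * (0.98 ^ k * pw (i, r) + 37.5 * (1 - 0.98 ^ k)) ≤ c * (0.98 ^ k * w r + 37.5) := by
    apply mul_le_mul_of_nonneg_left _ hc
    have := mul_le_mul_of_nonneg_left h5 h6
    linarith
  linarith

/-- The bound at the start, general start. -/
theorem q_bound' {ε : ℝ} (hε : 0 ≤ ε) {m M : ℕ} (hM : 1 ≤ M)
    (hF : ∀ m', m ≤ m' → ∀ s ∈ FF, q step (0, 0) m' s ≤ ε) (k t i : ℕ) {A : ℝ} (hA : 0 < A)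
    (hk : (i : ℝ) ^ 2 + k ≤ A ^ 2) (r : ℤ) (hr : 0.98 ^ k * w r ≤ 1) :
    q step (0, 0) (k + (t + m)) (i, r) ≤ ε + (A + 480087) / M +
      (40 * (M : ℝ) ^ 2 + 24004400 * M + 4 * A + 2) / (t + 1) := by
  have hMr : (1 : ℝ) ≤ M := by exact_mod_cast hM
  have hT : (0 : ℝ) < (t : ℝ) + 1 := by positivity
  have h1 := q_add_le (t + m) k (i, r)
  have h2 := hit hε (by omega : 0 < M) hF t
  set a : ℝ := ε + 480048 / M + (40 * (M : ℝ) ^ 2 + 2 + 24002400 * M) / (t + 1) with ha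
  set b : ℝ := 1 / M + 4 / (t + 1) with hb
  set c : ℝ := 1 / M + 50 * M / (t + 1) with hc
  have h3 : ∀ s : ℕ × ℤ, q step (0, 0) (t + m) s ≤ a + b * (s.1 : ℝ) + c * pw s := by
    intro s
    refine (h2 s).trans ?_
    have e1 : V s / M ≤ ((s.1 : ℝ) + (pw s + 480048)) / M := by
      apply div_le_div_of_nonneg_right _ (by positivity)
      unfold V
      have := Vp_le s
      linarith
    have e2 : U M s / (t + 1) ≤
        (40 * (M : ℝ) ^ 2 + 2 + 24002400 * M + 4 * (s.1 : ℝ) + 50 * M * pw s) / (t + 1) :=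
      div_le_div_of_nonneg_right (U_le hM s) hT.le
    have e3 : a + b * (s.1 : ℝ) + c * pw s = ε + ((s.1 : ℝ) + (pw s + 480048)) / M +
        (40 * (M : ℝ) ^ 2 + 2 + 24002400 * M + 4 * (s.1 : ℝ) + 50 * M * pw s) / (t + 1) := by
      rw [ha, hb, hc]; ring
    rw [e3]; linarith
  have h4 := P_iter_mono k h3 (i, r)
  have hb0 : 0 ≤ b := by rw [hb]; positivity
  have hc0 : 0 ≤ c := by rw [hc]; positivity
  have h5 := P_iter_lin1' hb0 hc0 hA a k i hk r
  have h6 : c * (0.98 ^ k * w r + 37.5) ≤ c * 39 := mul_le_mul_of_nonneg_left (by linarith) hc0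
  have h7 : a + b * A + c * 39 ≤ ε + (A + 480087) / M +
      (40 * (M : ℝ) ^ 2 + 24004400 * M + 4 * A + 2) / (t + 1) := by
    have e : ε + (A + 480087) / M + (40 * (M : ℝ) ^ 2 + 24004400 * M + 4 * A + 2) / (t + 1)
        - (a + b * A + c * 39) = 50 * M / (t + 1) := by
      rw [ha, hb, hc]; field_simp; ring
    have : (0 : ℝ) ≤ 50 * M / (t + 1) := by positivity
    linarith
  exact h1.trans (h4.trans (h5.trans (by linarith)))

/-- Coalescence within `k` steps with probability at least `1 - ε` from all the states `(i, r)`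
with `i ^ 2 ≤ θ k` and `|r| ≤ 2 ^ (θ k)`. -/
theorem q_gen {ε : ℝ} (hε : 0 < ε) (hε1 : ε ≤ 1) : ∃ θ : ℝ, 0 < θ ∧ θ ≤ 1 ∧ ∃ k0 : ℕ, ∀ k ≥ k0, ∀ (i : ℕ) (r : ℤ),
    (i : ℝ) ^ 2 ≤ θ * k → |(r : ℝ)| ≤ (2 : ℝ) ^ (θ * k) → q step (0, 0) k (i, r) ≤ ε := by
  -- the finite set
  have hfin : ∀ᶠ k in atTop, ∀ s ∈ FF, q step (0, 0) k s ≤ ε / 4 := by
    rw [eventually_all_finite FF_finite]
    intro s _
    filter_upwards [(q_lim s).eventually (gt_mem_nhds (show (0 : ℝ) < ε / 4 by positivity))] with k hk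
    exact hk.le
  obtain ⟨m, hm⟩ := eventually_atTop.1 hfin
  set η : ℝ := ε / 80 with hη
  have hη0 : 0 < η := by positivity
  have hη1 : η ≤ 1 := by rw [hη]; linarith
  have hηε : η * ε ≤ 1 := by nlinarith
  have hη2 : η ^ 2 ≤ ε / 6400 := by
    rw [hη]
    nlinarith
  set θ : ℝ := (η * ε / 80) ^ 2 with hθ
  have hθ0 : 0 < θ := by positivity
  have hθ1 : 35 * θ ≤ 1 / 8 := by
    have h1 : η * ε / 80 ≤ 1 / 80 := by linarith
    have h2 : θ ≤ (1 / 80) ^ 2 := pow_le_pow_left₀ (by positivity) h1 2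
    linarith
  set K : ℝ := 10 ^ 10 / (η * ε) with hK
  have hK1 : 1 ≤ K := by
    rw [hK, le_div_iff₀ (by positivity)]
    linarith
  obtain ⟨k0, hk0⟩ := exists_nat_ge (max (K ^ 2) ((3 * (40 + m) : ℕ) : ℝ))
  refine ⟨θ, hθ0, by linarith, k0, fun k hk i r hi hr => ?_⟩
  have hkr : (k0 : ℝ) ≤ k := by exact_mod_cast hk
  have hkK : K ^ 2 ≤ k := ((le_max_left _ _).trans hk0).trans hkr
  have hkm : 3 * (40 + m) ≤ k := by
    have h1 : ((3 * (40 + m) : ℕ) : ℝ) ≤ k := ((le_max_right _ _).trans hk0).trans hkr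
    exact_mod_cast h1
  set x : ℝ := √ (k : ℝ) with hx
  have hxx : x ^ 2 = k := Real.sq_sqrt (by positivity)
  have hxK : K ≤ x := Real.le_sqrt_of_sq_le hkK
  have hx1 : 1 ≤ x := hK1.trans hxK
  have hx0 : 0 < x := by linarith
  -- parameters
  set u : ℕ := ⌈θ * k⌉₊ with hu
  have hu1 : θ * k ≤ u := Nat.le_ceil _
  have hu2 : (u : ℝ) < θ * k + 1 := Nat.ceil_lt_add_one (by positivity)
  set k1 : ℕ := 35 * u with hk1
  have hk1r : (k1 : ℝ) ≤ 35 * θ * k + 35 := by rw [hk1]; push_cast; linarith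
  set t : ℕ := k / 2 with ht
  have hsum : k1 + (t + m) ≤ k := by
    have h1 : (k1 : ℝ) ≤ (k : ℝ) / 8 + 35 := by
      have : 35 * θ * k ≤ 1 / 8 * k := mul_le_mul_of_nonneg_right hθ1 (by positivity)
      linarith
    have h2 : 8 * k1 ≤ k + 280 := by
      have : (8 : ℝ) * k1 ≤ k + 280 := by linarith
      exact_mod_cast this
    omega
  set M : ℕ := ⌈η * x⌉₊ with hM
  have hM1 : η * x ≤ M := Nat.le_ceil _
  have hM2 : (M : ℝ) < η * x + 1 := Nat.ceil_lt_add_one (by positivity)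
  have hMpos : 1 ≤ M := by
    have : (0 : ℝ) < M := lt_of_lt_of_le (by positivity) hM1
    exact_mod_cast this
  have hηx : 1 ≤ η * x := by
    have h1 : η * K ≤ η * x := mul_le_mul_of_nonneg_left hxK hη0.le
    have h2 : η * K = 10 ^ 10 / ε := by rw [hK]; field_simp
    have h3 : 1 ≤ 10 ^ 10 / ε := by rw [le_div_iff₀ hε]; linarith
    linarith
  have hM3 : (M : ℝ) ≤ 2 * (η * x) := by linarith
  -- contraction
  have hw : 0.98 ^ k1 * w r ≤ 1 := by
    have h1 : w r ≤ 2 ^ u := by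
      unfold w
      have h2 : |(r : ℝ)| ≤ (2 : ℝ) ^ u := by
        refine hr.trans ?_
        rw [← Real.rpow_natCast]
        exact Real.rpow_le_rpow_of_exponent_le (by norm_num) hu1
      have h3 : (1 : ℝ) ≤ 2 ^ u := one_le_pow₀ (by norm_num)
      rw [Real.sqrt_le_left (by positivity)]
      calc |(r : ℝ)| ≤ 2 ^ u := h2
        _ ≤ (2 ^ u) ^ 2 := le_self_pow₀ h3 (by norm_num)
    have h2 : (0.98 : ℝ) ^ k1 ≤ (1 / 2) ^ u := by
      rw [hk1, pow_mul]
      exact pow_le_pow_left₀ (by positivity) pow_098 u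
    calc (0.98 : ℝ) ^ k1 * w r ≤ (1 / 2) ^ u * 2 ^ u :=
          mul_le_mul h2 h1 (w_nonneg r) (by positivity)
      _ = 1 := by rw [← mul_pow]; norm_num
  set A : ℝ := 6 * (η * ε / 80) * x + 6 with hA
  have hA0 : 0 < A := by positivity
  have hkA : (i : ℝ) ^ 2 + (k1 : ℝ) ≤ A ^ 2 := by
    have h1 : A ^ 2 = 36 * θ * x ^ 2 + 72 * ((η * ε / 80) * x) + 36 := by rw [hA, hθ]; ring
    rw [h1, hxx]
    have : 0 ≤ (η * ε / 80) * x := by positivity
    linarith
  have hb := q_bound' (by positivity : (0 : ℝ) ≤ ε / 4) hMpos hm k1 t i hA0 hkA r hw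
  refine (q_anti' (i, r) hsum).trans (hb.trans ?_)
  have hT : x ^ 2 / 2 ≤ (t : ℝ) + 1 := by
    rw [hxx]
    have h1 : k ≤ 2 * t + 1 := by omega
    have h2 : (k : ℝ) ≤ 2 * t + 1 := by exact_mod_cast h1
    linarith
  have hx2 : 0 < x ^ 2 := by positivity
  -- first term
  have t1 : (A + 480087) / M ≤ ε / 4 := by
    rw [div_le_iff₀ (by positivity)]
    have h1 : ε / 4 * (η * x) ≤ ε / 4 * M := mul_le_mul_of_nonneg_left hM1 (by positivity)
    have h2 : 10 ^ 10 ≤ ε * (η * x) := by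
      have h3 : ε * (η * K) ≤ ε * (η * x) := by
        apply mul_le_mul_of_nonneg_left _ hε.le
        exact mul_le_mul_of_nonneg_left hxK hη0.le
      have h4 : ε * (η * K) = 10 ^ 10 := by rw [hK]; field_simp
      linarith
    have h5 : A = 6 / 80 * (ε * (η * x)) + 6 := by rw [hA]; ring
    rw [h5]
    linarith
  -- second term
  have t2 : (40 * (M : ℝ) ^ 2 + 24004400 * M + 4 * A + 2) / (t + 1) ≤ ε / 4 := by
    rw [div_le_iff₀ (by positivity)]
    have h1 : ε / 4 * (x ^ 2 / 2) ≤ ε / 4 * ((t : ℝ) + 1) := mul_le_mul_of_nonneg_left hT (by positivity)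
    have h2 : (M : ℝ) ^ 2 ≤ (2 * (η * x)) ^ 2 := pow_le_pow_left₀ (by positivity) hM3 2
    have h3 : (2 * (η * x)) ^ 2 = 4 * η ^ 2 * x ^ 2 := by ring
    have h4 : η ^ 2 ≤ ε / 6400 := hη2
    have h5 : 40 * (M : ℝ) ^ 2 ≤ ε / 40 * x ^ 2 := by
      have : 4 * η ^ 2 * x ^ 2 ≤ 4 * (ε / 6400) * x ^ 2 := by
        apply mul_le_mul_of_nonneg_right _ hx2.le
        linarith
      rw [h3] at h2
      linarith
    have h6 : 10 ^ 10 ≤ ε * x := by
      have h7 : 10 ^ 10 ≤ ε * (η * x) := by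
        have h3 : ε * (η * K) ≤ ε * (η * x) := by
          apply mul_le_mul_of_nonneg_left _ hε.le
          exact mul_le_mul_of_nonneg_left hxK hη0.le
        have h4 : ε * (η * K) = 10 ^ 10 := by rw [hK]; field_simp
        linarith
      have h8 : ε * (η * x) ≤ ε * (1 * x) := by
        apply mul_le_mul_of_nonneg_left _ hε.le
        exact mul_le_mul_of_nonneg_right hη1 hx0.le
      linarith
    have h7 : 10 ^ 10 * x ≤ ε * x ^ 2 := by
      have := mul_le_mul_of_nonneg_right h6 hx0.le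
      calc 10 ^ 10 * x ≤ ε * x * x := this
        _ = ε * x ^ 2 := by ring
    have h8 : 24004400 * (M : ℝ) ≤ 48008800 * x := by
      have : η * x ≤ 1 * x := mul_le_mul_of_nonneg_right hη1 hx0.le
      linarith
    have h9 : 4 * A + 2 ≤ 60 * x := by
      rw [hA]
      have h10 : η * ε / 80 ≤ 1 := by linarith
      have h11 : (η * ε / 80) * x ≤ 1 * x := mul_le_mul_of_nonneg_right h10 hx0.le
      linarith
    linarith
  linarith

end Pool.Agent.Y965.SI
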