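import Pool.Agent.W41.FU4
import Pool.Agent.Y965.SI.Q

/-! One stage (`k` odd steps) for the sums of an invariant function over the odd integers of an interval. -/

set_option autoImplicit false

namespace Pool.Agent.Y965.SI

open Pool.Agent.H320R2.PD Pool.Agent.H499R2.ND Pool.Agent.H499R2.CO Pool.Agent.W41.FU Finset

/-- mixing for a fixed size, two-sided, for functions -/
theorem mixW {d : ℤ} (hd3 : IsCoprime d 3) {g : ℤ → ℝ} (hg : ∀ x, |g x| ≤ 1) {a b : ℝ} (hab : a ≤ b)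
    (A k m m' T : ℕ) (hm' : m' ≤ k) (hk : 1 ≤ k) (c : ℤ) :
    |∑ w ∈ FWT A k T, WS g a b (k + m) (2 ^ T) (d * Wo w + 3 ^ k * c)
      - (∑ w ∈ FWT A k T, WS g a b m' (2 ^ T) (d * Wo w)) / 3 ^ (k + m - m')|
        ≤ 2 ^ T * ((b - a) / (2 * 3 ^ (k + m)) + 1) * dev (FWT A k T) wwt (fun w => (Wo w : ℤ)) (k + m) m' := by
  classical
  obtain ⟨p, q, hpq⟩ : IsCoprime d ((3 : ℤ) ^ (k + m)) := hd3.pow_right
  set W : Finset ℤ := cls Set.univ a b 0 1 0 with hWdef
  set e : ℤ → ℤ := fun x => p * (2 ^ T * x - 3 ^ k * c) with he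
  have hwt : ∀ w ∈ FWT A k T, wwt w = (1 / 2 : ℝ) ^ T := by
    intro w hw
    unfold FWT at hw
    unfold wwt
    rw [(mem_filter.1 hw).2]
  have hcls : ∀ (n : ℕ) (v : ℤ), cls Set.univ a b n (2 ^ T) v
      = W.filter fun x => (3 : ℤ) ^ n ∣ 2 ^ T * x - v := by
    intro n v
    ext x
    rw [mem_filter, hWdef, mem_cls, mem_cls]
    simp only [pow_zero, isUnit_one, IsUnit.dvd, and_true]
    tauto
  have hcntgen : ∀ (n : ℕ) (u : ℤ → ℤ) (r : ℤ → ℤ),
      (∀ x : ℤ, ∀ w ∈ FWT A k T, ((3 : ℤ) ^ n ∣ 2 ^ T * x - u (Wo w : ℤ) ↔ (3 : ℤ) ^ n ∣ (Wo w : ℤ) - r x)) →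
      ∑ w ∈ FWT A k T, WS g a b n (2 ^ T) (u (Wo w : ℤ))
        = ∑ x ∈ W, g x * (2 ^ T * cnt (FWT A k T) wwt (fun w => (Wo w : ℤ)) n (r x)) := by
    intro n u r hur
    calc ∑ w ∈ FWT A k T, WS g a b n (2 ^ T) (u (Wo w : ℤ))
        = ∑ w ∈ FWT A k T, ∑ x ∈ W, (if (3 : ℤ) ^ n ∣ 2 ^ T * x - u (Wo w : ℤ) then g x else 0) := by
          apply sum_congr rfl
          intro w _
          unfold WS
          rw [hcls, sum_filter]
      _ = ∑ x ∈ W, ∑ w ∈ FWT A k T, (if (3 : ℤ) ^ n ∣ 2 ^ T * x - u (Wo w : ℤ) then g x else 0) :=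
          sum_comm
      _ = _ := by
          apply sum_congr rfl
          intro x _
          unfold cnt
          rw [mul_sum, mul_sum]
          apply sum_congr rfl
          intro w hw
          rw [hwt w hw]
          by_cases h : (3 : ℤ) ^ n ∣ 2 ^ T * x - u (Wo w : ℤ)
          · rw [if_pos h, if_pos ((hur x w hw).1 h), ← mul_pow]; norm_num
          · rw [if_neg h, if_neg (fun h' => h ((hur x w hw).2 h')), mul_zero, mul_zero]
  have hpcop : IsCoprime ((3 : ℤ) ^ (k + m)) p := ⟨q, d, by linarith⟩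
  have hdcop : IsCoprime ((3 : ℤ) ^ (k + m)) d := ⟨q, p, by linarith⟩
  have hfull := hcntgen (k + m) (fun W => d * W + 3 ^ k * c) e (by
    intro x w _
    constructor
    · intro h
      apply hdcop.dvd_of_dvd_mul_left
      have h1 := dvd_sub (Dvd.intro (q * (2 ^ T * x - 3 ^ k * c)) rfl :
        (3 : ℤ) ^ (k + m) ∣ 3 ^ (k + m) * (q * (2 ^ T * x - 3 ^ k * c))) h
      have e1 : d * ((Wo w : ℤ) - e x) = 3 ^ (k + m) * (q * (2 ^ T * x - 3 ^ k * c))
          - (2 ^ T * x - (d * (Wo w : ℤ) + 3 ^ k * c)) := by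
        rw [he]
        have : d * p = 1 - q * 3 ^ (k + m) := by linarith
        calc d * ((Wo w : ℤ) - p * (2 ^ T * x - 3 ^ k * c))
            = d * (Wo w : ℤ) - (d * p) * (2 ^ T * x - 3 ^ k * c) := by ring
          _ = _ := by rw [this]; ring
      rw [e1]; exact h1
    · intro h
      have h1 := dvd_sub (Dvd.intro (q * (2 ^ T * x - 3 ^ k * c)) rfl :
        (3 : ℤ) ^ (k + m) ∣ 3 ^ (k + m) * (q * (2 ^ T * x - 3 ^ k * c))) (h.mul_left d)
      have e1 : (2 ^ T * x - (d * (Wo w : ℤ) + 3 ^ k * c)) = 3 ^ (k + m) * (q * (2 ^ T * x - 3 ^ k * c))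
          - d * ((Wo w : ℤ) - e x) := by
        rw [he]
        have : d * p = 1 - q * 3 ^ (k + m) := by linarith
        have e2 : d * ((Wo w : ℤ) - p * (2 ^ T * x - 3 ^ k * c))
            = d * (Wo w : ℤ) - (d * p) * (2 ^ T * x - 3 ^ k * c) := by ring
        rw [e2, this]; ring
      rw [e1]; exact h1)
  have hlow := hcntgen m' (fun W => d * W) e (by
    intro x w _
    have hdm : (3 : ℤ) ^ m' ∣ 3 ^ (k + m) := pow_dvd_pow 3 (by omega)
    have hdk : (3 : ℤ) ^ m' ∣ 3 ^ k := pow_dvd_pow 3 hm'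
    have hdcop' : IsCoprime ((3 : ℤ) ^ m') d := hd3.symm.pow_left
    have key : (3 : ℤ) ^ m' ∣ (2 ^ T * x - d * (Wo w : ℤ)) + d * ((Wo w : ℤ) - e x) := by
      have : (2 ^ T * x - d * (Wo w : ℤ)) + d * ((Wo w : ℤ) - e x)
          = 3 ^ k * c + 3 ^ (k + m) * (q * (2 ^ T * x - 3 ^ k * c)) := by
        rw [he]
        have h1 : d * p = 1 - q * 3 ^ (k + m) := by linarith
        calc (2 ^ T * x - d * (Wo w : ℤ)) + d * ((Wo w : ℤ) - p * (2 ^ T * x - 3 ^ k * c))
            = 2 ^ T * x - (d * p) * (2 ^ T * x - 3 ^ k * c) := by ring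
          _ = _ := by rw [h1]; ring
      rw [this]
      exact dvd_add (hdk.mul_right _) (hdm.mul_right _)
    constructor
    · intro h
      apply hdcop'.dvd_of_dvd_mul_left
      have := dvd_sub key h
      rwa [add_sub_cancel_left] at this
    · intro h
      have := dvd_sub key (h.mul_left d)
      rwa [add_sub_cancel_right] at this)
  rw [hfull, hlow]
  set n := k + m with hn
  have hdiff : ∑ x ∈ W, |cnt (FWT A k T) wwt (fun w => (Wo w : ℤ)) n (e x)
        - cnt (FWT A k T) wwt (fun w => (Wo w : ℤ)) m' (e x) / 3 ^ (n - m')|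
      ≤ ((b - a) / (2 * 3 ^ n) + 1) * dev (FWT A k T) wwt (fun w => (Wo w : ℤ)) n m' := by
    unfold dev
    apply sum_periodic_le (g := fun c => |cnt (FWT A k T) wwt (fun w => (Wo w : ℤ)) n c
        - cnt (FWT A k T) wwt (fun w => (Wo w : ℤ)) m' c / 3 ^ (n - m')|)
    · intro r
      have hpc : IsCoprime (p * 2 ^ T) 3 := by
        apply IsCoprime.mul_left
        · have : IsCoprime p ((3 : ℤ) ^ (k + m)) := hpcop.symm
          exact this.of_isCoprime_of_dvd_right (dvd_pow_self 3 (by omega))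
        · exact cop_two_pow T
      have h1 := cls_card_le Set.univ hab n hpc (p * 3 ^ k * c + r)
      have h2 : W.filter (fun x => (3 : ℤ) ^ n ∣ e x - r)
          ⊆ cls Set.univ a b n (p * 2 ^ T) (p * 3 ^ k * c + r) := by
        intro x hx
        rw [mem_filter, hWdef, mem_cls] at hx
        rw [mem_cls]
        refine ⟨hx.1.1, hx.1.2.1, hx.1.2.2.1, ?_⟩
        have := hx.2
        rw [he] at this
        convert this using 1
        ring
      have h4 : ((W.filter (fun x => (3 : ℤ) ^ n ∣ e x - r)).card : ℝ)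
          ≤ (cls Set.univ a b n (p * 2 ^ T) (p * 3 ^ k * c + r)).card := by
        exact_mod_cast card_le_card h2
      refine h4.trans (h1.trans (le_of_eq ?_))
      ring
    · intro c; exact abs_nonneg _
    · intro c c' hcc
      have h1 := cnt_congr (s := FWT A k T) (wt := wwt) (fun w => (Wo w : ℤ)) n hcc
      have h2 := cnt_congr (s := FWT A k T) (wt := wwt) (fun w => (Wo w : ℤ)) m'
        ((pow_dvd_pow 3 (by omega : m' ≤ n)).trans hcc)
      rw [h1, h2]
  have hT : (0 : ℝ) < 2 ^ T := by positivity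
  have e0 : ∑ x ∈ W, g x * (2 ^ T * cnt (FWT A k T) wwt (fun w => (Wo w : ℤ)) n (e x))
      - (∑ x ∈ W, g x * (2 ^ T * cnt (FWT A k T) wwt (fun w => (Wo w : ℤ)) m' (e x))) / 3 ^ (n - m')
      = ∑ x ∈ W, g x * (2 ^ T * (cnt (FWT A k T) wwt (fun w => (Wo w : ℤ)) n (e x)
        - cnt (FWT A k T) wwt (fun w => (Wo w : ℤ)) m' (e x) / 3 ^ (n - m'))) := by
    rw [sum_div, ← sum_sub_distrib]
    apply sum_congr rfl
    intro x _
    ring
  rw [e0]
  refine (abs_sum_le_sum_abs _ _).trans ?_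
  calc ∑ x ∈ W, |g x * (2 ^ T * (cnt (FWT A k T) wwt (fun w => (Wo w : ℤ)) n (e x)
        - cnt (FWT A k T) wwt (fun w => (Wo w : ℤ)) m' (e x) / 3 ^ (n - m')))|
      ≤ ∑ x ∈ W, 2 ^ T * |cnt (FWT A k T) wwt (fun w => (Wo w : ℤ)) n (e x)
        - cnt (FWT A k T) wwt (fun w => (Wo w : ℤ)) m' (e x) / 3 ^ (n - m')| := by
        apply sum_le_sum
        intro x _
        rw [abs_mul, abs_mul, abs_of_pos hT]
        have h1 := hg x
        have h2 : 0 ≤ 2 ^ T * |cnt (FWT A k T) wwt (fun w => (Wo w : ℤ)) n (e x)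
          - cnt (FWT A k T) wwt (fun w => (Wo w : ℤ)) m' (e x) / 3 ^ (n - m')| := by positivity
        nlinarith
    _ = 2 ^ T * ∑ x ∈ W, |cnt (FWT A k T) wwt (fun w => (Wo w : ℤ)) n (e x)
        - cnt (FWT A k T) wwt (fun w => (Wo w : ℤ)) m' (e x) / 3 ^ (n - m')| := by
        rw [mul_sum]
    _ ≤ _ := by
        rw [mul_assoc (2 ^ T)]
        exact mul_le_mul_of_nonneg_left hdiff hT.le


/-- bounded functions with the same value at `x` and `T x` -/
def InvF (d : ℤ) (f : ℤ → ℝ) : Prop := (∀ x, |f x| ≤ 1) ∧ ∀ x, f (Tz d x) = f x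

theorem InvF.iter {d : ℤ} {f : ℤ → ℝ} (hf : InvF d f) (t : ℕ) : ∀ x, f ((Tz d)^[t] x) = f x := by
  induction t with
  | zero => intro x; rfl
  | succ t ih => intro x; rw [Function.iterate_succ_apply, ih, hf.2]

theorem InvF.word {d : ℤ} (hd : Odd d) {f : ℤ → ℝ} (hf : InvF d f) {w : List ℕ} (hw : ∀ a ∈ w, 1 ≤ a)
    (hne : w ≠ []) {M x : ℤ} (hx : Odd x) (h : Vw d w M x) : f M = f x := by
  have hM : Odd M := Vw_odd_left hd hw hne h
  have h1 : (Tz d)^[w.sum] M = x := iter_word' hd w hw M x hM hx h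
  rw [← h1, hf.iter]

theorem InvF.coal {d : ℤ} (hd : d % 2 = 1) {f : ℤ → ℝ} (hf : InvF d f) {k i : ℕ} {r x : ℤ}
    (h : ¬ surv d k (i, r) x) : f (3 ^ i * x + d * r) = f x := by
  obtain ⟨t, -, ht⟩ := Pool.Agent.H499R2.CO.coal hd k i r x h
  rw [← hf.iter t (3 ^ i * x + d * r), ← ht, hf.iter]

/-- the sum of `f` over the odd integers of `[a, b)` -/
noncomputable def OS (f : ℤ → ℝ) (a b : ℝ) : ℝ := WS f a b 0 1 0

theorem OS_abs {f : ℤ → ℝ} (hf : ∀ x, |f x| ≤ 1) {a b : ℝ} (hab : a ≤ b) : |OS f a b| ≤ (b - a) / 2 + 1 := by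
  have h1 := WS_abs hf a b 0 1 0
  have h2 := cls_card_le Set.univ hab 0 isCoprime_one_left 0
  unfold OS
  rw [pow_zero, mul_one] at h2
  exact h1.trans h2

/-- starting points in `[a,b)` with the word `w` -/
noncomputable def XW (d : ℤ) (a b : ℝ) (k : ℕ) (w : List ℕ) : Finset ℤ :=
  (Ico ⌈a⌉ ⌈b⌉).filter fun M => (2 : ℤ) ^ (w.sum + 1) ∣ 3 ^ k * M - (2 ^ w.sum - d * Wo w)

theorem mem_XW {d : ℤ} {a b : ℝ} {k : ℕ} {w : List ℕ} {M : ℤ} :
    M ∈ XW d a b k w ↔ (a ≤ M ∧ (M : ℝ) < b) ∧ (2 : ℤ) ^ (w.sum + 1) ∣ 3 ^ k * M - (2 ^ w.sum - d * Wo w) := by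
  unfold XW; rw [mem_filter, mem_win]

theorem XW_word {d : ℤ} {a b : ℝ} {k : ℕ} {w : List ℕ} {M : ℤ} (hl : w.length = k)
    (h : M ∈ XW d a b k w) : ∃ x : ℤ, Odd x ∧ Vw d w M x := by
  rw [mem_XW] at h
  obtain ⟨t, ht⟩ := h.2
  refine ⟨1 + 2 * t, ⟨t, by ring⟩, ?_⟩
  unfold Vw
  rw [hl]
  rw [pow_succ] at ht
  linear_combination ht

theorem XW_card (d : ℤ) {a b : ℝ} (k : ℕ) (w : List ℕ) :
    (b - a) / 2 * wwt w - 1 ≤ ((XW d a b k w).card : ℝ) := by
  obtain ⟨c', hc'⟩ := crt (w.sum + 1) 0 (g := 3 ^ k) (Odd.pow (by decide)) isCoprime_one_left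
    (2 ^ w.sum - d * Wo w) 0
  have heq : XW d a b k w = ap a b (2 ^ (w.sum + 1) * 3 ^ 0) c' := by
    ext M; rw [mem_XW, mem_ap, ← hc']
    simp
  rw [heq]
  have := le_ap_card a b (q := 2 ^ (w.sum + 1) * 3 ^ 0) (by positivity) c'
  refine le_trans (le_of_eq ?_) this
  unfold wwt
  push_cast
  rw [one_div, inv_pow, pow_succ]
  field_simp

/-- the points with the word `w` and their endpoints -/
theorem word_bijW {d : ℤ} (hd : Odd d) {a b : ℝ} (k : ℕ) (hk : 1 ≤ k) {w : List ℕ} (hlen : w.length = k)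
    (hlet : ∀ e ∈ w, 1 ≤ e) {f : ℤ → ℝ} (hf : InvF d f) :
    ∑ M ∈ XW d a b k w, f M
      = WS f (a * 3 ^ k / 2 ^ w.sum + d * Wo w / 2 ^ w.sum) (b * 3 ^ k / 2 ^ w.sum + d * Wo w / 2 ^ w.sum)
        k (2 ^ w.sum) (d * Wo w) := by
  have hne : w ≠ [] := by
    rintro rfl; simp at hlen; omega
  set T := w.sum with hT
  have h2T : (0 : ℝ) < 2 ^ T := by positivity
  have h3k : (0 : ℝ) < 3 ^ k := by positivity
  unfold WS
  -- forward map
  have hfw : ∀ M ∈ XW d a b k w, ∃ x : ℤ, Odd x ∧ 3 ^ k * M + d * (Wo w : ℤ) = 2 ^ T * x ∧ Vw d w M x := by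
    intro M hM
    obtain ⟨x, hx, hV⟩ := XW_word hlen hM
    refine ⟨x, hx, ?_, hV⟩
    unfold Vw at hV
    rw [hlen] at hV
    exact hV
  apply sum_bij' (fun M _ => (3 ^ k * M + d * (Wo w : ℤ)) / 2 ^ T) (fun x _ => (2 ^ T * x - d * (Wo w : ℤ)) / 3 ^ k)
  · -- maps to
    intro M hM
    obtain ⟨x, hx, hV, -⟩ := hfw M hM
    rw [mem_XW] at hM
    have hx2 : (3 ^ k * M + d * Wo w) / 2 ^ T = x := by
      rw [hV, Int.mul_ediv_cancel_left _ (by positivity)]
    rw [hx2, mem_cls]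
    have hVR : (3 : ℝ) ^ k * M + d * Wo w = 2 ^ T * x := by exact_mod_cast hV
    have hxR : (x : ℝ) = (3 ^ k * M + d * Wo w) / 2 ^ T := by
      rw [eq_div_iff h2T.ne']; linarith
    refine ⟨⟨?_, ?_⟩, hx, Set.mem_univ _, ?_⟩
    · rw [hxR, ← add_div]
      apply div_le_div_of_nonneg_right _ h2T.le
      have := mul_le_mul_of_nonneg_right hM.1.1 h3k.le
      linarith
    · rw [hxR, ← add_div]
      apply div_lt_div_of_pos_right _ h2T
      have := mul_lt_mul_of_pos_right hM.1.2 h3k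
      linarith
    · rw [← hV, show 3 ^ k * M + d * (Wo w : ℤ) - d * Wo w = 3 ^ k * M by ring]
      exact dvd_mul_right _ _
  · -- back
    intro x hx
    rw [mem_cls] at hx
    obtain ⟨⟨hx1, hx2⟩, hxo, -, hxd⟩ := hx
    obtain ⟨q, hq⟩ := hxd
    have e1 : 2 ^ T * x - d * (Wo w : ℤ) = 3 ^ k * q := hq
    have e2 : (2 ^ T * x - d * (Wo w : ℤ)) / 3 ^ k = q := by
      rw [e1, Int.mul_ediv_cancel_left _ (by positivity)]
    rw [e2, mem_XW]
    have e1R : (2 : ℝ) ^ T * x - d * (Wo w : ℝ) = 3 ^ k * q := by exact_mod_cast e1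
    refine ⟨⟨?_, ?_⟩, ?_⟩
    · rw [← add_div, div_le_iff₀ h2T] at hx1
      have h1 : 3 ^ k * a ≤ 3 ^ k * (q : ℝ) := by rw [← e1R]; linarith
      exact le_of_mul_le_mul_left h1 h3k
    · rw [← add_div, lt_div_iff₀ h2T] at hx2
      have h1 : 3 ^ k * (q : ℝ) < 3 ^ k * b := by rw [← e1R]; linarith
      exact lt_of_mul_lt_mul_left h1 h3k.le
    · obtain ⟨t, ht⟩ := hxo
      refine ⟨t, ?_⟩
      rw [← e1, ht, pow_succ]; ring
  · -- left inverse
    intro M hM
    obtain ⟨x, hx, hV, -⟩ := hfw M hM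
    have hx2 : (3 ^ k * M + d * Wo w) / 2 ^ T = x := by
      rw [hV, Int.mul_ediv_cancel_left _ (by positivity)]
    rw [hx2]
    have : 2 ^ T * x - d * (Wo w : ℤ) = 3 ^ k * M := by linarith
    rw [this, Int.mul_ediv_cancel_left _ (by positivity)]
  · -- right inverse
    intro x hx
    rw [mem_cls] at hx
    obtain ⟨q, hq⟩ := hx.2.2.2
    have e1 : 2 ^ T * x - d * (Wo w : ℤ) = 3 ^ k * q := hq
    have e2 : (2 ^ T * x - d * (Wo w : ℤ)) / 3 ^ k = q := by
      rw [e1, Int.mul_ediv_cancel_left _ (by positivity)]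
    rw [e2]
    have : 3 ^ k * q + d * (Wo w : ℤ) = 2 ^ T * x := by linarith
    rw [this, Int.mul_ediv_cancel_left _ (by positivity)]
  · -- values
    intro M hM
    obtain ⟨x, hx, hV, hVw⟩ := hfw M hM
    have hx2 : (3 ^ k * M + d * Wo w) / 2 ^ T = x := by
      rw [hV, Int.mul_ediv_cancel_left _ (by positivity)]
    rw [hx2]
    exact hf.word hd hlet hne hx hVw

/-- one word: comparison with the unshifted window -/
theorem word_cmpW {d : ℤ} (hd : Odd d) {a b : ℝ} (k : ℕ) (hk : 1 ≤ k) {w : List ℕ} (hlen : w.length = k)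
    (hlet : ∀ e ∈ w, 1 ≤ e) {f : ℤ → ℝ} (hf : InvF d f) :
    |∑ M ∈ XW d a b k w, f M
      - WS f (a * 3 ^ k / 2 ^ w.sum) (b * 3 ^ k / 2 ^ w.sum) k (2 ^ w.sum) (d * Wo w)|
      ≤ |(d : ℝ)| + 2 := by
  rw [word_bijW hd k hk hlen hlet hf]
  set T := w.sum with hT
  have h2T : (0 : ℝ) < 2 ^ T := by positivity
  have h3k : (0 : ℝ) < 3 ^ k := by positivity
  set s : ℝ := d * Wo w / 2 ^ T with hs
  have hsabs : |s| ≤ |(d : ℝ)| * (3 / 2) ^ k := by
    rw [hs, abs_div, abs_mul, abs_of_pos h2T, div_le_iff₀ h2T, mul_assoc]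
    apply mul_le_mul_of_nonneg_left _ (abs_nonneg _)
    rw [abs_of_nonneg (by positivity)]
    have := Wo_le hlet
    rw [hlen] at this
    have h3 : (2 : ℝ) ^ T * ((3 / 2 : ℝ) ^ k - 1) ≤ (3 / 2) ^ k * 2 ^ T := by
      have : (0 : ℝ) < 2 ^ T := h2T
      nlinarith
    exact this.trans h3
  have h5 : |(d : ℝ)| * (3 / 2) ^ k / (2 * 3 ^ k) ≤ |(d : ℝ)| / 2 := by
    rw [div_le_iff₀ (by positivity)]
    have e : |(d : ℝ)| / 2 * (2 * 3 ^ k) = |(d : ℝ)| * 3 ^ k := by ring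
    rw [e]
    apply mul_le_mul_of_nonneg_left _ (abs_nonneg _)
    exact pow_le_pow_left₀ (by norm_num) (by norm_num) k
  have h1 := shiftW hf.1 (a := a * 3 ^ k / 2 ^ T) (b := b * 3 ^ k / 2 ^ T) hsabs k (cop_two_pow T) (d * Wo w)
  refine h1.trans ?_
  linarith

/-- from one class modulo `3 ^ m` to all odd integers -/
theorem class_all {d : ℤ} (hd : d % 2 = 1) (hdd : d * d = 1) {f : ℤ → ℝ} (hf : InvF d f) {a b : ℝ} (hab : a ≤ b)
    (m : ℕ) {u : ℤ} (hu : IsCoprime u 3) (v : ℤ) (k : ℕ) {ε : ℝ}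
    (hQ : ∀ h : ℤ, |(h : ℝ)| ≤ 2 * 3 ^ m → q step (0, 0) k (0, h) ≤ ε) :
    |OS f a b - 3 ^ m * WS f a b m u v| ≤ 3 ^ m * (2 * ε * ((b - a) / 3 ^ m + 2 ^ k) + 4) := by
  classical
  obtain ⟨p, q', hpq⟩ : IsCoprime u ((3 : ℤ) ^ m) := hu.pow_right
  have hcop : IsCoprime ((3 : ℤ) ^ m) u := ⟨q', p, by linarith⟩
  have key : ∀ x : ℤ, (3 : ℤ) ^ m ∣ u * x - v ↔ (3 : ℤ) ^ m ∣ 1 * x - p * v := by
    intro x
    have h1 : u * p = 1 - q' * 3 ^ m := by linarith
    constructor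
    · intro h
      apply hcop.dvd_of_dvd_mul_left
      have : u * (1 * x - p * v) = (u * x - v) + 3 ^ m * (q' * v) := by
        calc u * (1 * x - p * v) = u * x - (u * p) * v := by ring
          _ = _ := by rw [h1]; ring
      rw [this]
      exact dvd_add h (dvd_mul_right _ _)
    · intro h
      have : u * x - v = u * (1 * x - p * v) - 3 ^ m * (q' * v) := by
        have h2 : u * (1 * x - p * v) = u * x - (u * p) * v := by ring
        rw [h2, h1]; ring
      rw [this]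
      exact dvd_sub (h.mul_left u) (dvd_mul_right _ _)
  have hc : cls Set.univ a b m u v = cls Set.univ a b m 1 (p * v) := by
    ext x
    rw [mem_cls, mem_cls, key]
  set c : ℤ := p * v with hcdef
  have hWS : WS f a b m u v = WS f a b m 1 c := by unfold WS; rw [hc]
  rw [hWS]
  -- one shift
  have hone : ∀ h' ∈ range (3 ^ m), |WS f a b m 1 (c + 2 * (h' : ℤ)) - WS f a b m 1 c|
      ≤ 2 * ε * ((b - a) / 3 ^ m + 2 ^ k) + 4 := by
    intro h' hh'
    rw [mem_range] at hh'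
    have hhR : (h' : ℝ) ≤ 3 ^ m := by
      have h1 : ((h' : ℕ) : ℝ) ≤ ((3 ^ m : ℕ) : ℝ) := by exact_mod_cast hh'.le
      push_cast at h1
      exact h1
    have e1 : WS f a b m 1 (c + 2 * (h' : ℤ)) = WS (fun x => f (x + 2 * (h' : ℤ))) (a + (-(2 * (h' : ℝ)))) (b + (-(2 * (h' : ℝ)))) m 1 c := by
      unfold WS
      apply sum_bij' (fun x _ => x - 2 * (h' : ℤ)) (fun y _ => y + 2 * (h' : ℤ))
      · intro x hx
        rw [mem_cls] at hx
        rw [mem_cls]
        push_cast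
        refine ⟨⟨by linarith [hx.1.1], by linarith [hx.1.2]⟩, ?_, Set.mem_univ _, ?_⟩
        · obtain ⟨t, ht⟩ := hx.2.1
          exact ⟨t - h', by rw [ht]; ring⟩
        · have h1 := hx.2.2.2
          have e : 1 * (x - 2 * (h' : ℤ)) - c = 1 * x - (c + 2 * (h' : ℤ)) := by ring
          rw [e]; exact h1
      · intro x hx
        rw [mem_cls] at hx
        rw [mem_cls]
        push_cast
        refine ⟨⟨by linarith [hx.1.1], by linarith [hx.1.2]⟩, ?_, Set.mem_univ _, ?_⟩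
        · obtain ⟨t, ht⟩ := hx.2.1
          exact ⟨t + h', by rw [ht]; ring⟩
        · have h1 := hx.2.2.2
          have e : 1 * (x + 2 * (h' : ℤ)) - (c + 2 * (h' : ℤ)) = 1 * x - c := by ring
          rw [e]; exact h1
      · intro x _; ring
      · intro y _; ring
      · intro x _; rw [sub_add_cancel]
    rw [e1]
    have h0 : (0 : ℝ) ≤ 2 * (h' : ℝ) := by positivity
    have h2 := shiftW (g := fun x => f (x + 2 * (h' : ℤ))) (fun x => hf.1 _) (a := a) (b := b)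
      (s := -(2 * (h' : ℝ))) (K := 2 * 3 ^ m) (by rw [abs_neg, abs_of_nonneg h0]; linarith) m isCoprime_one_left c
    have e2 : 2 * ((2 * (3 : ℝ) ^ m) / (2 * 3 ^ m) + 1) = 4 := by
      rw [div_self (by positivity)]; norm_num
    rw [e2] at h2
    have h3 : |WS (fun x => f (x + 2 * (h' : ℤ))) a b m 1 c - WS f a b m 1 c| ≤ 2 * ε * ((b - a) / 3 ^ m + 2 ^ k) := by
      unfold WS
      rw [← sum_sub_distrib]
      refine (abs_sum_le_sum_abs _ _).trans ?_
      have hb : ∀ x ∈ cls Set.univ a b m 1 c, |f (x + 2 * (h' : ℤ)) - f x|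
          ≤ if surv d k (0, d * (2 * (h' : ℤ))) x then 2 else 0 := by
        intro x _
        split_ifs with hs
        · have a1 := hf.1 x
          have a2 := hf.1 (x + 2 * (h' : ℤ))
          have a3 := abs_sub (f (x + 2 * (h' : ℤ))) (f x)
          linarith
        · have h4 := hf.coal hd hs
          have e : (3 : ℤ) ^ 0 * x + d * (d * (2 * (h' : ℤ))) = x + 2 * (h' : ℤ) := by
            have : d * (d * (2 * (h' : ℤ))) = (d * d) * (2 * (h' : ℤ)) := by ring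
            rw [this, hdd]; ring
          rw [e] at h4
          rw [h4, sub_self, abs_zero]
      refine (sum_le_sum hb).trans ?_
      rw [← sum_filter, sum_const, nsmul_eq_mul]
      have h5 := surv_card hd k (0, d * (2 * (h' : ℤ))) hab m isCoprime_one_left c
      have h6 : q step (0, 0) k (0, d * (2 * (h' : ℤ))) ≤ ε := by
        apply hQ
        have hd1 : |(d : ℝ)| = 1 := by
          have h7 : (d : ℝ) * d = 1 := by exact_mod_cast hdd
          have h8 : |(d : ℝ)| * |(d : ℝ)| = 1 := by rw [← abs_mul, h7, abs_one]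
          nlinarith [abs_nonneg (d : ℝ)]
        push_cast
        rw [abs_mul, hd1, one_mul, abs_of_nonneg h0]
        linarith
      have h7 : 0 ≤ (b - a) / 3 ^ m + 2 ^ k := add_nonneg (div_nonneg (by linarith) (by positivity)) (by positivity)
      have h8 := mul_le_mul_of_nonneg_right h6 h7
      linarith
    have h4 := abs_sub_le (WS (fun x => f (x + 2 * (h' : ℤ))) (a + (-(2 * (h' : ℝ)))) (b + (-(2 * (h' : ℝ)))) m 1 c)
      (WS (fun x => f (x + 2 * (h' : ℤ))) a b m 1 c) (WS f a b m 1 c)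
    linarith
  -- all classes
  have hall : OS f a b = ∑ h' ∈ range (3 ^ m), WS f a b m 1 (c + 2 * (h' : ℤ)) := by
    unfold OS WS
    have h3m : (0 : ℤ) < 3 ^ m := by positivity
    -- the shift of a class
    obtain ⟨e2, e3, he23⟩ : IsCoprime (2 : ℤ) ((3 : ℤ) ^ m) := IsCoprime.pow_right ⟨-1, 1, by norm_num⟩
    set sh : ℤ → ℕ := fun x => ((e2 * (x - c)) % 3 ^ m).toNat with hsh
    have hsh' : ∀ x, ((sh x : ℕ) : ℤ) = (e2 * (x - c)) % 3 ^ m := by
      intro x
      rw [hsh]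
      exact Int.toNat_of_nonneg (Int.emod_nonneg _ h3m.ne')
    have hmaps : ∀ x ∈ cls Set.univ a b 0 1 0, sh x ∈ range (3 ^ m) := by
      intro x _
      rw [mem_range]
      have := Int.emod_lt_of_pos (e2 * (x - c)) h3m
      rw [← hsh'] at this
      exact_mod_cast this
    rw [← sum_fiberwise_of_maps_to hmaps]
    apply sum_congr rfl
    intro h' hh'
    rw [mem_range] at hh'
    apply sum_congr _ (fun _ _ => rfl)
    ext x
    rw [mem_filter, mem_cls, mem_cls]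
    have hiff : sh x = h' ↔ (3 : ℤ) ^ m ∣ 1 * x - (c + 2 * (h' : ℤ)) := by
      have e1 : sh x = h' ↔ (e2 * (x - c)) % 3 ^ m = (h' : ℤ) := by
        rw [← hsh']; norm_cast
      rw [e1]
      have hlt : (h' : ℤ) < 3 ^ m := by exact_mod_cast hh'
      have h0 : (0 : ℤ) ≤ h' := Int.natCast_nonneg _
      constructor
      · intro h
        have h1 : (3 : ℤ) ^ m ∣ e2 * (x - c) - h' := by
          rw [← h]; exact Int.dvd_self_sub_emod
        have e : 1 * x - (c + 2 * (h' : ℤ)) = 2 * (e2 * (x - c) - h') + 3 ^ m * (e3 * (x - c)) := by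
          linear_combination (-(x - c)) * he23
        rw [e]
        exact dvd_add (h1.mul_left 2) (dvd_mul_right _ _)
      · intro h
        have h1 : (3 : ℤ) ^ m ∣ e2 * (x - c) - h' := by
          have e : e2 * (x - c) - h' = e2 * (1 * x - (c + 2 * (h' : ℤ))) - 3 ^ m * (e3 * h') := by
            linear_combination (h' : ℤ) * he23
          rw [e]
          exact dvd_sub (h.mul_left e2) (dvd_mul_right _ _)
        have h2 := Int.emod_emod_of_dvd (e2 * (x - c)) (dvd_refl ((3 : ℤ) ^ m))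
        have h3 : (e2 * (x - c)) % 3 ^ m = (h' : ℤ) % 3 ^ m := Int.ModEq.symm ((Int.modEq_iff_dvd).2 h1)
        rw [h3, Int.emod_eq_of_lt h0 hlt]
    rw [hiff]
    simp only [pow_zero, isUnit_one, IsUnit.dvd, and_true, Set.mem_univ, true_and]
    tauto
  have e0 : OS f a b - 3 ^ m * WS f a b m 1 c = ∑ h' ∈ range (3 ^ m), (WS f a b m 1 (c + 2 * (h' : ℤ)) - WS f a b m 1 c) := by
    rw [sum_sub_distrib, sum_const, card_range, nsmul_eq_mul, hall]
    push_cast
    ring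
  rw [e0]
  refine (abs_sum_le_sum_abs _ _).trans ((sum_le_sum hone).trans ?_)
  rw [sum_const, card_range, nsmul_eq_mul]
  push_cast
  exact le_rfl

end Pool.Agent.Y965.SI
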