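import Pool.Agent.Y965.SI.St1

/-! One stage, assembled. -/

set_option autoImplicit false

namespace Pool.Agent.Y965.SI

open Pool.Agent.H320R2.PD Pool.Agent.H499R2.ND Pool.Agent.H499R2.CO Pool.Agent.W41.FU Finset

/-- the total mixing defect -/
noncomputable def DD (cap k m' : ℕ) : ℝ :=
  ∑ T ∈ range (k * cap + 1), dev (FWT cap k T) wwt (fun w => (Wo w : ℤ)) k m'

theorem stageW {d : ℤ} (hd : Odd d) (hd3 : IsCoprime d 3) (hdd : d * d = 1) {f : ℤ → ℝ} (hf : InvF d f)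
    {a b : ℝ} (hab : a ≤ b) (cap k m' Tl Tm k' : ℕ) (hk : 1 ≤ k) (hm' : m' ≤ k) (hTm : Tm ≤ k * cap)
    {ε : ℝ} (hε : 0 ≤ ε)
    (hQ : ∀ h : ℤ, |(h : ℝ)| ≤ 2 * 3 ^ m' → q step (0, 0) k' (0, h) ≤ ε) :
    |OS f a b - ∑ w ∈ GW cap k Tl Tm, OS f (a * 3 ^ k / 2 ^ w.sum) (b * 3 ^ k / 2 ^ w.sum) / 3 ^ k|
      ≤ ((b - a) / 2 + 2 ^ Tm) * DD cap k m' + (b - a) / 2 * (1 - ∑ w ∈ GW cap k Tl Tm, wwt w)
        + 1 + (|(d : ℝ)| + 3) * 2 ^ Tm + ((4 + 2 * ε * 2 ^ k') * 2 ^ Tm + 2 * ε * (b - a)) := by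
  classical
  have hd2 : d % 2 = 1 := Int.odd_iff.1 hd
  set GG := GW cap k Tl Tm with hGG
  set All := cls Set.univ a b 0 1 0 with hAll
  have hf1 := hf.1
  have hGprop : ∀ w ∈ GG, w.length = k ∧ (∀ e ∈ w, 1 ≤ e) ∧ w.sum ≤ Tm := by
    intro w hw
    rw [hGG] at hw; unfold GW at hw
    rw [mem_filter] at hw
    exact ⟨(FW_props hw.1).1, (FW_props hw.1).2, hw.2.2⟩
  have hne : ∀ w ∈ GG, w ≠ [] := by
    intro w hw h
    have := (hGprop w hw).1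
    rw [h] at this; simp at this; omega
  have hXall : ∀ w ∈ GG, XW d a b k w ⊆ All := by
    intro w hw M hM
    obtain ⟨x, hx, hV⟩ := XW_word (hGprop w hw).1 hM
    have hMo := Vw_odd_left hd (hGprop w hw).2.1 (hne w hw) hV
    rw [hAll, mem_cls]
    rw [mem_XW] at hM
    refine ⟨hM.1, hMo, Set.mem_univ _, ?_⟩
    simp
  have hdisj : (GG : Set (List ℕ)).PairwiseDisjoint (fun w => XW d a b k w) := by
    intro w hw w' hw' hww
    rw [Function.onFun, Finset.disjoint_left]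
    intro M hM hM'
    apply hww
    have hw1 := hGprop w (mem_coe.1 hw)
    have hw2 := hGprop w' (mem_coe.1 hw')
    obtain ⟨x, hx, hV⟩ := XW_word hw1.1 hM
    obtain ⟨x', hx', hV'⟩ := XW_word hw2.1 hM'
    exact word_unique hd w hw1.2.1 w' hw2.2.1 (hw1.1.trans hw2.1.symm) M x x' hx hx' hV hV'
  have hUsub : (GG.biUnion fun w => XW d a b k w) ⊆ All := biUnion_subset.2 hXall
  have hGc : (GG.card : ℝ) ≤ 2 ^ Tm := GW_card cap k Tl Tm
  have hℓ : 0 ≤ b - a := by linarith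
  have hmass1 : ∑ w ∈ GG, wwt w ≤ 1 := by
    refine le_trans ?_ (sum_wwt_le cap k)
    rw [hGG]; unfold GW
    apply sum_le_sum_of_subset_of_nonneg (filter_subset _ _)
    intro w _ _; unfold wwt; positivity
  -- step 1
  have hAllcard : (All.card : ℝ) ≤ (b - a) / 2 + 1 := by
    have := cls_card_le Set.univ hab 0 isCoprime_one_left 0
    rw [pow_zero, mul_one] at this
    exact this
  have hXcard : ∑ w ∈ GG, ((b - a) / 2 * wwt w - 1) ≤ ∑ w ∈ GG, ((XW d a b k w).card : ℝ) :=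
    sum_le_sum fun w _ => XW_card d k w
  rw [sum_sub_distrib, ← mul_sum, sum_const, nsmul_eq_mul, mul_one] at hXcard
  have hstep1 : |OS f a b - ∑ w ∈ GG, ∑ M ∈ XW d a b k w, f M|
      ≤ (b - a) / 2 * (1 - ∑ w ∈ GG, wwt w) + 1 + GG.card := by
    have h1 : OS f a b - ∑ w ∈ GG, ∑ M ∈ XW d a b k w, f M
        = ∑ M ∈ All \ GG.biUnion (fun w => XW d a b k w), f M := by
      unfold OS WS
      rw [← hAll, ← sum_biUnion hdisj, ← sum_sdiff hUsub]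
      ring
    rw [h1]
    have h2 : |∑ M ∈ All \ GG.biUnion (fun w => XW d a b k w), f M|
        ≤ ((All \ GG.biUnion (fun w => XW d a b k w)).card : ℝ) := by
      refine (abs_sum_le_sum_abs _ _).trans ?_
      calc ∑ x ∈ All \ GG.biUnion (fun w => XW d a b k w), |f x|
          ≤ ∑ x ∈ All \ GG.biUnion (fun w => XW d a b k w), (1 : ℝ) := sum_le_sum fun x _ => hf1 x
        _ = _ := by rw [sum_const, nsmul_eq_mul, mul_one]
    have h3 : (All \ GG.biUnion fun w => XW d a b k w).card + (GG.biUnion fun w => XW d a b k w).card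
        = All.card := card_sdiff_add_card_eq_card hUsub
    have h4 : (GG.biUnion fun w => XW d a b k w).card = ∑ w ∈ GG, (XW d a b k w).card :=
      card_biUnion hdisj
    rw [h4] at h3
    have h3' : ((All \ GG.biUnion fun w => XW d a b k w).card : ℝ)
        + ∑ w ∈ GG, ((XW d a b k w).card : ℝ) = All.card := by exact_mod_cast h3
    have e3 : (b - a) / 2 * (1 - ∑ w ∈ GG, wwt w)
        = (b - a) / 2 - (b - a) / 2 * ∑ w ∈ GG, wwt w := by ring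
    rw [e3]
    linarith
  -- step 2
  have hstep2 : |∑ w ∈ GG, ∑ M ∈ XW d a b k w, f M
      - ∑ w ∈ GG, WS f (a * 3 ^ k / 2 ^ w.sum) (b * 3 ^ k / 2 ^ w.sum) k (2 ^ w.sum) (d * Wo w)|
      ≤ (|(d : ℝ)| + 2) * 2 ^ Tm := by
    rw [← sum_sub_distrib]
    refine (abs_sum_le_sum_abs _ _).trans ?_
    have hb : ∀ w ∈ GG, |∑ M ∈ XW d a b k w, f M
        - WS f (a * 3 ^ k / 2 ^ w.sum) (b * 3 ^ k / 2 ^ w.sum) k (2 ^ w.sum) (d * Wo w)|
        ≤ |(d : ℝ)| + 2 := by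
      intro w hw
      obtain ⟨hlen, hlet, hwTm⟩ := hGprop w hw
      exact word_cmpW hd k hk hlen hlet hf
    refine (sum_le_sum hb).trans ?_
    rw [sum_const, nsmul_eq_mul, mul_comm]
    exact mul_le_mul_of_nonneg_left hGc (by positivity)
  -- step 3
  have hstep3 : |∑ w ∈ GG, WS f (a * 3 ^ k / 2 ^ w.sum) (b * 3 ^ k / 2 ^ w.sum) k (2 ^ w.sum) (d * Wo w)
      - (∑ w ∈ GG, WS f (a * 3 ^ k / 2 ^ w.sum) (b * 3 ^ k / 2 ^ w.sum) m' (2 ^ w.sum) (d * Wo w)) / 3 ^ (k - m')|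
      ≤ ((b - a) / 2 + 2 ^ Tm) * DD cap k m' := by
    rw [hGG, sum_GW, sum_GW, sum_div, ← sum_sub_distrib]
    refine (abs_sum_le_sum_abs _ _).trans ?_
    have hT : ∀ T ∈ Icc Tl Tm, |∑ w ∈ FWT cap k T, WS f (a * 3 ^ k / 2 ^ w.sum) (b * 3 ^ k / 2 ^ w.sum) k (2 ^ w.sum) (d * Wo w)
        - (∑ w ∈ FWT cap k T, WS f (a * 3 ^ k / 2 ^ w.sum) (b * 3 ^ k / 2 ^ w.sum) m' (2 ^ w.sum) (d * Wo w)) / 3 ^ (k - m')|
        ≤ ((b - a) / 2 + 2 ^ Tm) * dev (FWT cap k T) wwt (fun w => (Wo w : ℤ)) k m' := by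
      intro T hT
      rw [mem_Icc] at hT
      have hsum : ∀ w ∈ FWT cap k T, w.sum = T := fun w hw => by
        unfold FWT at hw; exact (mem_filter.1 hw).2
      have hab' : a * 3 ^ k / 2 ^ T ≤ b * 3 ^ k / 2 ^ T := by
        apply div_le_div_of_nonneg_right _ (by positivity)
        exact mul_le_mul_of_nonneg_right hab (by positivity)
      have h1 := mixW hd3 hf1 hab' cap k 0 m' T hm' hk 0
      rw [add_zero] at h1
      have e1 : ∑ w ∈ FWT cap k T, WS f (a * 3 ^ k / 2 ^ w.sum) (b * 3 ^ k / 2 ^ w.sum) k (2 ^ w.sum) (d * Wo w)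
          = ∑ w ∈ FWT cap k T, WS f (a * 3 ^ k / 2 ^ T) (b * 3 ^ k / 2 ^ T) k (2 ^ T) (d * Wo w + 3 ^ k * 0) :=
        sum_congr rfl fun w hw => by rw [hsum w hw, mul_zero, add_zero]
      have e2 : ∑ w ∈ FWT cap k T, WS f (a * 3 ^ k / 2 ^ w.sum) (b * 3 ^ k / 2 ^ w.sum) m' (2 ^ w.sum) (d * Wo w)
          = ∑ w ∈ FWT cap k T, WS f (a * 3 ^ k / 2 ^ T) (b * 3 ^ k / 2 ^ T) m' (2 ^ T) (d * Wo w) :=
        sum_congr rfl fun w hw => by rw [hsum w hw]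
      rw [e1, e2]
      refine h1.trans ?_
      have hdev : 0 ≤ dev (FWT cap k T) wwt (fun w => (Wo w : ℤ)) k m' :=
        sum_nonneg fun _ _ => abs_nonneg _
      have hcoef : 2 ^ T * ((b * 3 ^ k / 2 ^ T - a * 3 ^ k / 2 ^ T) / (2 * 3 ^ k) + 1) ≤ (b - a) / 2 + 2 ^ Tm := by
        have h2 : (2 : ℝ) ^ T * ((b * 3 ^ k / 2 ^ T - a * 3 ^ k / 2 ^ T) / (2 * 3 ^ k) + 1)
            = (b - a) / 2 + 2 ^ T := by
          field_simp
        rw [h2]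
        have h3 : (2 : ℝ) ^ T ≤ 2 ^ Tm := pow_le_pow_right₀ (by norm_num) hT.2
        linarith
      exact mul_le_mul_of_nonneg_right hcoef hdev
    refine (sum_le_sum hT).trans ?_
    rw [← mul_sum]
    apply mul_le_mul_of_nonneg_left _ (by positivity)
    unfold DD
    apply sum_le_sum_of_subset_of_nonneg
    · intro T hT
      rw [mem_Icc] at hT
      rw [mem_range]; omega
    · intro T _ _; exact sum_nonneg fun _ _ => abs_nonneg _
  -- step 4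
  have hstep4 : |(∑ w ∈ GG, WS f (a * 3 ^ k / 2 ^ w.sum) (b * 3 ^ k / 2 ^ w.sum) m' (2 ^ w.sum) (d * Wo w)) / 3 ^ (k - m')
      - ∑ w ∈ GG, OS f (a * 3 ^ k / 2 ^ w.sum) (b * 3 ^ k / 2 ^ w.sum) / 3 ^ k|
      ≤ (4 + 2 * ε * 2 ^ k') * 2 ^ Tm + 2 * ε * (b - a) := by
    rw [sum_div, ← sum_sub_distrib]
    refine (abs_sum_le_sum_abs _ _).trans ?_
    have hb : ∀ w ∈ GG, |WS f (a * 3 ^ k / 2 ^ w.sum) (b * 3 ^ k / 2 ^ w.sum) m' (2 ^ w.sum) (d * Wo w) / 3 ^ (k - m')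
        - OS f (a * 3 ^ k / 2 ^ w.sum) (b * 3 ^ k / 2 ^ w.sum) / 3 ^ k|
        ≤ (4 + 2 * ε * 2 ^ k') + 2 * ε * (b - a) * wwt w := by
      intro w hw
      have hab' : a * 3 ^ k / 2 ^ w.sum ≤ b * 3 ^ k / 2 ^ w.sum := by
        apply div_le_div_of_nonneg_right _ (by positivity)
        exact mul_le_mul_of_nonneg_right hab (by positivity)
      have h1 := class_all hd2 hdd hf hab' m' (cop_two_pow w.sum) (d * Wo w) k' hQ
      set X := OS f (a * 3 ^ k / 2 ^ w.sum) (b * 3 ^ k / 2 ^ w.sum) with hX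
      set Y := WS f (a * 3 ^ k / 2 ^ w.sum) (b * 3 ^ k / 2 ^ w.sum) m' (2 ^ w.sum) (d * Wo w) with hY
      have h3 : (3 : ℝ) ^ k = 3 ^ (k - m') * 3 ^ m' := by rw [← pow_add]; congr 1; omega
      have e : Y / 3 ^ (k - m') - X / 3 ^ k = -((X - 3 ^ m' * Y) / 3 ^ k) := by
        rw [h3]; field_simp; ring
      rw [e, abs_neg, abs_div, abs_of_pos (show (0 : ℝ) < 3 ^ k by positivity), div_le_iff₀ (by positivity)]
      refine h1.trans ?_
      have e2 : (3 : ℝ) ^ m' * (2 * ε * ((b * 3 ^ k / 2 ^ w.sum - a * 3 ^ k / 2 ^ w.sum) / 3 ^ m' + 2 ^ k') + 4)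
          = 2 * ε * (b - a) * wwt w * 3 ^ k + 3 ^ m' * (4 + 2 * ε * 2 ^ k') := by
        unfold wwt
        rw [one_div, inv_pow]
        field_simp
        ring
      rw [e2]
      have h4 : (3 : ℝ) ^ m' ≤ 3 ^ k := pow_le_pow_right₀ (by norm_num) hm'
      have h5 : (3 : ℝ) ^ m' * (4 + 2 * ε * 2 ^ k') ≤ 3 ^ k * (4 + 2 * ε * 2 ^ k') :=
        mul_le_mul_of_nonneg_right h4 (by positivity)
      linarith
    refine (sum_le_sum hb).trans ?_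
    rw [sum_add_distrib, sum_const, nsmul_eq_mul, ← mul_sum]
    have h1 : (GG.card : ℝ) * (4 + 2 * ε * 2 ^ k') ≤ (4 + 2 * ε * 2 ^ k') * 2 ^ Tm := by
      rw [mul_comm]
      exact mul_le_mul_of_nonneg_left hGc (by positivity)
    have h2 : 2 * ε * (b - a) * ∑ w ∈ GG, wwt w ≤ 2 * ε * (b - a) * 1 :=
      mul_le_mul_of_nonneg_left hmass1 (by positivity)
    linarith
  have h1 := abs_sub_le (OS f a b) (∑ w ∈ GG, ∑ M ∈ XW d a b k w, f M)
    (∑ w ∈ GG, WS f (a * 3 ^ k / 2 ^ w.sum) (b * 3 ^ k / 2 ^ w.sum) k (2 ^ w.sum) (d * Wo w))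
  have h2 := abs_sub_le (OS f a b)
    (∑ w ∈ GG, WS f (a * 3 ^ k / 2 ^ w.sum) (b * 3 ^ k / 2 ^ w.sum) k (2 ^ w.sum) (d * Wo w))
    ((∑ w ∈ GG, WS f (a * 3 ^ k / 2 ^ w.sum) (b * 3 ^ k / 2 ^ w.sum) m' (2 ^ w.sum) (d * Wo w)) / 3 ^ (k - m'))
  have h3 := abs_sub_le (OS f a b)
    ((∑ w ∈ GG, WS f (a * 3 ^ k / 2 ^ w.sum) (b * 3 ^ k / 2 ^ w.sum) m' (2 ^ w.sum) (d * Wo w)) / 3 ^ (k - m'))
    (∑ w ∈ GG, OS f (a * 3 ^ k / 2 ^ w.sum) (b * 3 ^ k / 2 ^ w.sum) / 3 ^ k)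
  linarith

end Pool.Agent.Y965.SI
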