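import Pool.Agent.Y965.SI.Fin

/-! Windows of all integers, logarithmic density: the lower bound. -/

set_option autoImplicit false

namespace Pool.Agent.Y965.SI

open Pool.Agent.H320R2.PD Pool.Agent.H499R2.ND Pool.Agent.H499R2.CO Finset Filter Topology

theorem AS_inv {A : ℝ} (hA : 0 < A) {n : ℕ} (hn : (2 : ℝ) ^ n * 2 ≤ A) :
    AS (fun x => 1 / (x : ℝ)) (A / 2 ^ n) (2 * A) ≤ n + 2 := by
  have h2 : ∀ l : ℕ, AS (fun x => 1 / (x : ℝ)) (A / 2 ^ l) (2 * A / 2 ^ l) ≤ 1 + 2 ^ l / A := by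
    intro l
    have hpos : (0 : ℝ) < A / 2 ^ l := by positivity
    have h3 : AS (fun x => 1 / (x : ℝ)) (A / 2 ^ l) (2 * A / 2 ^ l)
        ≤ AS (fun _ => 2 ^ l / A * 1) (A / 2 ^ l) (2 * A / 2 ^ l) := by
      apply AS_mono
      intro x hx1 _
      have hx0 : (0 : ℝ) < x := lt_of_lt_of_le hpos hx1
      rw [mul_one, div_le_div_iff₀ hx0 hA]
      rw [div_le_iff₀ (by positivity)] at hx1
      linarith
    rw [AS_const_mul] at h3
    have h4 : AS (fun _ => 1) (A / 2 ^ l) (2 * A / 2 ^ l) ≤ (2 * A / 2 ^ l - A / 2 ^ l) + 1 := by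
      apply AS_card
      apply div_le_div_of_nonneg_right _ (by positivity)
      linarith
    have h5 := mul_le_mul_of_nonneg_left h4 (show (0 : ℝ) ≤ 2 ^ l / A by positivity)
    have e : (2 : ℝ) ^ l / A * ((2 * A / 2 ^ l - A / 2 ^ l) + 1) = 1 + 2 ^ l / A := by
      field_simp
      ring
    rw [e] at h5
    linarith
  rw [← AS_levels _ hA]
  refine (sum_le_sum fun l _ => h2 l).trans ?_
  rw [sum_add_distrib, sum_const, card_range, nsmul_eq_mul, ← sum_div]
  have h3 : ∑ l ∈ range (n + 1), (2 : ℝ) ^ l ≤ 2 ^ n * 2 := by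
    have e : ∀ m : ℕ, ∑ l ∈ range (m + 1), (2 : ℝ) ^ l = 2 ^ m * 2 - 1 := by
      intro m
      induction m with
      | zero => norm_num
      | succ m ih => rw [sum_range_succ, ih, pow_succ]; ring
    rw [e]; linarith
  have h4 : (∑ l ∈ range (n + 1), (2 : ℝ) ^ l) / A ≤ 1 := by
    rw [div_le_one hA]; linarith
  push_cast
  linarith

/-- splitting according to the size of the window average -/
theorem AS_split {f : ℤ → ℝ} (hf : ∀ x, |f x| ≤ 1) {a b : ℝ} (ha : 0 < a) {H : ℕ} (hH : 1 ≤ H) {c1 c : ℝ}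
    (hc1 : 0 ≤ c1) (hc : c ≤ c1) {N : ℕ} (hb : b ≤ N) :
    AS (fun x => |∑ h ∈ Icc 1 H, f (x + h)| / H * (1 / (x : ℝ))) a b
      ≤ c1 * AS (fun x => 1 / (x : ℝ)) a b
        + ∑ x ∈ (Ico (1 : ℤ) N).filter (fun x : ℤ => c * H ≤ |∑ h ∈ Icc 1 H, f (x + h)|), 1 / (x : ℝ) := by
  classical
  have hH0 : (0 : ℝ) < H := by exact_mod_cast hH
  set P : ℤ → Prop := fun x => c1 * H ≤ |∑ h ∈ Icc 1 H, f (x + h)| with hP
  have h1 : AS (fun x => |∑ h ∈ Icc 1 H, f (x + h)| / H * (1 / (x : ℝ))) a b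
      ≤ AS (fun x => c1 * (1 / (x : ℝ)) + (if P x then 1 / (x : ℝ) else 0)) a b := by
    apply AS_mono
    intro x hx1 _
    have hx0 : (0 : ℝ) < x := lt_of_lt_of_le ha hx1
    have hix : (0 : ℝ) ≤ 1 / x := by positivity
    have hG1 : |∑ h ∈ Icc 1 H, f (x + h)| / H ≤ 1 := by
      rw [div_le_one hH0]
      refine (abs_sum_le_sum_abs _ _).trans ?_
      refine (sum_le_sum fun (h : ℕ) _ => hf (x + (h : ℤ))).trans ?_
      rw [sum_const, Nat.card_Icc]; simp
    by_cases hPx : P x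
    · rw [if_pos hPx]
      have h2 := mul_le_mul_of_nonneg_right hG1 hix
      have h3 : 0 ≤ c1 * (1 / (x : ℝ)) := mul_nonneg hc1 hix
      linarith
    · rw [if_neg hPx]
      have h2 : |∑ h ∈ Icc 1 H, f (x + h)| / H ≤ c1 := by
        rw [div_le_iff₀ hH0]
        rw [hP] at hPx
        simp only [not_le] at hPx
        exact hPx.le
      have h3 := mul_le_mul_of_nonneg_right h2 hix
      linarith
  refine h1.trans ?_
  have h2 : AS (fun x => c1 * (1 / (x : ℝ)) + (if P x then 1 / (x : ℝ) else 0)) a b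
      = c1 * AS (fun x => 1 / (x : ℝ)) a b + ∑ x ∈ (Ico ⌈a⌉ ⌈b⌉).filter P, 1 / (x : ℝ) := by
    rw [← AS_const_mul]
    unfold AS
    rw [sum_add_distrib, sum_filter]
  rw [h2]
  have h3 : ∑ x ∈ (Ico ⌈a⌉ ⌈b⌉).filter P, 1 / (x : ℝ)
      ≤ ∑ x ∈ (Ico (1 : ℤ) N).filter (fun x : ℤ => c * H ≤ |∑ h ∈ Icc 1 H, f (x + h)|), 1 / (x : ℝ) := by
    apply sum_le_sum_of_subset_of_nonneg
    · intro x hx
      rw [mem_filter, mem_win] at hx
      obtain ⟨⟨hx1, hx2⟩, hx3⟩ := hx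
      rw [mem_filter, mem_Ico]
      have hx0 : (0 : ℝ) < x := lt_of_lt_of_le ha hx1
      have hx0' : 0 < x := by exact_mod_cast hx0
      have hxN : (x : ℝ) < N := by linarith
      have hxN' : x < (N : ℤ) := by exact_mod_cast hxN
      refine ⟨⟨by omega, hxN'⟩, ?_⟩
      have := mul_le_mul_of_nonneg_right hc hH0.le
      rw [hP] at hx3
      exact this.trans hx3
    · intro x hx _
      rw [mem_filter, mem_Ico] at hx
      have : (0 : ℝ) < x := by
        have : 0 < x := by omega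
        exact_mod_cast this
      positivity
  linarith

theorem mainW {d : ℤ} (hd : Odd d) (hd3 : IsCoprime d 3) (hdd : d * d = 1) {θ e0 : ℝ} (hθ0 : 0 < θ) (hθ1 : θ < 1)
    (he0 : 0 < e0) (he1 : e0 ≤ 1) :
    ∃ c : ℝ, 0 < c ∧ ∀ᶠ N : ℕ in atTop, ∀ f : ℤ → ℝ, InvF d f →
      (∀ Y : ℝ, 0 < Y → (1 - θ) / 8 * Real.log N ≤ Real.log Y → Y ≤ N →
        e0 * Y / 2 ≤ OS (fun x => f x ^ 2) Y (2 * Y)) →
      ∀ H : ℕ, 1 ≤ H → (H : ℝ) ≤ (N : ℝ) ^ θ →
      c * Real.log N ≤ ∑ x ∈ (Ico (1 : ℤ) N).filter (fun x : ℤ => c * H ≤ |∑ h ∈ Icc 1 H, f (x + h)|), 1 / (x : ℝ) := by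
  have h1θ : 0 < 1 - θ := by linarith
  obtain ⟨ν, c, hν, hν0, hc, hev⟩ := main hd hd3 hdd (show 0 < (1 + θ) / 2 by linarith) (show (1 + θ) / 2 < 1 by linarith)
    he0 he1 (show 0 < (1 - θ) / 4 by linarith)
  have e1 : 1 - (1 + θ) / 2 = (1 - θ) / 2 := by ring
  rw [e1] at hev
  refine ⟨min (c / 96) (c * ν / 96), by positivity, ?_⟩
  -- `A = N/2`
  have hT : Tendsto (fun N : ℕ => (N : ℝ) / 2) atTop atTop :=
    tendsto_natCast_atTop_atTop.atTop_div_const (by norm_num)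
  have hpow : Tendsto (fun A : ℝ => A ^ (-((1 - θ) / 4))) atTop (𝓝 0) := tendsto_rpow_neg_atTop (by linarith)
  have hlogt := Real.tendsto_log_atTop
  have hsm : ∀ᶠ A : ℝ in atTop, 2 * A ^ (-((1 - θ) / 4)) ≤ c / 24 := by
    have := hpow.eventually (ge_mem_nhds (show (0 : ℝ) < c / 48 by positivity))
    filter_upwards [this] with A hA
    linarith
  have hbig : ∀ᶠ A : ℝ in atTop, 2 ≤ ν * Real.log A := by
    have := hlogt.eventually_ge_atTop (2 / ν)
    filter_upwards [this] with A hA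
    rw [div_le_iff₀ hν] at hA
    linarith
  have hbig2 : ∀ᶠ A : ℝ in atTop, Real.log 2 * 4 ≤ Real.log A := hlogt.eventually_ge_atTop _
  filter_upwards [hT.eventually hev, hT.eventually hsm, hT.eventually hbig, hT.eventually hbig2,
    hT.eventually (eventually_ge_atTop (4 : ℝ))] with N h1 h2 h3 h4 h5
  intro f hf hen H hH hHN
  set A : ℝ := (N : ℝ) / 2 with hA
  have hA0 : 0 < A := by linarith
  have hN : (N : ℝ) = 2 * A := by rw [hA]; ring
  have hlN : Real.log N = Real.log 2 + Real.log A := by rw [hN, Real.log_mul (by norm_num) (by positivity)]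
  have hl2 : 0 < Real.log 2 := Real.log_pos (by norm_num)
  have hl2' : Real.log 2 < 1 := by linarith [Real.log_two_lt_d9]
  have hlA : 0 < Real.log A := by linarith
  set I : ℕ := ⌊A ^ ((1 - θ) / 2)⌋₊ with hI
  set n : ℕ := ⌊ν * Real.log A⌋₊ with hn
  have key := h1 f hf (by
    intro Y hY0 hY1 hY2
    apply hen Y hY0 _ (by linarith)
    refine le_trans ?_ hY1
    rw [hlN]
    have e : (1 - θ) / 2 / 2 * Real.log A - (1 - θ) / 8 * (Real.log 2 + Real.log A) = (1 - θ) / 8 * (Real.log A - Real.log 2) := by ring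
    have : 0 ≤ (1 - θ) / 8 * (Real.log A - Real.log 2) := mul_nonneg (by linarith) (by linarith)
    linarith) I n rfl rfl
  have hI1 : 1 ≤ I := by
    rw [hI]
    apply Nat.one_le_iff_ne_zero.mpr
    rw [Ne, Nat.floor_eq_zero, not_lt]
    exact Real.one_le_rpow (by linarith) (by linarith)
  have hI0 : (0 : ℝ) < I := by exact_mod_cast hI1
  have hIle : (I : ℝ) ≤ A ^ ((1 - θ) / 2) := Nat.floor_le (by positivity)
  have hnle : (n : ℝ) ≤ ν * Real.log A := Nat.floor_le (by positivity)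
  have hnge : ν * Real.log A / 2 ≤ n := by
    have := Nat.lt_floor_add_one (ν * Real.log A)
    rw [← hn] at this
    linarith
  have hn1 : (1 : ℝ) ≤ n := by linarith
  have h2n : (2 : ℝ) ^ n ≤ A ^ ((1 - θ) / 4) := by
    rw [← Real.rpow_natCast, Real.rpow_def_of_pos (by norm_num), Real.rpow_def_of_pos hA0]
    apply Real.exp_le_exp.mpr
    have g1 : Real.log 2 * n ≤ 1 * n := mul_le_mul_of_nonneg_right hl2'.le (by positivity)
    have g2 : ν * Real.log A ≤ (1 - θ) / 4 * Real.log A := mul_le_mul_of_nonneg_right hν0 hlA.le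
    linarith
  have h2nA : (2 : ℝ) ^ n * 2 ≤ A := by
    have g1 : A ^ ((1 - θ) / 4) ≤ A ^ ((1 : ℝ) / 2) := Real.rpow_le_rpow_of_exponent_le (by linarith) (by linarith)
    have g2 : (2 : ℝ) ≤ A ^ ((1 : ℝ) / 2) := by
      rw [← Real.sqrt_eq_rpow]
      apply Real.le_sqrt_of_sq_le
      linarith
    have g3 : A ^ ((1 : ℝ) / 2) * A ^ ((1 : ℝ) / 2) = A := by
      rw [← Real.rpow_add hA0]; norm_num
    calc (2 : ℝ) ^ n * 2 ≤ A ^ ((1 : ℝ) / 2) * A ^ ((1 : ℝ) / 2) :=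
          mul_le_mul (h2n.trans g1) g2 (by norm_num) (by positivity)
      _ = A := g3
  have hcw := cells_windows hf hA0 (n := n) hI1 hH
  -- the error
  have herr : 12 * H * I * I * 2 ^ n / A ≤ c / 2 * (n * I) := by
    have g1 : (H : ℝ) ≤ 2 * A ^ θ := by
      refine hHN.trans ?_
      rw [hN, Real.mul_rpow (by norm_num) hA0.le]
      apply mul_le_mul_of_nonneg_right _ (by positivity)
      calc (2 : ℝ) ^ θ ≤ 2 ^ (1 : ℝ) := Real.rpow_le_rpow_of_exponent_le (by norm_num) hθ1.le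
        _ = 2 := Real.rpow_one 2
    have g2 : (H : ℝ) * I * 2 ^ n ≤ 2 * A ^ θ * A ^ ((1 - θ) / 2) * A ^ ((1 - θ) / 4) :=
      mul_le_mul (mul_le_mul g1 hIle hI0.le (by positivity)) h2n (by positivity) (by positivity)
    have g3 : 2 * A ^ θ * A ^ ((1 - θ) / 2) * A ^ ((1 - θ) / 4) / A = 2 * A ^ (-((1 - θ) / 4)) := by
      have e : A ^ θ * A ^ ((1 - θ) / 2) * A ^ ((1 - θ) / 4) = A ^ (-((1 - θ) / 4)) * A := by
        rw [← Real.rpow_add hA0, ← Real.rpow_add hA0]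
        nth_rewrite 3 [← Real.rpow_one A]
        rw [← Real.rpow_add hA0]
        congr 1
        ring
      have e' : 2 * A ^ θ * A ^ ((1 - θ) / 2) * A ^ ((1 - θ) / 4) = 2 * A ^ (-((1 - θ) / 4)) * A := by
        calc _ = 2 * (A ^ θ * A ^ ((1 - θ) / 2) * A ^ ((1 - θ) / 4)) := by ring
          _ = _ := by rw [e]; ring
      rw [e', mul_div_assoc, div_self hA0.ne', mul_one]
    have g4 : (H : ℝ) * I * 2 ^ n / A ≤ 2 * A ^ (-((1 - θ) / 4)) := by
      rw [← g3]; exact div_le_div_of_nonneg_right g2 hA0.le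
    have g5 : (H : ℝ) * I * 2 ^ n / A ≤ c / 24 := g4.trans h2
    have e : 12 * (H : ℝ) * I * I * 2 ^ n / A = 12 * I * (H * I * 2 ^ n / A) := by ring
    rw [e]
    have g6 := mul_le_mul_of_nonneg_left g5 (show (0 : ℝ) ≤ 12 * I by positivity)
    have g7 : c / 2 * (1 * (I : ℝ)) ≤ c / 2 * (n * I) := by
      apply mul_le_mul_of_nonneg_left _ (by positivity)
      exact mul_le_mul_of_nonneg_right hn1 hI0.le
    linarith
  have hbd := AS_inv hA0 h2nA
  have hsp := AS_split hf.1 (a := A / 2 ^ n) (b := 2 * A) (by positivity) hH (c1 := c / 96)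
    (c := min (c / 96) (c * ν / 96)) (by positivity) (min_le_left _ _) (N := N) (by linarith)
  set W := AS (fun x => |∑ h ∈ Icc 1 H, f (x + h)| / H * (1 / (x : ℝ))) (A / 2 ^ n) (2 * A) with hW
  set R := ∑ x ∈ (Ico (1 : ℤ) N).filter (fun x : ℤ => min (c / 96) (c * ν / 96) * H ≤ |∑ h ∈ Icc 1 H, f (x + h)|), 1 / (x : ℝ) with hR
  have k1 : c / 12 * n ≤ W := by
    have g1 : c / 2 * (n * I) ≤ 6 * I * W := by linarith
    have g2 : (6 * (I : ℝ)) * (c / 12 * n) ≤ 6 * I * W := by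
      have : (6 * (I : ℝ)) * (c / 12 * n) = c / 2 * (n * I) := by ring
      linarith
    exact le_of_mul_le_mul_left g2 (by positivity)
  have k2 : c / 96 * AS (fun x => 1 / (x : ℝ)) (A / 2 ^ n) (2 * A) ≤ c / 96 * (4 * n) := by
    apply mul_le_mul_of_nonneg_left _ (by positivity)
    linarith
  have k3 : c / 24 * n ≤ R := by linarith
  have k4 : c / 24 * (ν * Real.log A / 2) ≤ c / 24 * n := mul_le_mul_of_nonneg_left hnge (by positivity)
  have k5 : min (c / 96) (c * ν / 96) * Real.log N ≤ c * ν / 96 * Real.log N :=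
    mul_le_mul_of_nonneg_right (min_le_right _ _) (by rw [hlN]; linarith)
  have k6 : c * ν / 96 * Real.log N ≤ c * ν / 96 * (2 * Real.log A) := by
    apply mul_le_mul_of_nonneg_left _ (by positivity)
    rw [hlN]; linarith
  linarith

end Pool.Agent.Y965.SI
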